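import Mathlib

set_option autoImplicit false
set_option linter.unusedSectionVars false

/-! Complete simplicial fans: arrangements, edge subdivisions, joins. Definitions. -/

namespace Pool.Agent.H128.Bend

variable {V : Type} [Fintype V] [DecidableEq V] {n m d e : ℕ}

/-- `S` is closed under subsets: the set of faces of a simplicial complex (a vertex need not be a face). -/
def Down (S : Finset (Finset V)) : Prop := ∀ F ∈ S, ∀ G ⊆ F, G ∈ S

/-- The vectors `p v` and the cones spanned by the sets `F ∈ S` form a complete simplicial fan in `ℝ^d`: every vector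
of `ℝ^d` is in exactly one way a nonnegative combination of the vectors `p v` whose support is in `S`. -/
def Fan (S : Finset (Finset V)) (p : V → Fin d → ℝ) : Prop :=
  ∀ x : Fin d → ℝ, ∃! c : V → ℝ,
    (∀ v, 0 ≤ c v) ∧ (Finset.univ.filter fun v => c v ≠ 0) ∈ S ∧ ∑ v, c v • p v = x

/-- There is no nonzero positive semidefinite `2`-stress: no nonzero positive semidefinite matrix `A` such that
`A u v = 0` for all `u, v` with `{u, v} ∉ S` and `∑ v, A u v • p v = 0` for all `u`. -/
def NoPS (S : Finset (Finset V)) (p : V → Fin d → ℝ) : Prop :=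
  ∀ A : Matrix V V ℝ, A.PosSemidef → (∀ u v, ({u, v} : Finset V) ∉ S → A u v = 0) →
    (∀ u, ∑ v, A u v • p v = 0) → A = 0

/-- The hyperplanes spanned by the walls (the cones of dimension `d - 1`) do not cut the cones, i.e. the complete fan is
the fan of a hyperplane arrangement: if the linear form `h` is zero on a wall, then every cone is in one of the two
closed half spaces of `h`. -/
def Walls (S : Finset (Finset V)) (p : V → Fin d → ℝ) : Prop :=
  ∀ F ∈ S, F.card + 1 = d → ∀ h : (Fin d → ℝ) →ₗ[ℝ] ℝ, (∀ v ∈ F, h (p v) = 0) →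
    ∀ σ ∈ S, (∀ v ∈ σ, 0 ≤ h (p v)) ∨ (∀ v ∈ σ, h (p v) ≤ 0)

/-- The coordinates of `x` in the link fan of `H`. -/
def IsStar (S : Finset (Finset V)) (p : V → Fin d → ℝ) (H : Finset V) (x : Fin d → ℝ) (c : V → ℝ) : Prop :=
  (∀ v, 0 ≤ c v) ∧ (∀ v ∈ H, c v = 0) ∧ (Finset.univ.filter fun v => c v ≠ 0) ∪ H ∈ S ∧
    x - ∑ v, c v • p v ∈ Submodule.span ℝ (p '' (H : Set V))

/-- `∑ G_uv x_u x_v = 0` in the face ring of `S` modulo the `d` linear forms `∑ (p v)_i x_v`: for some vectors `lam v` of
`ℝ^d` the equation `2 G_uv = ⟪p u, lam v⟫ + ⟪p v, lam u⟫` holds for all `u, v` with `{u, v} ∈ S` (also for `u = v`). For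
example, `lam = p`, `G_uv = ⟪X_u, X_v⟫` for a realization `X` of the fan in some `ℝ^N` which is isometric on the cones. -/
def Rel (S : Finset (Finset V)) (p : V → Fin d → ℝ) (G : Matrix V V ℝ) : Prop :=
  ∃ lam : V → Fin d → ℝ, ∀ u v, ({u, v} : Finset V) ∈ S →
    2 * G u v = ∑ i, (p u i * lam v i + p v i * lam u i)

/-- The fan bends at the face `H`: there is a positive semidefinite quadratic relation `∑ G_uv x_u x_v = 0` and a vector
`s` in the image of the matrix `G` which is zero on `H` and positive on the link of `H`. (Equivalently, `- (∑ s_v x_v)^2`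
is a sum of squares of linear forms in the face ring modulo the `d` linear forms, for some such `s`.) -/
def Bends (S : Finset (Finset V)) (p : V → Fin d → ℝ) (H : Finset V) : Prop :=
  ∃ G : Matrix V V ℝ, G.PosSemidef ∧ Rel S p G ∧ ∃ y : V → ℝ, (∀ v ∈ H, G.mulVec y v = 0) ∧
    ∀ v, v ∉ H → insert v H ∈ S → 0 < G.mulVec y v

/-- The complex `S` subdivided at the edge `{a, b}`; the new vertex is `Fin.last n`. -/
def subdiv (S : Finset (Finset (Fin n))) (a b : Fin n) : Finset (Finset (Fin (n + 1))) :=
  (S.filter fun σ => ¬ (a ∈ σ ∧ b ∈ σ)).image (fun σ => σ.map Fin.castSuccEmb) ∪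
  (S.filter fun σ => ¬ (a ∈ σ ∧ b ∈ σ) ∧ insert a (insert b σ) ∈ S).image
    (fun σ => insert (Fin.last n) (σ.map Fin.castSuccEmb))

/-- The vectors of the subdivision: the vector of the new vertex is `α • p a + β • p b`. -/
def subVec (p : Fin n → Fin d → ℝ) (a b : Fin n) (α β : ℝ) : Fin (n + 1) → Fin d → ℝ :=
  Fin.snoc (α := fun _ => Fin d → ℝ) p (α • p a + β • p b)

/-- The join of two complexes. -/
def join (S : Finset (Finset (Fin n))) (T : Finset (Finset (Fin m))) :
    Finset (Finset (Fin (n + m))) :=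
  (S ×ˢ T).image fun q => q.1.map (Fin.castAddEmb m) ∪ q.2.map (Fin.natAddEmb n)

/-- The vectors of the join. -/
def joinVec (p : Fin n → Fin d → ℝ) (q : Fin m → Fin e → ℝ) : Fin (n + m) → Fin (d + e) → ℝ :=
  Fin.append (fun v => Fin.append (p v) 0) (fun v => Fin.append 0 (q v))

end Pool.Agent.H128.Bend
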