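import Pool.Agent.H128.Fan.Asm5
import Pool.Agent.H128.Bend.Defs

set_option autoImplicit false
set_option linter.unusedSectionVars false

/-! Complete simplicial fans with bendings: the Clifford matrix. -/

namespace Pool.Agent.H128.Fan

open Pool.Agent.Helper611 Pool.Agent.Helper611.ZBase Pool.Agent.H128.SRing
open MvPolynomial Module

variable {V : Type} [Fintype V] [LinearOrder V] {d : ℕ}
variable {κ : Type} [Fintype κ] [DecidableEq κ]

/-- the matrix `M` of linear forms squares to a scalar in the ideal -/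
structure ClB (Γ : Cx V) (p : V → (Fin d → ℝ)) (M : Matrix κ κ (MvPolynomial V ℝ)) : Prop where
  symm : M.transpose = M
  hom : ∀ i j, (M i j).IsHomogeneous 1
  sq : ∃ q ∈ JJ Γ p, q.IsHomogeneous 2 ∧ M * M = q • (1 : Matrix κ κ (MvPolynomial V ℝ))

/-- for the faces `H` with `d - |H|` odd some form which is zero on `H` and positive on the link is an
anticommutator with a constant symmetric matrix -/
def AntiB (Γ : Cx V) (p : V → (Fin d → ℝ)) (M : Matrix κ κ (MvPolynomial V ℝ)) : Prop :=
  ∀ H ∈ Γ.faces, Odd (d - H.card) → ∃ (s : V → ℝ) (u : Matrix κ κ ℝ),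
    (∀ v ∈ H, s v = 0) ∧ (∀ v, v ∉ H → insert v H ∈ Γ.faces → 0 < s v) ∧ u.transpose = u ∧
    M * u.map C + u.map C * M = (2 * ∑ v, C (s v) * X v : MvPolynomial V ℝ) •
      (1 : Matrix κ κ (MvPolynomial V ℝ))

end Pool.Agent.H128.Fan
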