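import Pool.Agent.H128.Bend.Z03

set_option autoImplicit false
set_option linter.unusedSectionVars false

/-! Complete simplicial fans with a strictly convex function in the image of a positive semidefinite relation. -/

namespace Pool.Agent.H128.Bend

open Matrix

variable {n d : ℕ}

/-- The piecewise linear function with the values `s v` at the vectors `p v` is strictly convex: for each face `H` there
is a linear form which agrees with it on `H` and is smaller on the vertices of the link of `H`. -/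
def StrictlyConvex (S : Finset (Finset (Fin n))) (p : Fin n → Fin d → ℝ) (s : Fin n → ℝ) : Prop :=
  ∀ H ∈ S, ∃ h : (Fin d → ℝ) →ₗ[ℝ] ℝ, (∀ v ∈ H, s v = h (p v)) ∧
    ∀ v, v ∉ H → insert v H ∈ S → h (p v) < s v

theorem bends_of_convex {S : Finset (Finset (Fin n))} {p : Fin n → Fin d → ℝ}
    {G : Matrix (Fin n) (Fin n) ℝ} (hG : G.PosSemidef) (hr : Rel S p G) {y : Fin n → ℝ}
    (hy : StrictlyConvex S p (G.mulVec y)) (H : Finset (Fin n)) (hH : H ∈ S) : Bends S p H := by
  classical
  obtain ⟨h, h1, h2⟩ := hy H hH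
  obtain ⟨lam, hlam⟩ := hr
  let P : Matrix (Fin n) (Fin d) ℝ := Matrix.of p
  have hPP : (P * Pᵀ).PosSemidef := by
    have := Matrix.posSemidef_self_mul_conjTranspose P
    rwa [Matrix.conjTranspose_eq_transpose_of_trivial] at this
  have hA : (G + P * Pᵀ).PosSemidef := hG.add hPP
  have hAsym : (G + P * Pᵀ)ᵀ = G + P * Pᵀ := by
    have := hA.isHermitian.eq
    rwa [Matrix.conjTranspose_eq_transpose_of_trivial] at this
  have hGsym : Gᵀ = G := by
    have := hG.isHermitian.eq
    rwa [Matrix.conjTranspose_eq_transpose_of_trivial] at this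
  have hhp : ∀ v, h (p v) = (P *ᵥ fun j => h (Pi.single j 1)) v := by
    intro v
    conv_lhs => rw [pi_eq_sum_univ' (p v)]
    rw [map_sum]
    show _ = ∑ j, P v j * h (Pi.single j 1)
    refine Finset.sum_congr rfl fun j _ => ?_
    rw [map_smul, smul_eq_mul]
    rfl
  have hker : ∀ z : Fin n → ℝ, (G + P * Pᵀ) *ᵥ z = 0 →
      z ⬝ᵥ (G *ᵥ y - P *ᵥ fun j => h (Pi.single j 1)) = 0 := by
    intro z hz
    have e1 : z ⬝ᵥ (G *ᵥ z) + z ⬝ᵥ ((P * Pᵀ) *ᵥ z) = 0 := by
      rw [← dotProduct_add, ← Matrix.add_mulVec, hz, dotProduct_zero]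
    have e2 : 0 ≤ z ⬝ᵥ (G *ᵥ z) := by
      have := hG.dotProduct_mulVec_nonneg z
      rwa [star_trivial] at this
    have e3 : 0 ≤ z ⬝ᵥ ((P * Pᵀ) *ᵥ z) := by
      have := hPP.dotProduct_mulVec_nonneg z
      rwa [star_trivial] at this
    have e4 : G *ᵥ z = 0 := by
      rw [← hG.dotProduct_mulVec_zero_iff, star_trivial]
      linarith
    have e5 : z ⬝ᵥ ((P * Pᵀ) *ᵥ z) = 0 := by linarith
    have e6 : Pᵀ *ᵥ z = 0 := by
      rw [← Matrix.mulVec_mulVec, Matrix.dotProduct_mulVec, ← Matrix.mulVec_transpose] at e5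
      exact dotProduct_self_eq_zero.1 e5
    rw [dotProduct_sub, Matrix.dotProduct_mulVec, ← Matrix.mulVec_transpose, hGsym, e4,
      zero_dotProduct, Matrix.dotProduct_mulVec, ← Matrix.mulVec_transpose, e6, zero_dotProduct,
      sub_zero]
  obtain ⟨w, hw⟩ := Pool.Agent.H390.Bend.mem_range_of_symm _ hAsym _ hker
  refine ⟨G + P * Pᵀ, hA, ⟨fun v => lam v + p v, ?_⟩, w, ?_, ?_⟩
  · intro u v huv
    have e1 : (G + P * Pᵀ) u v = G u v + ∑ j, p u j * p v j := by
      rw [Matrix.add_apply, Matrix.mul_apply]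
      rfl
    rw [e1, mul_add, hlam u v huv, Finset.mul_sum, ← Finset.sum_add_distrib]
    refine Finset.sum_congr rfl fun j _ => ?_
    simp only [Pi.add_apply]
    ring
  · intro v hv
    rw [hw, Pi.sub_apply, ← hhp, h1 v hv, sub_self]
  · intro v hv hvH
    rw [hw, Pi.sub_apply, ← hhp]
    have := h2 v hv hvH
    linarith

end Pool.Agent.H128.Bend
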