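import Pool.Agent.H128.Bend.Defs2

/-! # Quadrangle fans have no positive semidefinite stress (project Bend of helper128) -/

set_option autoImplicit false

namespace Pool.Agent.H630.BendZ

open Pool.Agent.H128.Bend Finset

/-- the function with the values `α` at `a` and `β` at `b` -/
def tw (a b : Fin 4) (α β : ℝ) : Fin 4 → ℝ :=
  fun v => (if v = a then α else 0) + (if v = b then β else 0)

lemma tw_nonneg (a b : Fin 4) {α β : ℝ} (hα : 0 ≤ α) (hβ : 0 ≤ β) (v : Fin 4) :
    0 ≤ tw a b α β v := by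
  unfold tw
  split_ifs <;> linarith

lemma tw_sum (p : Fin 4 → Fin 2 → ℝ) (a b : Fin 4) (α β : ℝ) :
    ∑ v, tw a b α β v • p v = α • p a + β • p b := by
  simp only [tw, add_smul, sum_add_distrib, ite_smul, zero_smul, sum_ite_eq', mem_univ, if_true]

lemma tw_supp (a b : Fin 4) (α β : ℝ) :
    (univ.filter fun v => tw a b α β v ≠ 0) ⊆ {a, b} := by
  intro v hv
  rw [mem_filter] at hv
  by_contra hc
  rw [mem_insert, mem_singleton, not_or] at hc
  refine hv.2 ?_
  unfold tw
  rw [if_neg hc.1, if_neg hc.2, add_zero]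

lemma down_cycle4 : ∀ F ∈ cycle4, ∀ G : Finset (Fin 4), G ⊆ F → G ∈ cycle4 := by
  decide

lemma rep {p : Fin 4 → Fin 2 → ℝ} (hf : Fan cycle4 p) {a b c d : Fin 4}
    (hab : ({a, b} : Finset (Fin 4)) ∈ cycle4) (hcd : ({c, d} : Finset (Fin 4)) ∈ cycle4)
    {α β γ δ : ℝ} (hα : 0 ≤ α) (hβ : 0 ≤ β) (hγ : 0 ≤ γ) (hδ : 0 ≤ δ)
    (h : α • p a + β • p b = γ • p c + δ • p d) (v : Fin 4) : tw a b α β v = tw c d γ δ v := by
  have h1 := (hf (α • p a + β • p b)).unique
    (y₁ := tw a b α β) (y₂ := tw c d γ δ)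
    ⟨tw_nonneg a b hα hβ, down_cycle4 _ hab _ (tw_supp a b α β), tw_sum p a b α β⟩
    ⟨tw_nonneg c d hγ hδ, down_cycle4 _ hcd _ (tw_supp c d γ δ), (tw_sum p c d γ δ).trans h.symm⟩
  exact congrFun h1 v

/-- the determinant -/
def D (x y : Fin 2 → ℝ) : ℝ := x 0 * y 1 - x 1 * y 0

lemma indep {p : Fin 4 → Fin 2 → ℝ} (hf : Fan cycle4 p) {b c : Fin 4} (hbc : b ≠ c)
    (h : ({b, c} : Finset (Fin 4)) ∈ cycle4) {s r : ℝ} (hs : s ≠ 0)
    (e : s • p c = r • p b) : False := by
  have main : ∀ s r : ℝ, 0 < s → s • p c = r • p b → False := by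
    intro s r hs e
    rcases le_or_gt 0 r with hr | hr
    · have h1 := rep hf h h le_rfl hs.le hr le_rfl (α := 0) (β := s) (γ := r) (δ := 0)
        (by rw [zero_smul, zero_smul, zero_add, add_zero]; exact e) c
      simp [tw, hbc.symm] at h1
      exact hs.ne' h1
    · have h1 := rep hf h h (neg_nonneg.2 hr.le) hs.le le_rfl le_rfl
        (α := -r) (β := s) (γ := 0) (δ := 0)
        (by rw [e, zero_smul, zero_smul, ← add_smul]; simp) c
      simp [tw, hbc.symm] at h1
      exact hs.ne' h1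
  rcases lt_or_gt_of_ne hs with h1 | h1
  · refine main (-s) (-r) (neg_pos.2 h1) ?_
    rw [neg_smul, neg_smul, e]
  · exact main s r h1 e

lemma D_ne {p : Fin 4 → Fin 2 → ℝ} (hf : Fan cycle4 p) {b c : Fin 4} (hbc : b ≠ c)
    (h : ({b, c} : Finset (Fin 4)) ∈ cycle4) : D (p b) (p c) ≠ 0 := by
  intro h0
  unfold D at h0
  have e0 : (p b 0) • p c = (p c 0) • p b := by
    funext j
    fin_cases j
    · change p b 0 * p c 0 = p c 0 * p b 0
      ring
    · simp
      linarith
  have e1 : (p b 1) • p c = (p c 1) • p b := by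
    funext j
    fin_cases j
    · simp
      linarith
    · change p b 1 * p c 1 = p c 1 * p b 1
      ring
  by_cases h1 : p b 0 = 0
  · by_cases h2 : p b 1 = 0
    · have hpb : p b = 0 := by
        funext j
        fin_cases j
        · simpa using h1
        · simpa using h2
      have h3 := rep hf h h zero_le_one le_rfl le_rfl le_rfl
        (α := 1) (β := 0) (γ := 0) (δ := 0) (by rw [hpb]; simp) b
      simp [tw, hbc] at h3
    · exact indep hf hbc h h2 e1
  · exact indep hf hbc h h1 e0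

lemma D_pos {p : Fin 4 → Fin 2 → ℝ} (hf : Fan cycle4 p) {a b c : Fin 4} (hab : a ≠ b)
    (hbc : b ≠ c) (hac : a ≠ c) (h : ({a, b} : Finset (Fin 4)) ∈ cycle4)
    (h' : ({b, c} : Finset (Fin 4)) ∈ cycle4) : 0 < D (p a) (p b) * D (p b) (p c) := by
  have hx := D_ne hf hab h
  have hy := D_ne hf hbc h'
  have hcb : ({c, b} : Finset (Fin 4)) ∈ cycle4 := by rw [pair_comm]; exact h'
  have hid : D (p a) (p b) • p c + D (p b) (p c) • p a + D (p c) (p a) • p b = 0 := by
    funext j
    fin_cases j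
    · simp [D]
      ring
    · simp [D]
      ring
  generalize D (p a) (p b) = x at *
  generalize D (p b) (p c) = y at *
  generalize D (p c) (p a) = z at *
  by_contra hneg
  have hxy : x * y < 0 := lt_of_le_of_ne (not_lt.1 hneg) (mul_ne_zero hx hy)
  rcases lt_or_gt_of_ne hx with hx' | hx'
  · have hy' : 0 < y := by
      by_contra h3
      exact absurd hxy (not_lt.2 (mul_nonneg_of_nonpos_of_nonpos hx'.le (not_lt.1 h3)))
    rcases le_or_gt 0 z with hz | hz
    · have h1 := rep hf hcb h (neg_nonneg.2 hx'.le) le_rfl hy'.le hz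
        (α := -x) (β := 0) (γ := y) (δ := z) (by
          rw [zero_smul, add_zero, neg_smul, neg_eq_iff_add_eq_zero, ← add_assoc]
          exact hid) a
      simp [tw, hab, hac] at h1
      exact hy'.ne' h1.symm
    · have h1 := rep hf hcb h (neg_nonneg.2 hx'.le) (neg_nonneg.2 hz.le) hy'.le le_rfl
        (α := -x) (β := -z) (γ := y) (δ := 0) (by
          rw [zero_smul, add_zero, neg_smul, neg_smul, ← neg_add, neg_eq_iff_add_eq_zero]
          rw [← hid]
          abel) a
      simp [tw, hab, hac] at h1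
      exact hy'.ne' h1.symm
  · have hy' : y < 0 := by
      by_contra h3
      exact absurd hxy (not_lt.2 (mul_nonneg hx'.le (not_lt.1 h3)))
    rcases le_or_gt 0 z with hz | hz
    · have h1 := rep hf hcb h hx'.le hz (neg_nonneg.2 hy'.le) le_rfl
        (α := x) (β := z) (γ := -y) (δ := 0) (by
          rw [zero_smul, add_zero, neg_smul, eq_neg_iff_add_eq_zero]
          rw [← hid]
          abel) a
      simp [tw, hab, hac] at h1
      exact hy'.ne h1
    · have h1 := rep hf hcb h hx'.le le_rfl (neg_nonneg.2 hy'.le) (neg_nonneg.2 hz.le)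
        (α := x) (β := 0) (γ := -y) (δ := -z) (by
          rw [zero_smul, add_zero, neg_smul, neg_smul, ← neg_add, eq_neg_iff_add_eq_zero]
          rw [← hid]
          abel) a
      simp [tw, hab, hac] at h1
      exact hy'.ne h1

lemma zero_of_pos {x y a b : ℝ} (hx : 0 < x) (hy : 0 < y) (ha : 0 ≤ a) (hb : 0 ≤ b)
    (h : a * x + b * y = 0) : a = 0 ∧ b = 0 := by
  have h1 : 0 ≤ a * x := mul_nonneg ha hx.le
  have h2 : 0 ≤ b * y := mul_nonneg hb hy.le
  constructor
  · have h3 : a * x = 0 := by linarith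
    exact (mul_eq_zero.1 h3).resolve_right hx.ne'
  · have h3 : b * y = 0 := by linarith
    exact (mul_eq_zero.1 h3).resolve_right hy.ne'

/-- **Z01.** Quadrangle fans have no positive semidefinite stress. -/
theorem quad_noPS (p : Fin 4 → Fin 2 → ℝ) (hf : Fan cycle4 p) : NoPS cycle4 p := by
  intro A hA h0 hs
  have d01 := D_pos hf (a := 0) (b := 1) (c := 2) (by decide) (by decide) (by decide)
    (by decide) (by decide)
  have d12 := D_pos hf (a := 1) (b := 2) (c := 3) (by decide) (by decide) (by decide)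
    (by decide) (by decide)
  have d23 := D_pos hf (a := 2) (b := 3) (c := 0) (by decide) (by decide) (by decide)
    (by decide) (by decide)
  have d30 := D_pos hf (a := 3) (b := 0) (c := 1) (by decide) (by decide) (by decide)
    (by decide) (by decide)
  have s : ∀ i j, A i j = A j i := fun i j => by
    have := hA.isHermitian.apply j i
    simpa using this
  have z02 : A 0 2 = 0 := h0 0 2 (by decide)
  have z20 : A 2 0 = 0 := h0 2 0 (by decide)
  have z13 : A 1 3 = 0 := h0 1 3 (by decide)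
  have z31 : A 3 1 = 0 := h0 3 1 (by decide)
  have e : ∀ u j, A u 0 * p 0 j + A u 1 * p 1 j + A u 2 * p 2 j + A u 3 * p 3 j = 0 := by
    intro u j
    have h1 := congrFun (hs u) j
    rw [Fin.sum_univ_four] at h1
    simpa using h1
  have s10 := s 1 0
  have s21 := s 2 1
  have s32 := s 3 2
  have s30 := s 3 0
  have a0 := e 0 0
  have b0 := e 0 1
  have a1 := e 1 0
  have b1 := e 1 1
  have a2 := e 2 0
  have b2 := e 2 1
  have a3 := e 3 0
  have b3 := e 3 1
  rw [z02] at a0 b0
  rw [z20] at a2 b2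
  rw [z13] at a1 b1
  rw [z31] at a3 b3
  rw [s10] at a1 b1
  rw [s21] at a2 b2
  rw [s32, s30] at a3 b3
  -- the products `A i (i+1) * D i (i+1)` are equal
  have l1 : A 0 1 * D (p 0) (p 1) = A 0 3 * D (p 3) (p 0) := by
    unfold D
    linear_combination p 0 0 * b0 - p 0 1 * a0
  have l2 : A 0 1 * D (p 0) (p 1) = A 1 2 * D (p 1) (p 2) := by
    unfold D
    linear_combination -(p 1 0 * b1) + p 1 1 * a1
  have l3 : A 1 2 * D (p 1) (p 2) = A 2 3 * D (p 2) (p 3) := by
    unfold D
    linear_combination -(p 2 0 * b2) + p 2 1 * a2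
  have m0 : A 0 0 * D (p 0) (p 1) = -(A 0 3 * D (p 3) (p 1)) := by
    unfold D
    linear_combination a0 * p 1 1 - b0 * p 1 0
  have m2 : A 2 2 * D (p 2) (p 3) = -(A 1 2 * D (p 1) (p 3)) := by
    unfold D
    linear_combination a2 * p 3 1 - b2 * p 3 0
  have m1 : A 1 1 * D (p 1) (p 2) = -(A 0 1 * D (p 0) (p 2)) := by
    unfold D
    linear_combination a1 * p 2 1 - b1 * p 2 0
  have m3 : A 3 3 * D (p 3) (p 0) = A 2 3 * D (p 0) (p 2) := by
    unfold D
    linear_combination a3 * p 0 1 - b3 * p 0 0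
  have k1 : D (p 3) (p 1) = -D (p 1) (p 3) := by unfold D; ring
  have n0 : A 0 0 * (D (p 3) (p 0) * D (p 0) (p 1)) + A 2 2 * (D (p 1) (p 2) * D (p 2) (p 3)) = 0 := by
    linear_combination D (p 3) (p 0) * m0 + D (p 1) (p 2) * m2 - A 0 3 * D (p 3) (p 0) * k1 -
      D (p 1) (p 3) * l1 + D (p 1) (p 3) * l2
  have n1 : A 1 1 * (D (p 0) (p 1) * D (p 1) (p 2)) + A 3 3 * (D (p 2) (p 3) * D (p 3) (p 0)) = 0 := by
    linear_combination D (p 0) (p 1) * m1 + D (p 2) (p 3) * m3 - D (p 0) (p 2) * l2 -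
      D (p 0) (p 2) * l3
  obtain ⟨r0, r2⟩ := zero_of_pos d30 d12 (hA.diag_nonneg) (hA.diag_nonneg) n0
  obtain ⟨r1, r3⟩ := zero_of_pos d01 d23 (hA.diag_nonneg) (hA.diag_nonneg) n1
  refine hA.trace_eq_zero_iff.1 ?_
  rw [Matrix.trace, Fin.sum_univ_four]
  simp only [Matrix.diag_apply]
  rw [r0, r1, r2, r3]
  norm_num

end Pool.Agent.H630.BendZ
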