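import Pool.Agent.H128.Bend.Defs2

set_option autoImplicit false
set_option linter.unusedSectionVars false

/-! Bend Z02 (helper806 for helper128): separation in a common refinement. -/

namespace Pool.Agent.H806.Bend

open Pool.Agent.H128.Bend

/-- Z02. -/
theorem refine_pos {n d r : ℕ} {S : Finset (Finset (Fin n))} {p : Fin n → Fin d → ℝ}
    (hS : Down S) (hli : ∀ F ∈ S, LinearIndependent ℝ (fun v : F => p v))
    (hex : ∀ H ∈ S, ∀ x, ∃ c, IsStar S p H x c)
    (N D : Fin r → ℕ) (T : ∀ i, Finset (Finset (Fin (N i)))) (q : ∀ i, Fin (N i) → Fin (D i) → ℝ)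
    (π : ∀ i, (Fin d → ℝ) →ₗ[ℝ] (Fin (D i) → ℝ)) (hT : ∀ i, Down (T i)) (hq : ∀ i, Fan (T i) (q i))
    (hr : IsCommonRefinement S p N D T q π)
    (c : ∀ i, Fin n → Fin (N i) → ℝ) (hc0 : ∀ i v a, 0 ≤ c i v a)
    (hc1 : ∀ i v, (Finset.univ.filter fun a => c i v a ≠ 0) ∈ T i)
    (hc2 : ∀ i v, ∑ a, c i v a • q i a = π i (p v))
    (H : Finset (Fin n)) (v : Fin n) (hv : v ∉ H) (hvH : insert v H ∈ S) :
    ∃ i a, c i v a ≠ 0 ∧ ∀ w ∈ H, c i w a = 0 := by
  classical
  by_contra hcon
  push Not at hcon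
  -- a face of maximal cardinality which contains `insert v H`
  obtain ⟨K, hKm, hKmax⟩ := Finset.exists_max_image (S.filter fun K => insert v H ⊆ K)
    Finset.card ⟨insert v H, Finset.mem_filter.2 ⟨hvH, Finset.Subset.refl _⟩⟩
  obtain ⟨hK, hHK⟩ := Finset.mem_filter.1 hKm
  have hvK : v ∈ K := hHK (Finset.mem_insert_self v H)
  set F := K.erase v with hF
  have hHF : H ⊆ F := fun w hw => Finset.mem_erase.2
    ⟨fun h => hv (h ▸ hw), hHK (Finset.mem_insert_of_mem hw)⟩
  have hFS : F ∈ S := hS K hK F (Finset.erase_subset _ _)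
  have hvF : v ∉ F := Finset.notMem_erase v K
  have hnot : p v ∉ Submodule.span ℝ (p '' (F : Set (Fin n))) := by
    have h1 := (hli K hK).notMem_span_image (s := {w : K | (w : Fin n) ≠ v}) (x := ⟨v, hvK⟩)
      (fun h => h rfl)
    have h2 : (fun w : K => p w) '' {w : K | (w : Fin n) ≠ v} = p '' (F : Set (Fin n)) := by
      ext y
      constructor
      · rintro ⟨w, hw, rfl⟩
        exact ⟨w, Finset.mem_coe.2 (Finset.mem_erase.2 ⟨hw, w.2⟩), rfl⟩
      · rintro ⟨w, hw, rfl⟩
        obtain ⟨hw1, hw2⟩ := Finset.mem_erase.1 (Finset.mem_coe.1 hw)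
        exact ⟨⟨w, hw2⟩, hw1, rfl⟩
    rw [h2] at h1
    exact h1
  obtain ⟨s, hs0, hsF, hsS, hsp⟩ := hex F hFS (-p v)
  obtain ⟨b, hbv, hb⟩ : ∃ b, b ≠ v ∧ s b ≠ 0 := by
    by_contra hno
    push Not at hno
    have h1 : ∑ w, s w • p w = s v • p v := by
      refine Finset.sum_eq_single v (fun w _ hw => ?_) (fun h => absurd (Finset.mem_univ v) h)
      rw [hno w hw, zero_smul]
    rw [h1] at hsp
    have h2 : -p v - s v • p v = (-(1 + s v)) • p v := by
      module
    rw [h2] at hsp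
    have h3 : -(1 + s v) ≠ 0 := by
      have := hs0 v
      intro h
      linarith
    exact hnot ((Submodule.smul_mem_iff _ h3).1 hsp)
  have hbF : b ∉ F := fun h => hb (hsF b h)
  have hbK : b ∉ K := fun h => hbF (Finset.mem_erase.2 ⟨hbv, h⟩)
  have hbS : insert b F ∈ S := by
    refine hS _ hsS _ fun w hw => ?_
    rcases Finset.mem_insert.1 hw with rfl | hw
    · exact Finset.mem_union_left _ (Finset.mem_filter.2 ⟨Finset.mem_univ _, hb⟩)
    · exact Finset.mem_union_right _ hw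
  -- the union is a face
  have hU : K ∪ insert b F ∈ S := by
    refine hr.2 K hK (insert b F) hbS fun i => ?_
    obtain ⟨τ, hτ, hcone⟩ := hr.1 i (insert b F) hbS
    have hsupp : ∀ w ∈ insert b F, ∀ a, c i w a ≠ 0 → a ∈ τ := by
      intro w hw a ha
      obtain ⟨c', hc'0, hc'1, hc'2⟩ := hcone w hw
      by_contra haτ
      have h1 : (Finset.univ.filter fun a => c' a ≠ 0) ∈ T i := by
        refine hT i τ hτ _ fun a' ha' => ?_
        by_contra h
        exact (Finset.mem_filter.1 ha').2 (hc'1 a' h)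
      have h2 := (hq i (π i (p w))).unique ⟨hc'0, h1, hc'2⟩ ⟨hc0 i w, hc1 i w, hc2 i w⟩
      exact ha (by rw [← h2]; exact hc'1 a haτ)
    have hvτ : InCone (q i) τ (π i (p v)) := by
      refine ⟨c i v, hc0 i v, fun a ha => ?_, hc2 i v⟩
      by_contra hne
      obtain ⟨w, hw, hwa⟩ := hcon i a hne
      exact ha (hsupp w (Finset.mem_insert_of_mem (hHF hw)) a hwa)
    refine ⟨τ, hτ, fun w hw => ?_⟩
    rcases Finset.mem_union.1 hw with hw | hw
    · by_cases h : w = v
      · rw [h]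
        exact hvτ
      · exact hcone w (Finset.mem_insert_of_mem (Finset.mem_erase.2 ⟨h, hw⟩))
    · exact hcone w hw
  have h1 := hKmax (K ∪ insert b F) (Finset.mem_filter.2
    ⟨hU, hHK.trans Finset.subset_union_left⟩)
  have h2 : insert b K ⊆ K ∪ insert b F := by
    intro w hw
    rcases Finset.mem_insert.1 hw with rfl | hw
    · exact Finset.mem_union_right _ (Finset.mem_insert_self _ _)
    · exact Finset.mem_union_left _ hw
  have h3 := Finset.card_le_card h2
  rw [Finset.card_insert_of_notMem hbK] at h3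
  omega

end Pool.Agent.H806.Bend
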