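import Pool.Agent.H128.Bend.Defs2

set_option autoImplicit false
set_option linter.unusedSectionVars false

/-! Common refinements of complete simplicial fans: bendings of a common refinement. -/

namespace Pool.Agent.H390.Bend

open Pool.Agent.H128.Bend Matrix

theorem supp_sub {W : Type} [Fintype W] [DecidableEq W] {e : ℕ} {T : Finset (Finset W)}
    {q : W → Fin e → ℝ} (hT : Down T) (hq : Fan T q) {x : Fin e → ℝ} {c : W → ℝ}
    (hc0 : ∀ a, 0 ≤ c a) (hc1 : (Finset.univ.filter fun a => c a ≠ 0) ∈ T)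
    (hc2 : ∑ a, c a • q a = x) {τ : Finset W} (hτ : τ ∈ T) (hx : InCone q τ x) (a : W)
    (ha : c a ≠ 0) : a ∈ τ := by
  obtain ⟨c', h0, h1, h2⟩ := hx
  have hc' : (Finset.univ.filter fun a => c' a ≠ 0) ∈ T := by
    refine hT τ hτ _ ?_
    intro b hb
    by_contra hbt
    exact (Finset.mem_filter.1 hb).2 (h1 b hbt)
  have heq : c = c' := (hq x).unique ⟨hc0, hc1, hc2⟩ ⟨h0, hc', h2⟩
  by_contra hat
  exact ha (by rw [heq]; exact h1 a hat)

/-- a vector orthogonal to the kernel of a symmetric matrix is in the range -/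
theorem mem_range_of_symm {n : ℕ} (A : Matrix (Fin n) (Fin n) ℝ) (hA : Aᵀ = A) (s : Fin n → ℝ)
    (h : ∀ z : Fin n → ℝ, A *ᵥ z = 0 → z ⬝ᵥ s = 0) : ∃ y, A *ᵥ y = s := by
  by_contra hcon
  push Not at hcon
  have hs : s ∉ LinearMap.range A.mulVecLin := by
    rintro ⟨y, hy⟩
    exact hcon y hy
  obtain ⟨f, hf, hle⟩ := Submodule.exists_le_ker_of_notMem hs
  have hfz : ∀ x : Fin n → ℝ, f x = (fun j => f (Pi.single j 1)) ⬝ᵥ x := by
    intro x
    conv_lhs => rw [pi_eq_sum_univ' x]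
    rw [map_sum]
    unfold dotProduct
    refine Finset.sum_congr rfl fun j _ => ?_
    rw [map_smul, smul_eq_mul, mul_comm]
  have hz : A *ᵥ (fun j => f (Pi.single j 1)) = 0 := by
    ext j
    have h1 : f (A *ᵥ (Pi.single j 1)) = 0 := hle ⟨Pi.single j 1, rfl⟩
    rw [hfz, Matrix.dotProduct_mulVec, dotProduct_single, mul_one, ← Matrix.mulVec_transpose,
      hA] at h1
    exact h1
  exact hf (by rw [hfz]; exact h _ hz)

theorem refine_bends {n d r : ℕ} {S : Finset (Finset (Fin n))} {p : Fin n → Fin d → ℝ}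
    (N D : Fin r → ℕ) (T : ∀ i, Finset (Finset (Fin (N i)))) (q : ∀ i, Fin (N i) → Fin (D i) → ℝ)
    (π : ∀ i, (Fin d → ℝ) →ₗ[ℝ] (Fin (D i) → ℝ)) (hT : ∀ i, Down (T i)) (hq : ∀ i, Fan (T i) (q i))
    (hb : ∀ i, ∀ K ∈ T i, Bends (T i) (q i) K)
    (hr : IsCommonRefinement S p N D T q π)
    (c : ∀ i, Fin n → Fin (N i) → ℝ) (hc0 : ∀ i v a, 0 ≤ c i v a)
    (hc1 : ∀ i v, (Finset.univ.filter fun a => c i v a ≠ 0) ∈ T i)
    (hc2 : ∀ i v, ∑ a, c i v a • q i a = π i (p v))
    (H : Finset (Fin n)) (hH : H ∈ S)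
    (hpos : ∀ v, v ∉ H → insert v H ∈ S → ∃ i a, c i v a ≠ 0 ∧ ∀ w ∈ H, c i w a = 0) :
    Bends S p H := by
  classical
  -- common cones
  have hcone : ∀ i, ∀ σ ∈ S, ∃ τ ∈ T i, ∀ v ∈ σ, ∀ a, c i v a ≠ 0 → a ∈ τ := by
    intro i σ hσ
    obtain ⟨τ, hτ, h⟩ := hr.1 i σ hσ
    exact ⟨τ, hτ, fun v hv a ha =>
      supp_sub (hT i) (hq i) (hc0 i v) (hc1 i v) (hc2 i v) hτ (h v hv) a ha⟩
  let K : ∀ i, Finset (Fin (N i)) := fun i => Finset.univ.filter fun a => ∃ w ∈ H, c i w a ≠ 0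
  have hKm : ∀ i a, a ∈ K i ↔ ∃ w ∈ H, c i w a ≠ 0 := fun i a => by
    simp only [K, Finset.mem_filter, Finset.mem_univ, true_and]
  have hK : ∀ i, K i ∈ T i := by
    intro i
    obtain ⟨τ, hτ, h⟩ := hcone i H hH
    refine hT i τ hτ _ fun a ha => ?_
    obtain ⟨w, hw, hwa⟩ := (hKm i a).1 ha
    exact h w hw a hwa
  have hb' : ∀ i, ∃ (G : Matrix (Fin (N i)) (Fin (N i)) ℝ) (lam : Fin (N i) → Fin (D i) → ℝ)
      (y : Fin (N i) → ℝ), G.PosSemidef ∧
      (∀ u v, ({u, v} : Finset (Fin (N i))) ∈ T i →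
        2 * G u v = ∑ j, (q i u j * lam v j + q i v j * lam u j)) ∧
      (∀ v ∈ K i, G.mulVec y v = 0) ∧ ∀ v, v ∉ K i → insert v (K i) ∈ T i → 0 < G.mulVec y v := by
    intro i
    obtain ⟨G, hG, ⟨lam, hlam⟩, y, hy0, hy1⟩ := hb i (K i) (hK i)
    exact ⟨G, lam, y, hG, hlam, hy0, hy1⟩
  choose G lam y hG hlam hy0 hy1 using hb'
  let C : ∀ i, Matrix (Fin n) (Fin (N i)) ℝ := fun i => Matrix.of (c i)
  let A : Matrix (Fin n) (Fin n) ℝ := ∑ i, C i * G i * (C i)ᵀ
  have hpsdi : ∀ i, (C i * G i * (C i)ᵀ).PosSemidef := by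
    intro i
    have h1 := (hG i).mul_mul_conjTranspose_same (C i)
    rwa [Matrix.conjTranspose_eq_transpose_of_trivial] at h1
  have hA : A.PosSemidef := Matrix.posSemidef_sum _ fun i _ => hpsdi i
  have hAent : ∀ u v, A u v = ∑ i, ∑ b, (∑ a, c i u a * G i a b) * c i v b := by
    intro u v
    change (∑ i, C i * G i * (C i)ᵀ) u v = _
    rw [Matrix.sum_apply]
    refine Finset.sum_congr rfl fun i _ => ?_
    rw [Matrix.mul_apply]
    refine Finset.sum_congr rfl fun b _ => ?_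
    rw [Matrix.mul_apply]
    rfl
  -- the vector s
  let s : Fin n → ℝ := fun v => ∑ i, ∑ a, c i v a * (G i).mulVec (y i) a
  have hs0 : ∀ v ∈ H, s v = 0 := by
    intro v hv
    refine Finset.sum_eq_zero fun i _ => Finset.sum_eq_zero fun a _ => ?_
    by_cases ha : c i v a = 0
    · rw [ha, zero_mul]
    · rw [hy0 i a ((hKm i a).2 ⟨v, hv, ha⟩), mul_zero]
  have hs1 : ∀ v, v ∉ H → insert v H ∈ S → 0 < s v := by
    intro v hv hvH
    have hterm : ∀ i a, c i v a ≠ 0 → a ∉ K i → 0 < (G i).mulVec (y i) a := by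
      intro i a ha haK
      obtain ⟨τ, hτ, h⟩ := hcone i _ hvH
      refine hy1 i a haK (hT i τ hτ _ ?_)
      intro b hbm
      rcases Finset.mem_insert.1 hbm with hb1 | hb1
      · rw [hb1]
        exact h v (Finset.mem_insert_self _ _) a ha
      · obtain ⟨w, hw, hwb⟩ := (hKm i b).1 hb1
        exact h w (Finset.mem_insert_of_mem hw) b hwb
    have hnn : ∀ i a, 0 ≤ c i v a * (G i).mulVec (y i) a := by
      intro i a
      by_cases ha : c i v a = 0
      · rw [ha, zero_mul]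
      · by_cases haK : a ∈ K i
        · rw [hy0 i a haK, mul_zero]
        · exact mul_nonneg (hc0 i v a) (hterm i a ha haK).le
    obtain ⟨i, a, ha, haH⟩ := hpos v hv hvH
    have haK : a ∉ K i := by
      intro h
      obtain ⟨w, hw, hwa⟩ := (hKm i a).1 h
      exact hwa (haH w hw)
    refine Finset.sum_pos' (fun j _ => Finset.sum_nonneg fun b _ => hnn j b)
      ⟨i, Finset.mem_univ _, Finset.sum_pos' (fun b _ => hnn i b) ⟨a, Finset.mem_univ _, ?_⟩⟩
    exact mul_pos (lt_of_le_of_ne (hc0 i v a) (Ne.symm ha)) (hterm i a ha haK)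
  -- s is in the range
  have hsC : s = ∑ i, C i *ᵥ (G i *ᵥ y i) := by
    ext v
    rw [Finset.sum_apply]
    rfl
  have hker : ∀ z : Fin n → ℝ, A *ᵥ z = 0 → z ⬝ᵥ s = 0 := by
    intro z hz
    have h1 : ∑ i, z ⬝ᵥ ((C i * G i * (C i)ᵀ) *ᵥ z) = 0 := by
      have h2 : z ⬝ᵥ (A *ᵥ z) = 0 := by rw [hz, dotProduct_zero]
      change z ⬝ᵥ ((∑ i, C i * G i * (C i)ᵀ) *ᵥ z) = 0 at h2
      rw [Matrix.sum_mulVec, dotProduct_sum] at h2
      exact h2
    have h3 : ∀ i, z ⬝ᵥ ((C i * G i * (C i)ᵀ) *ᵥ z) = 0 := by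
      intro i
      refine (Finset.sum_eq_zero_iff_of_nonneg (fun i _ => ?_)).1 h1 i (Finset.mem_univ _)
      have := (hpsdi i).dotProduct_mulVec_nonneg z
      rwa [star_trivial] at this
    have h4 : ∀ i, G i *ᵥ ((C i)ᵀ *ᵥ z) = 0 := by
      intro i
      rw [← (hG i).dotProduct_mulVec_zero_iff, star_trivial]
      have h5 := h3 i
      rw [← Matrix.mulVec_mulVec, ← Matrix.mulVec_mulVec, Matrix.dotProduct_mulVec,
        ← Matrix.mulVec_transpose] at h5
      exact h5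
    rw [hsC, dotProduct_sum]
    refine Finset.sum_eq_zero fun i _ => ?_
    have hsym : (G i)ᵀ = G i := by
      have := (hG i).isHermitian.eq
      rwa [Matrix.conjTranspose_eq_transpose_of_trivial] at this
    rw [Matrix.dotProduct_mulVec, ← Matrix.mulVec_transpose, Matrix.dotProduct_mulVec,
      ← Matrix.mulVec_transpose, hsym, h4 i, zero_dotProduct]
  have hAsym : Aᵀ = A := by
    have := hA.isHermitian.eq
    rwa [Matrix.conjTranspose_eq_transpose_of_trivial] at this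
  obtain ⟨w, hw⟩ := mem_range_of_symm A hAsym s hker
  refine ⟨A, hA, ?_, w, fun v hv => by rw [hw]; exact hs0 v hv,
    fun v hv hvH => by rw [hw]; exact hs1 v hv hvH⟩
  -- the relation
  refine ⟨fun v j => ∑ i, ∑ k, (π i (Pi.single j 1)) k * ∑ b, c i v b * lam i b k, ?_⟩
  have hadj : ∀ (x : Fin d → ℝ) (v : Fin n),
      ∑ j, x j * (∑ i, ∑ k, (π i (Pi.single j 1)) k * ∑ b, c i v b * lam i b k) =
        ∑ i, ∑ k, (π i x) k * ∑ b, c i v b * lam i b k := by
    intro x v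
    have hx : ∀ i k, (π i x) k = ∑ j, x j * (π i (Pi.single j 1)) k := by
      intro i k
      conv_lhs => rw [pi_eq_sum_univ' x]
      rw [map_sum, Finset.sum_apply]
      refine Finset.sum_congr rfl fun j _ => ?_
      rw [map_smul, Pi.smul_apply, smul_eq_mul]
    simp only [hx, Finset.mul_sum, Finset.sum_mul]
    rw [Finset.sum_comm]
    refine Finset.sum_congr rfl fun i _ => ?_
    rw [Finset.sum_comm]
    refine Finset.sum_congr rfl fun k _ => ?_
    rw [Finset.sum_comm]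
    refine Finset.sum_congr rfl fun b _ => ?_
    refine Finset.sum_congr rfl fun j _ => ?_
    ring
  have hexp : ∀ u v : Fin n, ∑ i, ∑ k, (π i (p u)) k * ∑ b, c i v b * lam i b k =
      ∑ i, ∑ a, ∑ b, c i u a * c i v b * ∑ k, q i a k * lam i b k := by
    intro u v
    refine Finset.sum_congr rfl fun i _ => ?_
    have hx : ∀ k, (π i (p u)) k = ∑ a, c i u a * q i a k := by
      intro k
      rw [← hc2 i u, Finset.sum_apply]
      rfl
    calc ∑ k, (π i (p u)) k * ∑ b, c i v b * lam i b k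
        = ∑ k, ∑ a, ∑ b, c i u a * c i v b * (q i a k * lam i b k) := by
          refine Finset.sum_congr rfl fun k _ => ?_
          rw [hx k, Finset.sum_mul_sum]
          refine Finset.sum_congr rfl fun a _ => Finset.sum_congr rfl fun b _ => ?_
          ring
      _ = ∑ a, ∑ k, ∑ b, c i u a * c i v b * (q i a k * lam i b k) := Finset.sum_comm
      _ = ∑ a, ∑ b, ∑ k, c i u a * c i v b * (q i a k * lam i b k) :=
          Finset.sum_congr rfl fun a _ => Finset.sum_comm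
      _ = ∑ a, ∑ b, c i u a * c i v b * ∑ k, q i a k * lam i b k := by
          refine Finset.sum_congr rfl fun a _ => Finset.sum_congr rfl fun b _ => ?_
          rw [Finset.mul_sum]
  intro u v huv
  rw [Finset.sum_add_distrib, hadj, hadj, hexp, hexp, hAent, ← Finset.sum_add_distrib,
    Finset.mul_sum]
  refine Finset.sum_congr rfl fun i _ => ?_
  have hsw : ∑ a, ∑ b, c i v a * c i u b * ∑ k, q i a k * lam i b k =
      ∑ a, ∑ b, c i u a * c i v b * ∑ k, q i b k * lam i a k := by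
    rw [Finset.sum_comm]
    refine Finset.sum_congr rfl fun a _ => Finset.sum_congr rfl fun b _ => ?_
    rw [mul_comm (c i v b)]
  have hl : ∑ b, (∑ a, c i u a * G i a b) * c i v b = ∑ a, ∑ b, c i u a * G i a b * c i v b := by
    rw [Finset.sum_comm]
    refine Finset.sum_congr rfl fun b _ => ?_
    rw [Finset.sum_mul]
  rw [hsw, hl, ← Finset.sum_add_distrib, Finset.mul_sum]
  refine Finset.sum_congr rfl fun a _ => ?_
  rw [← Finset.sum_add_distrib, Finset.mul_sum]
  refine Finset.sum_congr rfl fun b _ => ?_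
  rw [← mul_add, ← Finset.sum_add_distrib]
  by_cases ha : c i u a = 0
  · rw [ha]
    ring
  by_cases hbv : c i v b = 0
  · rw [hbv]
    ring
  obtain ⟨τ, hτ, h⟩ := hcone i _ huv
  have hab : ({a, b} : Finset (Fin (N i))) ∈ T i := by
    refine hT i τ hτ _ ?_
    intro x hx
    rcases Finset.mem_insert.1 hx with hx1 | hx1
    · rw [hx1]
      exact h u (Finset.mem_insert_self _ _) a ha
    · rw [Finset.mem_singleton.1 hx1]
      exact h v (Finset.mem_insert_of_mem (Finset.mem_singleton_self _)) b hbv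
  have h6 := hlam i a b hab
  rw [← h6]
  ring

end Pool.Agent.H390.Bend
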