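import Pool.Agent.H128.Bend.Defs2
import Pool.Agent.H128.Bend.Z01
import Pool.Agent.H128.Bend.Z02
import Pool.Agent.H128.Bend.Z03

set_option autoImplicit false
set_option linter.unusedSectionVars false

/-! The lemmas proved in the modules `Z01`–`Z03`, collected. -/

namespace Pool.Agent.H128.Bend.Lem2

open Pool.Agent.H128.Bend

/-- Z01. -/
theorem quad_noPS (p : Fin 4 → Fin 2 → ℝ) (hf : Fan cycle4 p) : NoPS cycle4 p :=
  Pool.Agent.H630.BendZ.quad_noPS p hf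

/-- Z02. -/
theorem refine_pos {n d r : ℕ} {S : Finset (Finset (Fin n))} {p : Fin n → Fin d → ℝ}
    (hS : Down S) (hli : ∀ F ∈ S, LinearIndependent ℝ (fun v : F => p v))
    (hex : ∀ H ∈ S, ∀ x, ∃ c, IsStar S p H x c)
    (N D : Fin r → ℕ) (T : ∀ i, Finset (Finset (Fin (N i)))) (q : ∀ i, Fin (N i) → Fin (D i) → ℝ)
    (π : ∀ i, (Fin d → ℝ) →ₗ[ℝ] (Fin (D i) → ℝ)) (hT : ∀ i, Down (T i)) (hq : ∀ i, Fan (T i) (q i))
    (hr : IsCommonRefinement S p N D T q π)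
    (c : ∀ i, Fin n → Fin (N i) → ℝ) (hc0 : ∀ i v a, 0 ≤ c i v a)
    (hc1 : ∀ i v, (Finset.univ.filter fun a => c i v a ≠ 0) ∈ T i)
    (hc2 : ∀ i v, ∑ a, c i v a • q i a = π i (p v))
    (H : Finset (Fin n)) (v : Fin n) (hv : v ∉ H) (hvH : insert v H ∈ S) :
    ∃ i a, c i v a ≠ 0 ∧ ∀ w ∈ H, c i w a = 0 :=
  Pool.Agent.H806.Bend.refine_pos hS hli hex N D T q π hT hq hr c hc0 hc1 hc2 H v hv hvH

/-- Z03. -/
theorem refine_bends {n d r : ℕ} {S : Finset (Finset (Fin n))} {p : Fin n → Fin d → ℝ}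
    (N D : Fin r → ℕ) (T : ∀ i, Finset (Finset (Fin (N i)))) (q : ∀ i, Fin (N i) → Fin (D i) → ℝ)
    (π : ∀ i, (Fin d → ℝ) →ₗ[ℝ] (Fin (D i) → ℝ)) (hT : ∀ i, Down (T i)) (hq : ∀ i, Fan (T i) (q i))
    (hb : ∀ i, ∀ K ∈ T i, Bends (T i) (q i) K)
    (hr : IsCommonRefinement S p N D T q π)
    (c : ∀ i, Fin n → Fin (N i) → ℝ) (hc0 : ∀ i v a, 0 ≤ c i v a)
    (hc1 : ∀ i v, (Finset.univ.filter fun a => c i v a ≠ 0) ∈ T i)
    (hc2 : ∀ i v, ∑ a, c i v a • q i a = π i (p v))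
    (H : Finset (Fin n)) (hH : H ∈ S)
    (hpos : ∀ v, v ∉ H → insert v H ∈ S → ∃ i a, c i v a ≠ 0 ∧ ∀ w ∈ H, c i w a = 0) :
    Bends S p H :=
  Pool.Agent.H390.Bend.refine_bends N D T q π hT hq hb hr c hc0 hc1 hc2 H hH hpos

end Pool.Agent.H128.Bend.Lem2
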