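import Pool.Agent.H128.Bend.Zig

set_option autoImplicit false
set_option linter.unusedSectionVars false

/-! Complete simplicial fans: the main induction with bendings. -/

namespace Pool.Agent.H128.Fan

open Pool.Agent.Helper611 Pool.Agent.Helper611.ZBase Pool.Agent.Helper611.KRel
  Pool.Agent.Helper611.KVal Pool.Agent.Helper611.UStr
  Pool.Agent.H252R2.Lef1 Pool.Agent.H252R2.Lef7
  Pool.Agent.H252R2.CDNum Pool.Agent.H252R2.Top2 Pool.Agent.H128.SRing
open MvPolynomial Module Lem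

variable {V : Type} [Fintype V] [LinearOrder V] {d : ℕ} {Γ : Cx V} {p : V → (Fin d → ℝ)}
  {φ : Finset V → V → Module.Dual ℝ (Fin d → ℝ)} {ξ : Fin d → ℝ} {τ : Finset V → ℝ}
variable {κ : Type} [Fintype κ] [DecidableEq κ]

lemma mulVec_homB {M : Matrix κ κ (MvPolynomial V ℝ)} (hM : ClB Γ p M) {k : ℕ}
    {f : κ → MvPolynomial V ℝ} (hf : HomV k f) : HomV (k + 1) (M.mulVec f) := by
  intro i
  show (∑ j, M i j * f j).IsHomogeneous (k + 1)
  refine IsHomogeneous.sum _ _ _ fun j _ => ?_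
  have := (hM.hom i j).mul (hf j)
  rwa [add_comm] at this

lemma mulVec_homPB {M : Matrix κ κ (MvPolynomial V ℝ)} (hM : ClB Γ p M) {k : ℕ}
    {g : κ → MvPolynomial V ℝ} (hg : ∀ i, HomP k (g i)) : HomV k (M.mulVec g) := by
  cases k with
  | zero =>
    have h1 : g = 0 := funext fun i => hg i
    intro i
    rw [h1, Matrix.mulVec_zero]
    exact isHomogeneous_zero _ _ _
  | succ k => exact mulVec_homB hM fun i => hg i


/-- the homotopy formula -/
lemma X_dotB {M : Matrix κ κ (MvPolynomial V ℝ)} (hM : ClB Γ p M) (s : V → ℝ) (u : Matrix κ κ ℝ)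
    (hu : u.transpose = u)
    (h1 : M * u.map C + u.map C * M = (2 * ∑ v, C (s v) * X v : MvPolynomial V ℝ) •
      (1 : Matrix κ κ (MvPolynomial V ℝ))) (f : κ → MvPolynomial V ℝ) :
    (∑ v, C (s v) * X v) * ∑ i, f i ^ 2 = ∑ i, M.mulVec f i * (u.map C).mulVec f i := by
  have hu' : (u.map (C : ℝ → MvPolynomial V ℝ)).transpose = u.map C := by
    rw [← Matrix.transpose_map, hu]
  have h2 : ∑ i, f i * (M * u.map C + u.map C * M).mulVec f i =
      2 * ((∑ v, C (s v) * X v) * ∑ i, f i ^ 2) := by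
    rw [h1]
    have : ∀ i, ((2 * ∑ v, C (s v) * X v : MvPolynomial V ℝ) •
        (1 : Matrix κ κ (MvPolynomial V ℝ))).mulVec f i = 2 * (∑ v, C (s v) * X v) * f i := by
      intro i
      rw [Matrix.smul_mulVec, Matrix.one_mulVec]
      rfl
    simp only [this]
    generalize (∑ v, C (s v) * X v : MvPolynomial V ℝ) = L
    rw [Finset.mul_sum, Finset.mul_sum]
    exact Finset.sum_congr rfl fun i _ => by ring
  have h3 : ∀ i, (M * u.map C + u.map C * M).mulVec f i =
      M.mulVec ((u.map C).mulVec f) i + (u.map C).mulVec (M.mulVec f) i := by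
    intro i
    rw [Matrix.add_mulVec, Pi.add_apply, Matrix.mulVec_mulVec, Matrix.mulVec_mulVec]
  simp only [h3, mul_add, Finset.sum_add_distrib] at h2
  rw [dot_symm' hM.symm f ((u.map C).mulVec f), dot_symm' hu' f (M.mulVec f)] at h2
  have h4 : ∑ i, (u.map C).mulVec f i * M.mulVec f i = ∑ i, M.mulVec f i * (u.map C).mulVec f i :=
    Finset.sum_congr rfl fun i _ => mul_comm _ _
  rw [h4, ← two_mul] at h2
  exact (mul_left_cancel₀ two_ne_zero h2).symm

lemma TH_C_mul (H : Finset V) (a : ℝ) (f : MvPolynomial V ℝ) :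
    TH Γ φ ξ τ H (C a * f) = a * TH Γ φ ξ τ H f := by
  unfold TH
  rw [Finset.mul_sum]
  refine Finset.sum_congr rfl fun G _ => ?_
  rw [map_mul]
  have : evg φ ξ G (C a) = a := by
    unfold evg
    exact eval_C a
  rw [this]
  ring

namespace FanData
variable (h : FanData Γ p φ ξ τ)
include h

theorem fdB {M : Matrix κ κ (MvPolynomial V ℝ)} (hM : ClB Γ p M) {H : Finset V} (hH : H ∈ Γ.faces) :
    FD (om Γ φ ξ τ H) (d - H.card) (DV (stc Γ H) φ ξ M) (NV κ (stc Γ H) φ ξ) where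
  hω := h.om_ne hH
  zero := by
    rw [eq_bot_iff]
    intro F hF
    rw [Submodule.mem_bot]
    funext G i
    have h1 := hF i
    rw [MM_zero, Submodule.mem_bot] at h1
    exact congrFun h1 G
  mono k F hF i := MM_step (stc_coord h.coord H) h.xi_ne k (hF i)
  adj F F' := by
    unfold qf
    refine Finset.sum_congr rfl fun G _ => ?_
    congr 1
    show ∑ i, (∑ j, ev (stc Γ H) φ ξ (M i j) G * F G j) * F' G i =
      ∑ i, F G i * ∑ j, ev (stc Γ H) φ ξ (M i j) G * F' G j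
    simp only [Finset.sum_mul, Finset.mul_sum]
    rw [Finset.sum_comm]
    refine Finset.sum_congr rfl fun i _ => Finset.sum_congr rfl fun j _ => ?_
    have : M i j = M j i := by
      have := congrFun (congrFun hM.symm j) i
      exact this
    rw [this]
    ring
  step k F hF i := by
    have h1 : (fun G => DV (stc Γ H) φ ξ M F G i) =
        ∑ j, ev (stc Γ H) φ ξ (M i j) * (fun G => F G j) := by
      funext G
      rw [Finset.sum_apply]
      rfl
    rw [h1]
    refine Submodule.sum_mem _ fun j _ => ?_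
    have h2 := MM_mul 1 k _ _ (ev_hom (e := ξ) (Γ := stc Γ H) (φ := φ) 1 _ (hM.hom i j)) (hF j)
    rwa [add_comm] at h2
  sq k F hF i := by
    obtain ⟨q, hq, hq2, hq3⟩ := hM.sq
    have h0 : ev (stc Γ H) φ ξ q ∈ NN (stc Γ H) φ ξ 1 := by
      have h2 := ev_J (e := ξ) (stc_coord h.coord H) _ (JJ_stc H hq) 2
      rwa [homogeneousComponent_eq_self hq2, MM_succ] at h2
    have h1 : (fun G => DV (stc Γ H) φ ξ M (DV (stc Γ H) φ ξ M F) G i) =
        ev (stc Γ H) φ ξ q * (fun G => F G i) := by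
      funext G
      show ∑ j, ev (stc Γ H) φ ξ (M i j) G * (∑ l, ev (stc Γ H) φ ξ (M j l) G * F G l) =
        ev (stc Γ H) φ ξ q G * F G i
      have h3 : ∀ l, ∑ j, ev (stc Γ H) φ ξ (M i j) G * ev (stc Γ H) φ ξ (M j l) G =
          if i = l then ev (stc Γ H) φ ξ q G else 0 := by
        intro l
        have h4 := congrFun (congrFun hq3 i) l
        rw [Matrix.mul_apply, Matrix.smul_apply, Matrix.one_apply] at h4
        have h5 := congrArg (fun f => ev (stc Γ H) φ ξ f G) h4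
        simp only [map_sum, map_mul, Finset.sum_apply, Pi.mul_apply] at h5
        rw [h5]
        split_ifs
        · rw [smul_eq_mul, mul_one]
        · rw [smul_zero, map_zero]; rfl
      simp only [Finset.mul_sum, ← mul_assoc]
      rw [Finset.sum_comm]
      simp only [← Finset.sum_mul, h3]
      simp
    rw [h1]
    have h2 := MM_mul 1 k _ _ h0 (hF i)
    rwa [add_comm] at h2
  perp a b hab F := by
    constructor
    · intro h1 i
      refine perp_of_dim (om Γ φ ξ τ H) (h.om_ne hH) _ (MM (stc Γ H) φ ξ a)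
        (fun u hu w hw => h.ortho hH b a (by omega) u w hu hw)
        (h.MM_dims hH b a (by omega)) _ fun w hw => ?_
      have h2 := h1 (fun G j => if j = i then w G else 0) (by
        intro j
        by_cases hj : j = i
        · simpa only [if_pos hj] using hw
        · simp only [if_neg hj]
          exact Submodule.zero_mem _)
      unfold qf at h2
      rw [← h2]
      refine Finset.sum_congr rfl fun G _ => ?_
      simp
    · intro h1 F' h2
      unfold qf
      simp only [Finset.mul_sum]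
      rw [Finset.sum_comm]
      exact Finset.sum_eq_zero fun i _ => h.ortho hH b a (by omega) _ _ (h1 i) (h2 i)


lemma bdry_ofB {M : Matrix κ κ (MvPolynomial V ℝ)} (hM : ClB Γ p M) {H : Finset V} (hH : H ∈ Γ.faces)
    {k : ℕ} {f : κ → MvPolynomial V ℝ} (hf : HomV k f)
    (h1 : evV (stc Γ H) φ ξ f ∈ NV κ (stc Γ H) φ ξ k ⊔
      (NV κ (stc Γ H) φ ξ k).map (DV (stc Γ H) φ ξ M)) : Bdry Γ p M H k f := by
  obtain ⟨F1, hF1, _, ⟨F2, hF2, rfl⟩, h2⟩ := Submodule.mem_sup.1 h1
  obtain ⟨g, hg, rfl⟩ := evV_surjP hF2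
  refine ⟨g, hg, fun i => ?_⟩
  refine h.JJ_evV hH (f := fun i => f i - M.mulVec g i) (fun i => (hf i).sub (mulVec_homPB hM hg i)) ?_ i
  have h3 : evV (stc Γ H) φ ξ (fun i => f i - M.mulVec g i) = F1 := by
    have h4 : evV (stc Γ H) φ ξ (fun i => f i - M.mulVec g i) =
        evV (stc Γ H) φ ξ f - evV (stc Γ H) φ ξ (M.mulVec g) := by
      funext G i
      show ev (stc Γ H) φ ξ (f i - M.mulVec g i) G = _
      rw [map_sub]
      rfl
    rw [h4, evV_mul, ← h2]
    exact add_sub_cancel_right _ _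
  rw [h3]
  exact hF1

lemma of_bdryB {M : Matrix κ κ (MvPolynomial V ℝ)} (hM : ClB Γ p M) {H : Finset V}
    {k : ℕ} {f : κ → MvPolynomial V ℝ} (hf : HomV k f) (h1 : Bdry Γ p M H k f) :
    evV (stc Γ H) φ ξ f ∈ NV κ (stc Γ H) φ ξ k ⊔
      (NV κ (stc Γ H) φ ξ k).map (DV (stc Γ H) φ ξ M) := by
  obtain ⟨g, hg, h2⟩ := h1
  have h4 : evV (stc Γ H) φ ξ f = evV (stc Γ H) φ ξ (fun i => f i - M.mulVec g i) +
      DV (stc Γ H) φ ξ M (evV (stc Γ H) φ ξ g) := by
    rw [← evV_mul]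
    funext G i
    show _ = ev (stc Γ H) φ ξ (f i - M.mulVec g i) G + ev (stc Γ H) φ ξ (M.mulVec g i) G
    rw [map_sub, Pi.sub_apply, sub_add_cancel]
    rfl
  rw [h4]
  refine Submodule.add_mem_sup ?_ ⟨_, evV_memP hg, rfl⟩
  exact h.evV_JJ (f := fun i => f i - M.mulVec g i) (fun i => (hf i).sub (mulVec_homPB hM hg i)) h2

lemma cyc_ofB {M : Matrix κ κ (MvPolynomial V ℝ)} (hM : ClB Γ p M) {H : Finset V} (hH : H ∈ Γ.faces)
    {k : ℕ} {f : κ → MvPolynomial V ℝ} (hf : HomV k f)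
    (h1 : DV (stc Γ H) φ ξ M (evV (stc Γ H) φ ξ f) ∈ NV κ (stc Γ H) φ ξ (k + 1)) :
    Cyc Γ p M H f := by
  rw [← evV_mul] at h1
  exact fun i => h.JJ_evV hH (mulVec_homB hM hf) h1 i

lemma of_cycB {M : Matrix κ κ (MvPolynomial V ℝ)} (hM : ClB Γ p M) {H : Finset V}
    {k : ℕ} {f : κ → MvPolynomial V ℝ} (hf : HomV k f) (h1 : Cyc Γ p M H f) :
    DV (stc Γ H) φ ξ M (evV (stc Γ H) φ ξ f) ∈ NV κ (stc Γ H) φ ξ (k + 1) := by
  rw [← evV_mul]
  exact h.evV_JJ (mulVec_homB hM hf) h1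


/-- the special middle case -/
lemma odd_stepB {M : Matrix κ κ (MvPolynomial V ℝ)} (hM : ClB Γ p M) (hA : AntiB Γ p M)
    {H : Finset V} (hH : H ∈ Γ.faces)
    (k : ℕ) (hk : d = 2 * k + 1 + H.card)
    (hdef : ∀ v, v ∉ H → insert v H ∈ Γ.faces → DefH Γ p φ ξ τ M (insert v H))
    (f : κ → MvPolynomial V ℝ) (hf : HomV (k + 1) f)
    (F : V → κ → MvPolynomial V ℝ) (hF1 : ∀ v, HomV k (F v))
    (hF2 : ∀ v, v ∉ H → insert v H ∈ Γ.faces → Cyc Γ p M (insert v H) (F v))
    (hF3 : ∀ i, f i - ∑ v ∈ Hᶜ, X v * F v i ∈ JJ (stc Γ H) p) : Bdry Γ p M H (k + 1) f := by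
  refine h.bdry_ofB hM hH hf ?_
  have hcard : ∀ v, v ∉ H → (insert v H).card = H.card + 1 := fun v hv =>
    Finset.card_insert_of_notMem hv
  refine perp_bdry (h.fdB hM hH) k (k + 1) (by omega) _ fun F' hF' hDF' => ?_
  obtain ⟨f', hf', rfl⟩ := evV_surj hF'
  have hc' : Cyc Γ p M H f' := h.cyc_ofB hM hH hf' hDF'
  have key : ∀ v, v ∉ H → insert v H ∈ Γ.faces →
      TH Γ φ ξ τ (insert v H) (∑ i, f' i ^ 2) = 0 := by
    obtain ⟨s, u, hs0, hs1, hu, hMu⟩ := hA H hH ⟨k, by omega⟩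
    have hg0 : (∑ i, f' i ^ 2 : MvPolynomial V ℝ).IsHomogeneous (2 * k) :=
      IsHomogeneous.sum _ _ _ fun i _ => by
        have := (hf' i).pow 2
        rwa [mul_comm] at this
    have hT : TH Γ φ ξ τ H ((∑ v, MvPolynomial.C (s v) * X v) * ∑ i, f' i ^ 2) = 0 := by
      rw [X_dotB hM s u hu hMu f']
      refine h.TH_JJ hH (k := 2 * k + 1) (by omega) ?_ ?_
      · refine IsHomogeneous.sum _ _ _ fun i _ => ?_
        have h4 : ((u.map MvPolynomial.C).mulVec f' i : MvPolynomial V ℝ).IsHomogeneous k := by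
          show (∑ j, (u.map MvPolynomial.C) i j * f' j : MvPolynomial V ℝ).IsHomogeneous k
          refine IsHomogeneous.sum _ _ _ fun j _ => ?_
          have := (isHomogeneous_C V (u i j)).mul (hf' j)
          rwa [zero_add] at this
        have := (mulVec_homB hM hf' i).mul h4
        rwa [show k + 1 + k = 2 * k + 1 by ring] at this
      · exact Ideal.sum_mem _ fun i _ => Ideal.mul_mem_right _ _ (hc' i)
    have hT2 : ∑ v, s v * TH Γ φ ξ τ H (X v * ∑ i, f' i ^ 2) = 0 := by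
      rw [← hT, Finset.sum_mul, TH_sum']
      refine Finset.sum_congr rfl fun v _ => ?_
      rw [mul_assoc, TH_C_mul]
    have hnn : ∀ v ∈ (Finset.univ : Finset V),
        0 ≤ (-1 : ℝ) ^ k * (s v * TH Γ φ ξ τ H (X v * ∑ i, f' i ^ 2)) := by
      intro v _
      by_cases hv : v ∈ H
      · rw [hs0 v hv, zero_mul, mul_zero]
      by_cases hvH : insert v H ∈ Γ.faces
      · rw [← TH_insert h.nz hv]
        have hc2 : Cyc Γ p M (insert v H) f' := fun i =>
          JJ_stc_mono hvH (Finset.subset_insert _ _) (hc' i)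
        have h5 := (hdef v hv hvH k (by rw [hcard v hv]; omega) f' hf' hc2).1
        have h6 := mul_nonneg (hs1 v hv hvH).le h5
        calc (0 : ℝ) ≤ _ := h6
          _ = _ := by ring
      · have h5 : TH Γ φ ξ τ H (X v * ∑ i, f' i ^ 2) = 0 := by
          refine h.TH_JJ hH (k := 2 * k + 1) (by omega) ?_
            (Ideal.mul_mem_right _ _ (X_JJ hH hvH p))
          have := (isHomogeneous_X ℝ v).mul hg0
          rwa [add_comm] at this
        rw [h5, mul_zero, mul_zero]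
    have hz := (Finset.sum_eq_zero_iff_of_nonneg hnn).1 (by rw [← Finset.mul_sum, hT2, mul_zero])
    intro v hv hvH
    have h5 := hz v (Finset.mem_univ v)
    rw [TH_insert h.nz hv]
    rcases mul_eq_zero.1 h5 with h6 | h6
    · exact absurd h6 (pow_ne_zero _ (by norm_num))
    · exact (mul_eq_zero.1 h6).resolve_left (hs1 v hv hvH).ne'
  rw [h.qf_ev hH]
  have e1 : ∑ i, f i * f' i = ∑ i, (f i - ∑ v ∈ Hᶜ, X v * F v i) * f' i +
      ∑ v ∈ Hᶜ, X v * ∑ i, F v i * f' i := by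
    have e2 : ∑ v ∈ Hᶜ, X v * ∑ i, F v i * f' i = ∑ i, (∑ v ∈ Hᶜ, X v * F v i) * f' i := by
      simp only [Finset.mul_sum, Finset.sum_mul]
      rw [Finset.sum_comm]
      exact Finset.sum_congr rfl fun i _ => Finset.sum_congr rfl fun v _ => by ring
    rw [e2, ← Finset.sum_add_distrib]
    exact Finset.sum_congr rfl fun i _ => by ring
  have hfh : ∀ i, (∑ v ∈ Hᶜ, X v * F v i : MvPolynomial V ℝ).IsHomogeneous (k + 1) := fun i =>
    IsHomogeneous.sum _ _ _ fun v _ => by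
      have := (isHomogeneous_X ℝ v).mul (hF1 v i)
      rwa [add_comm] at this
  rw [e1, TH_add]
  have e3 : TH Γ φ ξ τ H (∑ i, (f i - ∑ v ∈ Hᶜ, X v * F v i) * f' i) = 0 := by
    refine h.TH_JJ hH (k := 2 * k + 1) (by omega) ?_ ?_
    · refine IsHomogeneous.sum _ _ _ fun i _ => ?_
      have := ((hf i).sub (hfh i)).mul (hf' i)
      rwa [show k + 1 + k = 2 * k + 1 by ring] at this
    · exact Ideal.sum_mem _ fun i _ => Ideal.mul_mem_right _ _ (hF3 i)
  rw [e3, zero_add, TH_sum']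
  refine Finset.sum_eq_zero fun v hv => ?_
  have hv := Finset.mem_compl.1 hv
  have hg : (∑ i, F v i * f' i : MvPolynomial V ℝ).IsHomogeneous (2 * k) :=
    IsHomogeneous.sum _ _ _ fun i _ => by
      have := (hF1 v i).mul (hf' i)
      rwa [← two_mul] at this
  by_cases hvH : insert v H ∈ Γ.faces
  swap
  · refine h.TH_JJ hH (k := 2 * k + 1) (by omega) ?_ (Ideal.mul_mem_right _ _ (X_JJ hH hvH p))
    have := (isHomogeneous_X ℝ v).mul hg
    rwa [add_comm] at this
  rw [← TH_insert h.nz hv]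
  have hc2 : Cyc Γ p M (insert v H) f' := fun i =>
    JJ_stc_mono hvH (Finset.subset_insert _ _) (hc' i)
  obtain ⟨-, h2⟩ := hdef v hv hvH k (by rw [hcard v hv]; omega) f' hf' hc2
  have e4 := key v hv hvH
  obtain ⟨g, hg1, hg2⟩ := h2 e4
  have e5 : ∑ i, F v i * f' i = ∑ i, F v i * (f' i - M.mulVec g i) + ∑ i, M.mulVec (F v) i * g i := by
    rw [← dot_symm' hM.symm, ← Finset.sum_add_distrib]
    exact Finset.sum_congr rfl fun i _ => by ring
  rw [e5, TH_add]
  have e6 : TH Γ φ ξ τ (insert v H) (∑ i, F v i * (f' i - M.mulVec g i)) = 0 := by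
    refine h.TH_JJ hvH (k := 2 * k) (by rw [hcard v hv]; omega) ?_ ?_
    · refine IsHomogeneous.sum _ _ _ fun i _ => ?_
      have := (hF1 v i).mul ((hf' i).sub (mulVec_homPB hM hg1 i))
      rwa [← two_mul] at this
    · exact Ideal.sum_mem _ fun i _ => Ideal.mul_mem_left _ _ (hg2 i)
  have e7 : TH Γ φ ξ τ (insert v H) (∑ i, M.mulVec (F v) i * g i) = 0 := by
    cases k with
    | zero =>
      have h4 : ∀ i, g i = 0 := fun i => hg1 i
      simp only [h4, mul_zero, Finset.sum_const_zero]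
      exact TH_zero _
    | succ k =>
      refine h.TH_JJ hvH (k := 2 * (k + 1)) (by rw [hcard v hv]; omega) ?_ ?_
      · refine IsHomogeneous.sum _ _ _ fun i _ => ?_
        have h4 : (g i).IsHomogeneous k := hg1 i
        have := (mulVec_homB hM (hF1 v) i).mul h4
        rwa [show k + 1 + 1 + k = 2 * (k + 1) by ring] at this
      · exact Ideal.sum_mem _ fun i _ => Ideal.mul_mem_right _ _ (hF2 v hv hvH i)
  rw [e6, e7, add_zero]


lemma above_stepB {M : Matrix κ κ (MvPolynomial V ℝ)} (hM : ClB Γ p M) (hA : AntiB Γ p M)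
    {H : Finset V}
    (hH : H ∈ Γ.faces)
    (ih1 : ∀ H' ∈ Γ.faces, H.card < H'.card → Above Γ p M H')
    (ih2 : ∀ H' ∈ Γ.faces, H.card < H'.card → DefH Γ p φ ξ τ M H') : Above Γ p M H := by
  intro k hk f hf hc
  have hHd := h.small H hH
  obtain ⟨k, rfl⟩ : ∃ k', k = k' + 1 := ⟨k - 1, by omega⟩
  have hcard : ∀ v, v ∉ H → (insert v H).card = H.card + 1 := fun v hv =>
    Finset.card_insert_of_notMem hv
  obtain ⟨F, hF1, hF2, hF3⟩ := Pool.Agent.H128.Bend.Zig.zig hM H hH h.small (h.row hH) k (fun G hG1 hG2 hG3 => by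
    have h1 := Finset.card_union_of_disjoint hG2
    exact ih1 _ hG3 (by omega) k (by omega)) f hf hc
  by_cases hk2 : d < 2 * k + (H.card + 1)
  · have h1 : ∀ v, ∃ g : κ → MvPolynomial V ℝ, (∀ i, HomP k (g i)) ∧
        (v ∉ H → insert v H ∈ Γ.faces → ∀ i, F v i - M.mulVec g i ∈ JJ (stc Γ (insert v H)) p) := by
      intro v
      by_cases hv : v ∉ H ∧ insert v H ∈ Γ.faces
      · obtain ⟨g, hg1, hg2⟩ := ih1 _ hv.2 (by rw [hcard v hv.1]; omega) k
          (by rw [hcard v hv.1]; omega) (F v) (hF1 v) (hF2 v hv.1 hv.2)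
        exact ⟨g, hg1, fun _ _ => hg2⟩
      · refine ⟨0, fun i => ?_, fun h1 h2 => absurd ⟨h1, h2⟩ hv⟩
        cases k with
        | zero => rfl
        | succ k => exact isHomogeneous_zero _ _ _
    choose g hg1 hg2 using h1
    refine ⟨fun i => ∑ v ∈ Hᶜ, X v * g v i, fun i => ?_, fun i => ?_⟩
    · show (∑ v ∈ Hᶜ, X v * g v i : MvPolynomial V ℝ).IsHomogeneous k
      exact IsHomogeneous.sum _ _ _ fun v _ => homP_hom (hg1 v i) v
    · rw [sum_mulVec M Hᶜ (fun v j => X v * g v j)]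
      simp only [XmulVec]
      have e1 : f i - ∑ v ∈ Hᶜ, X v * M.mulVec (g v) i = (f i - ∑ v ∈ Hᶜ, X v * F v i) +
          ∑ v ∈ Hᶜ, X v * (F v i - M.mulVec (g v) i) := by
        have : ∑ v ∈ Hᶜ, X v * (F v i - M.mulVec (g v) i) =
            ∑ v ∈ Hᶜ, X v * F v i - ∑ v ∈ Hᶜ, X v * M.mulVec (g v) i := by
          rw [← Finset.sum_sub_distrib]
          exact Finset.sum_congr rfl fun v _ => by ring
        rw [this]
        ring
      rw [e1]
      refine Ideal.add_mem _ (hF3 i) (Ideal.sum_mem _ fun v hv => ?_)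
      have hv := Finset.mem_compl.1 hv
      by_cases hvH : insert v H ∈ Γ.faces
      · exact X_mul_JJ hH hvH (hg2 v hv hvH i)
      · exact Ideal.mul_mem_right _ _ (X_JJ hH hvH p)
  · exact h.odd_stepB hM hA hH k (by omega)
      (fun v hv hvH => ih2 _ hvH (by rw [hcard v hv]; omega)) f hf F hF1 hF2 hF3


/-- definiteness in the middle and the Charney-Davis inequality for the star of `H` -/
lemma def_stepB [Nonempty κ] {M : Matrix κ κ (MvPolynomial V ℝ)} (hM : ClB Γ p M) {H : Finset V}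
    (hH : H ∈ Γ.faces) (ha : Above Γ p M H) : DefH Γ p φ ξ τ M H ∧
    ∀ m, d = 2 * m + H.card → (Finset.univ.filter fun G => (-1 : ℝ) ^ m * om Γ φ ξ τ H G < 0).card ≤
      (Finset.univ.filter fun G => 0 < (-1 : ℝ) ^ m * om Γ φ ξ τ H G).card := by
  have key : ∀ m (hm : d = 2 * m + H.card), _ := fun m hm =>
    def_abs (h.fdB hM hH) m (by omega) ((-1 : ℝ) ^ m) (neg_one_pow_eq_or ℝ m)
      (fun k hk F hF hDF => by
        obtain ⟨f, hf, rfl⟩ := evV_surj hF
        exact h.of_bdryB hM hf (ha k (by omega) f hf (h.cyc_ofB hM hH hf hDF)))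
      (h.hdim κ hH m hm)
  constructor
  · intro m hm f hf hc
    obtain ⟨h1, h2⟩ := (key m hm).1 _ (evV_mem hf) (h.of_cycB hM hf hc)
    have e1 : ∑ i, f i ^ 2 = ∑ i, f i * f i := Finset.sum_congr rfl fun i _ => sq _
    rw [h.qf_ev hH] at h1 h2
    rw [e1]
    exact ⟨h1, fun h3 => h.bdry_ofB hM hH hf (h2 h3)⟩
  · intro m hm
    exact Nat.le_of_mul_le_mul_left (key m hm).2 Fintype.card_pos


theorem mainB [Nonempty κ] {M : Matrix κ κ (MvPolynomial V ℝ)} (hM : ClB Γ p M)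
    (hA : AntiB Γ p M) :
    ∀ (n : ℕ) (H : Finset V), H ∈ Γ.faces → d ≤ n + H.card →
      Above Γ p M H ∧ DefH Γ p φ ξ τ M H := by
  intro n
  induction n with
  | zero =>
    intro H hH hn
    have ha : Above Γ p M H := h.above_stepB hM hA hH
      (fun H' hH' hlt => absurd (h.small H' hH') (by omega))
      (fun H' hH' hlt => absurd (h.small H' hH') (by omega))
    exact ⟨ha, (h.def_stepB hM hH ha).1⟩
  | succ n ih =>
    intro H hH hn
    have ha : Above Γ p M H := h.above_stepB hM hA hH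
      (fun H' hH' hlt => (ih H' hH' (by omega)).1)
      (fun H' hH' hlt => (ih H' hH' (by omega)).2)
    exact ⟨ha, (h.def_stepB hM hH ha).1⟩


/-- the Charney-Davis inequality for the link of `H` -/
theorem cdB [Nonempty κ] {M : Matrix κ κ (MvPolynomial V ℝ)} (hM : ClB Γ p M) (hA : AntiB Γ p M)
    {H : Finset V}
    (hH : H ∈ Γ.faces) (m : ℕ) (hm : d = 2 * m + H.card) :
    0 ≤ (-1 : ℚ) ^ m * ∑ σ ∈ lkf Γ H, (-1 / 2 : ℚ) ^ σ.card := by
  classical
  have h1 := (h.def_stepB hM hH (h.mainB hM hA d H hH (by omega)).1).2 m hm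
  unfold lkf
  rw [link_cd h.C h.nz H hH]
  have h2 : (0 : ℚ) ≤ (-1 : ℚ) ^ m * ∑ G ∈ Γ.faces.filter (fun G => G.card = d ∧ H ⊆ G),
      (-1) ^ neg φ ξ H G := by
    have e1 : ∑ G ∈ Γ.faces.filter (fun G => G.card = d ∧ H ⊆ G), (-1 : ℚ) ^ neg φ ξ H G =
        ∑ G : Fc (stc Γ H) d, (-1 : ℚ) ^ neg φ ξ H G.1 := by
      symm
      refine Finset.sum_bij (fun G _ => G.1) ?_ ?_ ?_ ?_
      · intro G _
        rw [Finset.mem_filter]
        have := (stc_facet h.small hH G.1).1 G.2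
        exact ⟨this.1, this.2⟩
      · intro G _ G' _ h
        exact Subtype.ext h
      · intro G hG
        rw [Finset.mem_filter] at hG
        exact ⟨⟨G, (stc_facet h.small hH G).2 ⟨hG.1, hG.2⟩⟩, Finset.mem_univ _, rfl⟩
      · intro G _
        rfl
    rw [e1, Finset.mul_sum]
    have e2 : ∀ G : Fc (stc Γ H) d, (-1 : ℚ) ^ m * (-1) ^ neg φ ξ H G.1 =
        (if 0 < (-1 : ℝ) ^ m * om Γ φ ξ τ H G then 1 else 0) -
        (if (-1 : ℝ) ^ m * om Γ φ ξ τ H G < 0 then 1 else 0) := by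
      intro G
      have h5 := h.om_sign hH G
      rw [← pow_add]
      have h6 : (-1 : ℝ) ^ m * om Γ φ ξ τ H G =
          (-1 : ℝ) ^ (m + neg φ ξ H G.1) * ((-1 : ℝ) ^ neg φ ξ H G.1 * om Γ φ ξ τ H G) := by
        have : (-1 : ℝ) ^ neg φ ξ H G.1 * (-1 : ℝ) ^ neg φ ξ H G.1 = 1 := by
          rw [← mul_pow]; norm_num
        rw [pow_add]
        calc (-1 : ℝ) ^ m * om Γ φ ξ τ H G = (-1 : ℝ) ^ m *
              ((-1 : ℝ) ^ neg φ ξ H G.1 * (-1 : ℝ) ^ neg φ ξ H G.1) * om Γ φ ξ τ H G := by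
                rw [this, mul_one]
          _ = _ := by ring
      rw [h6]
      rcases Nat.even_or_odd (m + neg φ ξ H G.1) with h7 | h7
      · rw [h7.neg_one_pow, h7.neg_one_pow, one_mul, if_pos h5, if_neg (not_lt.2 h5.le), sub_zero]
      · rw [h7.neg_one_pow, h7.neg_one_pow, if_neg (by linarith), if_pos (by linarith), zero_sub]
    rw [Finset.sum_congr rfl fun G _ => e2 G, Finset.sum_sub_distrib, Finset.sum_boole,
      Finset.sum_boole, sub_nonneg]
    exact_mod_cast h1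
  have h3 : (0 : ℚ) ≤ (1 / 2) ^ (d - H.card) := by positivity
  calc (0 : ℚ) ≤ (1 / 2) ^ (d - H.card) * ((-1 : ℚ) ^ m *
        ∑ G ∈ Γ.faces.filter (fun G => G.card = d ∧ H ⊆ G), (-1) ^ neg φ ξ H G) := mul_nonneg h3 h2
    _ = _ := by ring


end FanData

end Pool.Agent.H128.Fan
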