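import Pool.Agent.H128.Bend.Defs2

set_option autoImplicit false
set_option linter.unusedSectionVars false

/-! A complete simplicial fan in the plane with at least four rays has no nonzero positive semidefinite 2-stress. -/

namespace Pool.Agent.H728.BendZ05

open Pool.Agent.H128.Bend

/-- The determinant of two vectors of the plane. -/
def dt (x y : Fin 2 → ℝ) : ℝ := x 0 * y 1 - x 1 * y 0

lemma dt_sub_smul (x y z : Fin 2 → ℝ) (r : ℝ) : dt x (y - r • z) = dt x y - r * dt x z := by
  unfold dt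
  simp only [Pi.sub_apply, Pi.smul_apply, smul_eq_mul]
  ring

variable {V : Type} [Fintype V] [DecidableEq V] {S : Finset (Finset V)} {p : V → Fin 2 → ℝ}

lemma ne_zero (hli : ∀ F ∈ S, LinearIndependent ℝ (fun v : F => p v)) {u : V}
    (hu : ({u} : Finset V) ∈ S) : p u ≠ 0 := by
  have h := (hli {u} hu).ne_zero ⟨u, by simp⟩
  exact h

lemma dt_ne (hli : ∀ F ∈ S, LinearIndependent ℝ (fun v : F => p v)) {u v : V}
    (h : ({u, v} : Finset V) ∈ S) (huv : u ≠ v) : dt (p u) (p v) ≠ 0 := by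
  intro h0
  have hl := hli _ h
  have hu0 : p u ≠ 0 := hl.ne_zero ⟨u, by simp⟩
  rw [Fintype.linearIndependent_iff] at hl
  have key : ∀ i : Fin 2, p u i = 0 := by
    intro i
    have hg := hl (fun w => if w.1 = u then p v i else - p u i) ?_ ⟨v, by simp⟩
    · simpa [huv.symm] using hg
    · have := Finset.sum_coe_sort ({u, v} : Finset V)
        (fun w => (if w = u then p v i else - p u i) • p w)
      rw [this, Finset.sum_pair huv]
      unfold dt at h0
      ext j
      simp only [if_true, huv.symm, if_false, Pi.add_apply, Pi.smul_apply, smul_eq_mul,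
        Pi.zero_apply]
      fin_cases i <;> fin_cases j <;> simp <;> linarith
  exact hu0 (funext key)

lemma par {x y : Fin 2 → ℝ} (h : dt x y = 0) (hx : x ≠ 0) : ∃ s : ℝ, s • x = y := by
  refine ⟨(x 0 * y 0 + x 1 * y 1) / (x 0 ^ 2 + x 1 ^ 2), ?_⟩
  have hpos : x 0 ^ 2 + x 1 ^ 2 ≠ 0 := by
    intro h0
    apply hx
    have h1 : x 0 = 0 := by
      have : x 0 ^ 2 = 0 := by nlinarith [sq_nonneg (x 0), sq_nonneg (x 1)]
      exact pow_eq_zero_iff (two_ne_zero) |>.1 this
    have h2 : x 1 = 0 := by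
      have : x 1 ^ 2 = 0 := by nlinarith [sq_nonneg (x 0), sq_nonneg (x 1)]
      exact pow_eq_zero_iff (two_ne_zero) |>.1 this
    funext i
    fin_cases i
    · exact h1
    · exact h2
  unfold dt at h
  funext i
  fin_cases i
  · show (x 0 * y 0 + x 1 * y 1) / (x 0 ^ 2 + x 1 ^ 2) * x 0 = y 0
    rw [div_mul_eq_mul_div, div_eq_iff hpos]
    linear_combination x 1 * h
  · show (x 0 * y 0 + x 1 * y 1) / (x 0 ^ 2 + x 1 ^ 2) * x 1 = y 1
    rw [div_mul_eq_mul_div, div_eq_iff hpos]
    linear_combination - x 0 * h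

lemma sum_single (v : V) (t : ℝ) : ∑ w, (Pi.single v t : V → ℝ) w • p w = t • p v := by
  rw [Fintype.sum_eq_single v]
  · simp
  · intro w hw
    simp [hw]

lemma star_single (hS : Down S) {u v : V} {t : ℝ} {x : Fin 2 → ℝ} (hu : p u ≠ 0) (hv : v ≠ u)
    (huv : ({u, v} : Finset V) ∈ S) (ht : 0 ≤ t) (hx : dt (p u) (x - t • p v) = 0) :
    IsStar S p {u} x (Pi.single v t) := by
  refine ⟨?_, ?_, ?_, ?_⟩
  · intro w
    by_cases h : w = v
    · subst h; simpa using ht
    · simp [h]
  · intro w hw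
    rw [Finset.mem_singleton] at hw
    subst hw
    simp [hv.symm]
  · refine hS _ huv _ ?_
    intro w hw
    rw [Finset.mem_union, Finset.mem_filter, Finset.mem_singleton] at hw
    rw [Finset.mem_insert, Finset.mem_singleton]
    rcases hw with ⟨_, hw⟩ | hw
    · right
      by_contra h
      exact hw (by simp [h])
    · left; exact hw
  · rw [sum_single, Finset.coe_singleton, Set.image_singleton, Submodule.mem_span_singleton]
    exact par hx hu

lemma exi (hS : Down S) (hex : ∀ H ∈ S, ∀ x, ∃ c, IsStar S p H x c) {u : V}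
    (hu : ({u} : Finset V) ∈ S) (hp : p u ≠ 0) (σ : ℝ) (hσ : σ * σ = 1) :
    ∃ v, v ≠ u ∧ ({u, v} : Finset V) ∈ S ∧ 0 < σ * dt (p u) (p v) := by
  obtain ⟨c, h1, h2, h3, h4⟩ := hex {u} hu ![-(σ * p u 1), σ * p u 0]
  rw [Finset.coe_singleton, Set.image_singleton, Submodule.mem_span_singleton] at h4
  obtain ⟨s, hs⟩ := h4
  have e0 := congrFun hs 0
  have e1 := congrFun hs 1
  simp only [Pi.smul_apply, smul_eq_mul, Pi.sub_apply, Matrix.cons_val_zero, Finset.sum_apply,
    Matrix.cons_val_one] at e0 e1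
  have hsum : ∑ v, c v * (σ * dt (p u) (p v)) = p u 0 ^ 2 + p u 1 ^ 2 := by
    have : ∑ v, c v * (σ * dt (p u) (p v))
        = σ * (p u 0 * ∑ v, c v * p v 1 - p u 1 * ∑ v, c v * p v 0) := by
      unfold dt
      simp only [Finset.mul_sum, ← Finset.sum_sub_distrib]
      refine Finset.sum_congr rfl fun v _ => by ring
    rw [this]
    linear_combination σ * p u 0 * e1 - σ * p u 1 * e0 + (p u 0 ^ 2 + p u 1 ^ 2) * hσ
  have hpos : 0 < p u 0 ^ 2 + p u 1 ^ 2 := by
    rcases lt_or_eq_of_le (add_nonneg (sq_nonneg (p u 0)) (sq_nonneg (p u 1))) with h | h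
    · exact h
    · exfalso
      apply hp
      have h1 : p u 0 = 0 := by
        have : p u 0 ^ 2 = 0 := by nlinarith [sq_nonneg (p u 0), sq_nonneg (p u 1)]
        exact pow_eq_zero_iff (two_ne_zero) |>.1 this
      have h2 : p u 1 = 0 := by
        have : p u 1 ^ 2 = 0 := by nlinarith [sq_nonneg (p u 0), sq_nonneg (p u 1)]
        exact pow_eq_zero_iff (two_ne_zero) |>.1 this
      funext i
      fin_cases i
      · exact h1
      · exact h2
  have hexv : ∃ v, 0 < c v * (σ * dt (p u) (p v)) := by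
    by_contra hcon
    push Not at hcon
    have := Finset.sum_nonpos (fun v (_ : v ∈ Finset.univ) => hcon v)
    linarith
  obtain ⟨v, hv⟩ := hexv
  have hcv : c v ≠ 0 := by
    intro h
    rw [h, zero_mul] at hv
    exact lt_irrefl _ hv
  refine ⟨v, ?_, ?_, ?_⟩
  · intro h
    exact hcv (h2 v (by rw [h]; simp))
  · refine hS _ h3 _ ?_
    intro w hw
    rw [Finset.mem_insert, Finset.mem_singleton] at hw
    rw [Finset.mem_union, Finset.mem_filter, Finset.mem_singleton]
    rcases hw with hw | hw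
    · right; exact hw
    · left; rw [hw]; exact ⟨Finset.mem_univ _, hcv⟩
  · exact (pos_iff_pos_of_mul_pos hv).1 (lt_of_le_of_ne (h1 v) (Ne.symm hcv))

lemma uniq (hS : Down S) (hun : ∀ H ∈ S, ∀ x c c', IsStar S p H x c → IsStar S p H x c' → c = c')
    {u v v' : V} (hp : p u ≠ 0) (hv : v ≠ u) (hv' : v' ≠ u) (h : ({u, v} : Finset V) ∈ S)
    (h' : ({u, v'} : Finset V) ∈ S) (hd : 0 < dt (p u) (p v) * dt (p u) (p v')) : v = v' := by
  have hu : ({u} : Finset V) ∈ S := hS _ h _ (by simp)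
  have hne : dt (p u) (p v') ≠ 0 := by
    intro h0; rw [h0, mul_zero] at hd; exact lt_irrefl _ hd
  have ht : 0 ≤ dt (p u) (p v) / dt (p u) (p v') := by
    rw [div_eq_mul_inv]
    have : dt (p u) (p v) * (dt (p u) (p v'))⁻¹
        = (dt (p u) (p v) * dt (p u) (p v')) * ((dt (p u) (p v'))⁻¹) ^ 2 := by
      field_simp
    rw [this]
    positivity
  have s1 : IsStar S p {u} (p v) (Pi.single v 1) := by
    refine star_single hS hp hv h zero_le_one ?_
    unfold dt
    simp
  have s2 : IsStar S p {u} (p v) (Pi.single v' (dt (p u) (p v) / dt (p u) (p v'))) := by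
    refine star_single hS hp hv' h' ht ?_
    have : dt (p u) (p v - (dt (p u) (p v) / dt (p u) (p v')) • p v')
        = dt (p u) (p v) - (dt (p u) (p v) / dt (p u) (p v')) * dt (p u) (p v') := dt_sub_smul _ _ _ _
    rw [this, div_mul_cancel₀ _ hne, sub_self]
  have he := congrFun (hun {u} hu _ _ _ s1 s2) v
  by_contra hvv
  simp [hvv] at he

/-- `a` and `b` are the two neighbours of the ray `u`. -/
def Nb (S : Finset (Finset V)) (p : V → Fin 2 → ℝ) (u a b : V) : Prop :=
  a ≠ u ∧ b ≠ u ∧ ({u, a} : Finset V) ∈ S ∧ ({u, b} : Finset V) ∈ S ∧ 0 < dt (p u) (p a) ∧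
    dt (p u) (p b) < 0 ∧ ∀ v, v ≠ u → ({u, v} : Finset V) ∈ S → v = a ∨ v = b

lemma Nb_ne {u a b : V} (h : Nb S p u a b) : a ≠ b := by
  rintro rfl
  exact lt_asymm h.2.2.2.2.1 h.2.2.2.2.2.1

lemma exNb (hS : Down S) (hli : ∀ F ∈ S, LinearIndependent ℝ (fun v : F => p v))
    (hex : ∀ H ∈ S, ∀ x, ∃ c, IsStar S p H x c)
    (hun : ∀ H ∈ S, ∀ x c c', IsStar S p H x c → IsStar S p H x c' → c = c') {u : V}
    (hu : ({u} : Finset V) ∈ S) : ∃ a b, Nb S p u a b := by
  have hp := ne_zero hli hu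
  obtain ⟨a, ha, hua, hda⟩ := exi hS hex hu hp 1 (by norm_num)
  obtain ⟨b, hb, hub, hdb⟩ := exi hS hex hu hp (-1) (by norm_num)
  rw [one_mul] at hda
  have hdb' : dt (p u) (p b) < 0 := by linarith
  refine ⟨a, b, ha, hb, hua, hub, hda, hdb', ?_⟩
  intro v hv huv
  have hne := dt_ne hli huv hv.symm
  rcases lt_or_gt_of_ne hne with h | h
  · right
    exact uniq hS hun hp hv hb huv hub (mul_pos_of_neg_of_neg h hdb')
  · left
    exact uniq hS hun hp hv ha huv hua (mul_pos h hda)

lemma row {M : Type} [AddCommGroup M] [Module ℝ M] {A : Matrix V V ℝ}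
    (hA : ∀ u v, ({u, v} : Finset V) ∉ S → A u v = 0) {u a b : V} (h : Nb S p u a b) (g : V → M) :
    ∑ v, A u v • g v = A u u • g u + (A u a • g a + A u b • g b) := by
  have hab := Nb_ne h
  have h1 : ∑ v, A u v • g v = ∑ v ∈ ({u, a, b} : Finset V), A u v • g v := by
    symm
    apply Finset.sum_subset (Finset.subset_univ _)
    intro v _ hv
    rw [Finset.mem_insert, Finset.mem_insert, Finset.mem_singleton] at hv
    rw [hA u v, zero_smul]
    intro hS
    rcases h.2.2.2.2.2.2 v (fun h => hv (Or.inl h)) hS with h1 | h1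
    · exact hv (Or.inr (Or.inl h1))
    · exact hv (Or.inr (Or.inr h1))
  rw [h1, Finset.sum_insert, Finset.sum_pair hab]
  rw [Finset.mem_insert, Finset.mem_singleton]
  rintro (h2 | h2)
  · exact h.1 h2.symm
  · exact h.2.1 h2.symm

lemma rowp {A : Matrix V V ℝ} (hA : ∀ u v, ({u, v} : Finset V) ∉ S → A u v = 0)
    (hr : ∀ u, ∑ v, A u v • p v = 0) {u a b : V} (h : Nb S p u a b) :
    A u u • p u + (A u a • p a + A u b • p b) = 0 := by
  rw [← row hA h p]
  exact hr u

lemma rowc {A : Matrix V V ℝ} (hA : ∀ u v, ({u, v} : Finset V) ∉ S → A u v = 0)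
    (hr : ∀ u, ∑ v, A u v • p v = 0) {u a b : V} (h : Nb S p u a b) (i : Fin 2) :
    A u u * p u i + (A u a * p a i + A u b * p b i) = 0 := by
  have := congrFun (rowp hA hr h) i
  simpa using this

lemma rowd {A : Matrix V V ℝ} (hA : ∀ u v, ({u, v} : Finset V) ∉ S → A u v = 0)
    (hr : ∀ u, ∑ v, A u v • p v = 0) {u a b : V} (h : Nb S p u a b) :
    A u a * dt (p u) (p a) + A u b * dt (p u) (p b) = 0 := by
  have h0 := rowc hA hr h 0
  have h1 := rowc hA hr h 1
  unfold dt
  linear_combination p u 0 * h1 - p u 1 * h0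

lemma sgn {x y α β : ℝ} (ha : 0 < α) (hb : β < 0) (h : x * α + y * β = 0) :
    (x < 0 → y < 0) ∧ (y < 0 → x < 0) ∧ (0 < x → 0 < y) ∧ (0 < y → 0 < x) := by
  refine ⟨?_, ?_, ?_, ?_⟩
  · intro hx
    by_contra hy
    push Not at hy
    have := mul_neg_of_neg_of_pos hx ha
    have := mul_nonpos_of_nonneg_of_nonpos hy hb.le
    linarith
  · intro hy
    by_contra hx
    push Not at hx
    have := mul_pos_of_neg_of_neg hy hb
    have := mul_nonneg hx ha.le
    linarith
  · intro hx
    by_contra hy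
    push Not at hy
    have := mul_pos hx ha
    have := mul_nonneg_of_nonpos_of_nonpos hy hb.le
    linarith
  · intro hy
    by_contra hx
    push Not at hx
    have := mul_neg_of_pos_of_neg hy hb
    have := mul_nonpos_of_nonpos_of_nonneg hx ha.le
    linarith

lemma sym {A : Matrix V V ℝ} (hP : A.PosSemidef) (u v : V) : A u v = A v u := by
  have := hP.isHermitian.apply u v
  simpa using this.symm

lemma diag_pos {A : Matrix V V ℝ} (hP : A.PosSemidef) {a u : V} (h : A a u ≠ 0) : 0 < A a a := by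
  have h1 := (hP.submatrix ![a, u]).det_nonneg
  rw [Matrix.det_fin_two] at h1
  simp only [Matrix.submatrix_apply, Matrix.cons_val_zero, Matrix.cons_val_one] at h1
  rw [sym hP u a] at h1
  have h2 : 0 ≤ A a a := hP.diag_nonneg
  rcases lt_or_eq_of_le h2 with h3 | h3
  · exact h3
  · exfalso
    rw [← h3] at h1
    have : 0 < A a u * A a u := mul_self_pos.2 h
    linarith

/-- The length. -/
noncomputable def rr (x : Fin 2 → ℝ) : ℝ := √(x 0 ^ 2 + x 1 ^ 2)

lemma rr_sq (x : Fin 2 → ℝ) : rr x * rr x = x 0 ^ 2 + x 1 ^ 2 :=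
  Real.mul_self_sqrt (by positivity)

lemma ip_lt {x y : Fin 2 → ℝ} (h : dt x y ≠ 0) : x 0 * y 0 + x 1 * y 1 < rr x * rr y := by
  unfold rr
  rw [← Real.sqrt_mul (by positivity)]
  apply Real.lt_sqrt_of_sq_lt
  have : 0 < dt x y * dt x y := mul_self_pos.2 h
  unfold dt at this
  nlinarith [this]

lemma no_neg (hS : Down S) (hli : ∀ F ∈ S, LinearIndependent ℝ (fun v : F => p v))
    (hex : ∀ H ∈ S, ∀ x, ∃ c, IsStar S p H x c)
    (hun : ∀ H ∈ S, ∀ x c c', IsStar S p H x c → IsStar S p H x c' → c = c')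
    {A : Matrix V V ℝ} (hP : A.PosSemidef) (hA : ∀ u v, ({u, v} : Finset V) ∉ S → A u v = 0)
    (hr : ∀ u, ∑ v, A u v • p v = 0) {u₀ v₀ : V} (h0 : v₀ ≠ u₀) : ¬ A u₀ v₀ < 0 := by
  classical
  intro hneg
  set z : V → ℝ := fun u => if ∃ v, v ≠ u ∧ A u v < 0 then rr (p u) else 0 with hz
  have hq := hP.dotProduct_mulVec_nonneg z
  have hq' : 0 ≤ ∑ u, z u * ∑ v, A u v * z v := by
    simpa [dotProduct, Matrix.mulVec] using hq
  have hray : ∀ u v, A u v ≠ 0 → ({u} : Finset V) ∈ S := by
    intro u v h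
    have : ({u, v} : Finset V) ∈ S := by
      by_contra h1
      exact h (hA u v h1)
    exact hS _ this _ (by simp)
  have hterm : ∀ u, (∃ v, v ≠ u ∧ A u v < 0) → z u * ∑ v, A u v * z v < 0 := by
    intro u hu
    have hzu : z u = rr (p u) := by
      rw [hz]; simp only; rw [if_pos hu]
    obtain ⟨v, hv, hv2⟩ := hu
    have huS := hray u v (ne_of_lt hv2)
    obtain ⟨a, b, hab⟩ := exNb hS hli hex hun huS
    have hvS : ({u, v} : Finset V) ∈ S := by
      by_contra h1
      rw [hA u v h1] at hv2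
      exact lt_irrefl _ hv2
    have hs := sgn hab.2.2.2.2.1 hab.2.2.2.2.2.1 (rowd hA hr hab)
    have hboth : A u a < 0 ∧ A u b < 0 := by
      rcases hab.2.2.2.2.2.2 v hv hvS with h | h
      · rw [h] at hv2
        exact ⟨hv2, hs.1 hv2⟩
      · rw [h] at hv2
        exact ⟨hs.2.1 hv2, hv2⟩
    have hza : z a = rr (p a) := by
      rw [hz]; simp only
      rw [if_pos ⟨u, hab.1.symm, by rw [sym hP a u]; exact hboth.1⟩]
    have hzb : z b = rr (p b) := by
      rw [hz]; simp only
      rw [if_pos ⟨u, hab.2.1.symm, by rw [sym hP b u]; exact hboth.2⟩]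
    have hrow := row hA hab z
    simp only [smul_eq_mul] at hrow
    rw [hrow, hzu, hza, hzb]
    have c0 := rowc hA hr hab 0
    have c1 := rowc hA hr hab 1
    have i1 := ip_lt hab.2.2.2.2.1.ne'
    have i2 := ip_lt hab.2.2.2.2.2.1.ne
    have e : rr (p u) * (A u u * rr (p u) + (A u a * rr (p a) + A u b * rr (p b)))
        = A u a * (rr (p u) * rr (p a) - (p u 0 * p a 0 + p u 1 * p a 1))
          + A u b * (rr (p u) * rr (p b) - (p u 0 * p b 0 + p u 1 * p b 1)) := by
      linear_combination A u u * rr_sq (p u) + p u 0 * c0 + p u 1 * c1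
    rw [e]
    have t1 := mul_neg_of_neg_of_pos hboth.1 (sub_pos.2 i1)
    have t2 := mul_neg_of_neg_of_pos hboth.2 (sub_pos.2 i2)
    linarith
  have hlt : ∑ u, z u * ∑ v, A u v * z v < 0 := by
    have : ∑ u, z u * ∑ v, A u v * z v < ∑ u : V, (0 : ℝ) := by
      apply Finset.sum_lt_sum
      · intro u _
        by_cases hu : ∃ v, v ≠ u ∧ A u v < 0
        · exact (hterm u hu).le
        · have : z u = 0 := by
            rw [hz]; simp only; rw [if_neg hu]
          rw [this, zero_mul]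
      · exact ⟨u₀, Finset.mem_univ _, hterm u₀ ⟨v₀, h0, hneg⟩⟩
    simpa using this
  linarith

lemma no_three (hS : Down S) (hf : Fan S p) {u a b w : V} (hua : ({u, a} : Finset V) ∈ S)
    (hub : ({u, b} : Finset V) ∈ S) (hab : ({a, b} : Finset V) ∈ S) (hw : ({w} : Finset V) ∈ S)
    (w1 : w ≠ u) (w2 : w ≠ a) (w3 : w ≠ b) {c1 c2 c3 : ℝ} (h1 : 0 ≤ c1) (h2 : 0 ≤ c2)
    (h3 : 0 ≤ c3) (hz : c1 = 0 ∨ c2 = 0 ∨ c3 = 0)
    (he : p w = c1 • p u + (c2 • p a + c3 • p b)) : False := by
  obtain ⟨c, _, hc⟩ := hf (p w)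
  have e1 := hc (Pi.single w 1) ⟨?_, ?_, ?_⟩
  · have e2 := hc (Pi.single u c1 + (Pi.single a c2 + Pi.single b c3)) ⟨?_, ?_, ?_⟩
    · have := congrFun (e1.trans e2.symm) w
      simp [w1, w2, w3] at this
    · intro v
      have g : ∀ (x : V) (t : ℝ), 0 ≤ t → 0 ≤ (Pi.single x t : V → ℝ) v := by
        intro x t ht
        by_cases h : v = x
        · subst h; simpa using ht
        · simp [h]
      simp only [Pi.add_apply]
      exact add_nonneg (g _ _ h1) (add_nonneg (g _ _ h2) (g _ _ h3))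
    · rcases hz with hz | hz | hz
      · refine hS _ hab _ ?_
        intro v hv
        rw [Finset.mem_filter] at hv
        rw [Finset.mem_insert, Finset.mem_singleton]
        by_contra hcon
        push Not at hcon
        apply hv.2
        simp [hz, hcon.1, hcon.2]
      · refine hS _ hub _ ?_
        intro v hv
        rw [Finset.mem_filter] at hv
        rw [Finset.mem_insert, Finset.mem_singleton]
        by_contra hcon
        push Not at hcon
        apply hv.2
        simp [hz, hcon.1, hcon.2]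
      · refine hS _ hua _ ?_
        intro v hv
        rw [Finset.mem_filter] at hv
        rw [Finset.mem_insert, Finset.mem_singleton]
        by_contra hcon
        push Not at hcon
        apply hv.2
        simp [hz, hcon.1, hcon.2]
    · simp only [Pi.add_apply, add_smul, Finset.sum_add_distrib, sum_single]
      exact he.symm
  · intro v
    by_cases h : v = w
    · subst h; simp
    · simp [h]
  · refine hS _ hw _ ?_
    intro v hv
    rw [Finset.mem_filter] at hv
    rw [Finset.mem_singleton]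
    by_contra hcon
    apply hv.2
    simp [hcon]
  · rw [sum_single, one_smul]

lemma two_uniq (hS : Down S) (hf : Fan S p) {a b c c' : V} (hac : ({a, c} : Finset V) ∈ S)
    (hbc : ({b, c'} : Finset V) ∈ S) (hb : c' ≠ b) (hab : a ≠ b) {x : Fin 2 → ℝ} {α β α' β' : ℝ}
    (h1 : 0 ≤ α) (h2 : 0 ≤ β) (h3 : 0 < α') (h4 : 0 ≤ β') (he : α • p a + β • p c = x)
    (he' : α' • p b + β' • p c' = x) : b = c := by
  obtain ⟨d, _, hd⟩ := hf x
  have main : ∀ (a c : V) (α β : ℝ), ({a, c} : Finset V) ∈ S → 0 ≤ α → 0 ≤ β →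
      α • p a + β • p c = x → Pi.single a α + Pi.single c β = d := by
    intro a c α β hac h1 h2 he
    refine hd _ ⟨?_, ?_, ?_⟩
    · intro v
      have g : ∀ (x : V) (t : ℝ), 0 ≤ t → 0 ≤ (Pi.single x t : V → ℝ) v := by
        intro x t ht
        by_cases h : v = x
        · subst h; simpa using ht
        · simp [h]
      simp only [Pi.add_apply]
      exact add_nonneg (g _ _ h1) (g _ _ h2)
    · refine hS _ hac _ ?_
      intro v hv
      rw [Finset.mem_filter] at hv
      rw [Finset.mem_insert, Finset.mem_singleton]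
      by_contra hcon
      push Not at hcon
      apply hv.2
      simp [hcon.1, hcon.2]
    · simp only [Pi.add_apply, add_smul, Finset.sum_add_distrib, sum_single]
      exact he
  have e1 := main a c α β hac h1 h2 he
  have e2 := main b c' α' β' hbc h3.le h4 he'
  have := congrFun (e1.trans e2.symm) b
  by_contra hbc'
  simp [hab.symm, hb.symm, hbc'] at this
  linarith

lemma shift (x y : ℝ) {α β γ : ℝ} (ha : 0 < α) (hb : 0 < β) (hc : 0 < γ) :
    ∃ s : ℝ, 0 ≤ x + s * α ∧ 0 ≤ y + s * β ∧ 0 ≤ s * γ ∧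
      (x + s * α = 0 ∨ y + s * β = 0 ∨ s * γ = 0) := by
  refine ⟨max 0 (max (-x / α) (-y / β)), ?_, ?_, ?_, ?_⟩
  · have : -x / α ≤ max 0 (max (-x / α) (-y / β)) :=
      (le_max_left _ _).trans (le_max_right _ _)
    rw [div_le_iff₀ ha] at this
    linarith
  · have : -y / β ≤ max 0 (max (-x / α) (-y / β)) :=
      (le_max_right _ _).trans (le_max_right _ _)
    rw [div_le_iff₀ hb] at this
    linarith
  · exact mul_nonneg (le_max_left _ _) hc.le
  · rcases max_choice 0 (max (-x / α) (-y / β)) with h | h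
    · right; right; rw [h, zero_mul]
    · rcases max_choice (-x / α) (-y / β) with h' | h'
      · left; rw [h, h', div_mul_cancel₀ _ ha.ne']; ring
      · right; left; rw [h, h', div_mul_cancel₀ _ hb.ne']; ring

lemma other (hS : Down S) (hli : ∀ F ∈ S, LinearIndependent ℝ (fun v : F => p v))
    (hex : ∀ H ∈ S, ∀ x, ∃ c, IsStar S p H x c)
    (hun : ∀ H ∈ S, ∀ x c c', IsStar S p H x c → IsStar S p H x c' → c = c')
    {A : Matrix V V ℝ} (hA : ∀ u v, ({u, v} : Finset V) ∉ S → A u v = 0)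
    (hr : ∀ u, ∑ v, A u v • p v = 0) {a u : V} (hne : u ≠ a) (h : 0 < A a u) :
    ∃ c, c ≠ a ∧ ({a, c} : Finset V) ∈ S ∧ 0 < A a c ∧
      A a a • p a + (A a u • p u + A a c • p c) = 0 := by
  have hau : ({a, u} : Finset V) ∈ S := by
    by_contra h1
    rw [hA a u h1] at h
    exact lt_irrefl _ h
  have haS : ({a} : Finset V) ∈ S := hS _ hau _ (by simp)
  obtain ⟨x, y, hxy⟩ := exNb hS hli hex hun haS
  have hs := sgn hxy.2.2.2.2.1 hxy.2.2.2.2.2.1 (rowd hA hr hxy)
  have hrow := rowp hA hr hxy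
  rcases hxy.2.2.2.2.2.2 u hne hau with h1 | h1
  · subst h1
    exact ⟨y, hxy.2.1, hxy.2.2.2.1, hs.2.2.1 h, hrow⟩
  · subst h1
    refine ⟨x, hxy.1, hxy.2.2.1, hs.2.2.2 h, ?_⟩
    rw [← hrow]
    congr 1
    exact add_comm _ _

lemma no_pos (hS : Down S) (hf : Fan S p)
    (hli : ∀ F ∈ S, LinearIndependent ℝ (fun v : F => p v))
    (hex : ∀ H ∈ S, ∀ x, ∃ c, IsStar S p H x c)
    (hun : ∀ H ∈ S, ∀ x c c', IsStar S p H x c → IsStar S p H x c' → c = c')
    (h4 : 4 ≤ (Finset.univ.filter fun v : V => ({v} : Finset V) ∈ S).card)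
    {A : Matrix V V ℝ} (hP : A.PosSemidef) (hA : ∀ u v, ({u, v} : Finset V) ∉ S → A u v = 0)
    (hr : ∀ u, ∑ v, A u v • p v = 0) {u v : V} (hvu : v ≠ u) : ¬ 0 < A u v := by
  intro hv
  have huvS : ({u, v} : Finset V) ∈ S := by
    by_contra h1
    rw [hA u v h1] at hv
    exact lt_irrefl _ hv
  have huS : ({u} : Finset V) ∈ S := hS _ huvS _ (by simp)
  obtain ⟨a, b, hab⟩ := exNb hS hli hex hun huS
  have hs := sgn hab.2.2.2.2.1 hab.2.2.2.2.2.1 (rowd hA hr hab)
  have hboth : 0 < A u a ∧ 0 < A u b := by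
    rcases hab.2.2.2.2.2.2 v hvu huvS with h | h
    · rw [h] at hv
      exact ⟨hv, hs.2.2.1 hv⟩
    · rw [h] at hv
      exact ⟨hs.2.2.2 hv, hv⟩
  have hau : 0 < A a u := by rw [sym hP a u]; exact hboth.1
  have hbu : 0 < A b u := by rw [sym hP b u]; exact hboth.2
  have haa : 0 < A a a := diag_pos hP hau.ne'
  have hbb : 0 < A b b := diag_pos hP hbu.ne'
  have huu : 0 < A u u := diag_pos hP hboth.1.ne'
  obtain ⟨c, hc1, hc2, hc3, hc4⟩ := other hS hli hex hun hA hr hab.1.symm hau
  obtain ⟨c', hc1', hc2', hc3', hc4'⟩ := other hS hli hex hun hA hr hab.2.1.symm hbu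
  have hne := Nb_ne hab
  have hbc : b = c := by
    refine two_uniq hS hf hc2 hc2' hc1' hne (x := - p u) (div_nonneg haa.le hau.le)
      (div_nonneg hc3.le hau.le) (div_pos hbb hbu) (div_nonneg hc3'.le hbu.le) ?_ ?_
    · funext i
      have := congrFun hc4 i
      simp only [Pi.add_apply, Pi.smul_apply, smul_eq_mul, Pi.zero_apply, Pi.neg_apply] at this ⊢
      rw [div_mul_eq_mul_div, div_mul_eq_mul_div, ← add_div, div_eq_iff hau.ne']
      linear_combination this
    · funext i
      have := congrFun hc4' i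
      simp only [Pi.add_apply, Pi.smul_apply, smul_eq_mul, Pi.zero_apply, Pi.neg_apply] at this ⊢
      rw [div_mul_eq_mul_div, div_mul_eq_mul_div, ← add_div, div_eq_iff hbu.ne']
      linear_combination this
  subst hbc
  have hcard : ({u, a, b} : Finset V).card < (Finset.univ.filter fun v : V =>
      ({v} : Finset V) ∈ S).card := by
    have : ({u, a, b} : Finset V).card ≤ 3 := Finset.card_le_three
    omega
  obtain ⟨w, hw, hw'⟩ := Finset.exists_mem_notMem_of_card_lt_card hcard
  rw [Finset.mem_filter] at hw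
  rw [Finset.mem_insert, Finset.mem_insert, Finset.mem_singleton] at hw'
  push Not at hw'
  have hD := hab.2.2.2.2.1.ne'
  obtain ⟨s, s1, s2, s3, s4⟩ := shift (dt (p w) (p a) / dt (p u) (p a))
    (dt (p u) (p w) / dt (p u) (p a)) huu hboth.1 hboth.2
  refine no_three hS hf hab.2.2.1 hab.2.2.2.1 hc2 hw.2 hw'.1 hw'.2.1 hw'.2.2 s1 s2 s3 s4 ?_
  funext i
  have hrow := rowc hA hr hab i
  simp only [Pi.add_apply, Pi.smul_apply, smul_eq_mul]
  have hcr : p w i = dt (p w) (p a) / dt (p u) (p a) * p u i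
      + dt (p u) (p w) / dt (p u) (p a) * p a i := by
    rw [div_mul_eq_mul_div, div_mul_eq_mul_div, ← add_div, eq_div_iff hD]
    unfold dt
    fin_cases i <;> simp <;> ring
  linear_combination hcr - s * hrow

/-- Z05. -/
theorem plane_noPS {V : Type} [Fintype V] [DecidableEq V] {S : Finset (Finset V)}
    {p : V → Fin 2 → ℝ}
    (hS : Down S) (hf : Fan S p)
    (hli : ∀ F ∈ S, LinearIndependent ℝ (fun v : F => p v))
    (hex : ∀ H ∈ S, ∀ x, ∃ c, IsStar S p H x c)
    (hun : ∀ H ∈ S, ∀ x c c', IsStar S p H x c → IsStar S p H x c' → c = c')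
    (h4 : 4 ≤ (Finset.univ.filter fun v : V => ({v} : Finset V) ∈ S).card) : NoPS S p := by
  intro A hP hA hr
  have hoff : ∀ u v, v ≠ u → A u v = 0 := by
    intro u v huv
    have h1 := no_neg hS hli hex hun hP hA hr huv
    have h2 := no_pos hS hf hli hex hun h4 hP hA hr huv
    exact le_antisymm (not_lt.1 h2) (not_lt.1 h1)
  ext u v
  rw [Matrix.zero_apply]
  by_cases huv : v = u
  · subst huv
    by_contra hne
    have hvS : ({v} : Finset V) ∈ S := by
      have : ({v, v} : Finset V) ∈ S := by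
        by_contra h1
        exact hne (hA v v h1)
      exact hS _ this _ (by simp)
    have hp := ne_zero hli hvS
    have h1 := hr v
    rw [Fintype.sum_eq_single v (fun w hw => by rw [hoff v w hw, zero_smul])] at h1
    rcases smul_eq_zero.1 h1 with h2 | h2
    · exact hne h2
    · exact hp h2
  · exact hoff u v huv

end Pool.Agent.H728.BendZ05
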