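import Pool.Agent.H128.Bend.Lem
import Pool.Agent.H128.Bend.Main
import Pool.Agent.H128.Bend.Lem2
import Pool.Agent.H128.Bend.Conv
import Pool.Agent.H128.Bend.Z05

set_option autoImplicit false
set_option linter.unusedSectionVars false

/-! Complete simplicial fans: two classes of fans. -/

namespace Pool.Agent.H128.Bend

open Lem Lem2

/-- A class of complete simplicial fans: it contains the fans without nonzero positive semidefinite `2`-stress, the fans
of simplicial hyperplane arrangements and the complete fans in the plane with at least four rays, and it is closed under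
edge subdivisions and joins. -/
inductive Built : ∀ {n d : ℕ}, Finset (Finset (Fin n)) → (Fin n → Fin d → ℝ) → Prop
  /-- fans without nonzero positive semidefinite `2`-stress -/
  | noStress {n d : ℕ} (S : Finset (Finset (Fin n))) (p : Fin n → Fin d → ℝ) (hd : 1 ≤ d)
      (hS : Down S) (hf : Fan S p) (h : NoPS S p) : Built S p
  /-- fans of hyperplane arrangements -/
  | arrangement {n d : ℕ} (S : Finset (Finset (Fin n))) (p : Fin n → Fin d → ℝ) (hd : 1 ≤ d)
      (hS : Down S) (hf : Fan S p) (hW : Walls S p) : Built S p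
  /-- complete fans in the plane with at least four rays -/
  | plane {n : ℕ} (S : Finset (Finset (Fin n))) (p : Fin n → Fin 2 → ℝ) (hS : Down S) (hf : Fan S p)
      (h4 : 4 ≤ (Finset.univ.filter fun v : Fin n => ({v} : Finset (Fin n)) ∈ S).card) : Built S p
  /-- subdivision of the edge `{a, b}` by the ray of `α • p a + β • p b` -/
  | subdivision {n d : ℕ} (S : Finset (Finset (Fin n))) (p : Fin n → Fin d → ℝ) (a b : Fin n)
      (α β : ℝ) (hab : a ≠ b) (he : {a, b} ∈ S) (hα : 0 < α) (hβ : 0 < β) (h : Built S p) :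
      Built (subdiv S a b) (subVec p a b α β)
  /-- joins -/
  | join {n m d e : ℕ} (S : Finset (Finset (Fin n))) (p : Fin n → Fin d → ℝ)
      (T : Finset (Finset (Fin m))) (q : Fin m → Fin e → ℝ) (h : Built S p) (h' : Built T q) :
      Built (join S T) (joinVec p q)

/-- A larger class of complete simplicial fans: it contains the class `Built`, the fans which bend at all their faces and
the fans with a strictly convex function `s` in the image of a positive semidefinite relation (i.e. such that
`- (∑ s_v x_v)^2` is a sum of squares), and it is closed under common refinements of preimages under linear maps. (For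
normal fans: a simple polytope is in the class if it is a Minkowski sum of polytopes, of any dimensions, in the class.) -/
inductive Bent : ∀ {n d : ℕ}, Finset (Finset (Fin n)) → (Fin n → Fin d → ℝ) → Prop
  /-- the fans of the class `Built` -/
  | built {n d : ℕ} (S : Finset (Finset (Fin n))) (p : Fin n → Fin d → ℝ) (h : Built S p) : Bent S p
  /-- fans which bend at all faces -/
  | bends {n d : ℕ} (S : Finset (Finset (Fin n))) (p : Fin n → Fin d → ℝ) (hS : Down S)
      (hf : Fan S p) (hb : ∀ H ∈ S, Bends S p H) : Bent S p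
  /-- fans with a strictly convex function in the image of a positive semidefinite relation -/
  | convex {n d : ℕ} (S : Finset (Finset (Fin n))) (p : Fin n → Fin d → ℝ) (hS : Down S)
      (hf : Fan S p) (G : Matrix (Fin n) (Fin n) ℝ) (hG : G.PosSemidef) (hr : Rel S p G)
      (y : Fin n → ℝ) (hy : StrictlyConvex S p (G.mulVec y)) : Bent S p
  /-- common refinements -/
  | refinement {n d r : ℕ} (S : Finset (Finset (Fin n))) (p : Fin n → Fin d → ℝ) (hS : Down S)
      (hf : Fan S p) (N D : Fin r → ℕ) (T : ∀ i, Finset (Finset (Fin (N i))))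
      (q : ∀ i, Fin (N i) → Fin (D i) → ℝ) (π : ∀ i, (Fin d → ℝ) →ₗ[ℝ] (Fin (D i) → ℝ))
      (hr : IsCommonRefinement S p N D T q π) (h : ∀ i, Bent (T i) (q i)) : Bent S p

section arr
variable {V : Type} [Fintype V] [DecidableEq V] {d : ℕ} {S : Finset (Finset V)} {p : V → Fin d → ℝ}

lemma Fan.empty_mem (hS : Down S) (hf : Fan S p) : ∅ ∈ S := by
  obtain ⟨c, ⟨-, h, -⟩, -⟩ := hf 0
  exact hS _ h ∅ (Finset.empty_subset _)

theorem arr_noPS (hS : Down S) (hf : Fan S p) (hW : Walls S p) : NoPS S p := by
  classical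
  have hli := li hS hf
  have hex := fun H hH x => star_exists hS hf H hH x
  have hun := fun H hH x c c' h h' => star_unique hS hf H hH x c c' h h'
  have hc : ∀ H w, ∃ c : V → ℝ, H ∈ S → IsStar S p H (p w) c := by
    intro H w
    by_cases hH : H ∈ S
    · obtain ⟨c, hc⟩ := hex H hH (p w)
      exact ⟨c, fun _ => hc⟩
    · exact ⟨0, fun h => absurd h hH⟩
  choose c hc using hc
  refine noPS_of_maps hS (Fan.empty_mem hS hf) hli c (fun H hH w => (hc H w hH).2.2.2)
    (fun H hH w v hv => (hc H w hH).2.1 v hv) ?_ ?_ ?_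
  · intro H hH σ hσ w hw w' hw' v v' hv hv'
    obtain ⟨G, hG, hHG, h⟩ := carried hS hli hex hun hW H hH σ hσ
    refine hS G hG _ ?_
    rw [Finset.insert_subset_iff, Finset.insert_subset_iff]
    exact ⟨h w hw _ (hc H w hH) v hv, h w' hw' _ (hc H w' hH) v' hv', hHG⟩
  · intro H hH w hw hwH
    refine hun H hH (p w) _ _ (hc H w hH) ⟨?_, ?_, ?_, ?_⟩
    · intro v
      rw [Pi.single_apply]
      split_ifs <;> norm_num
    · intro v hv
      rw [Pi.single_apply, if_neg]
      rintro rfl
      exact hw hv
    · refine hS _ hwH _ ?_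
      intro v hv
      rcases Finset.mem_union.1 hv with hv | hv
      · rw [Finset.mem_filter, Pi.single_apply] at hv
        by_cases h : v = w
        · rw [h]
          exact Finset.mem_insert_self w H
        · rw [if_neg h] at hv
          exact absurd rfl hv.2
      · exact Finset.mem_insert_of_mem hv
    · have : p w - ∑ v, (Pi.single w (1 : ℝ) : V → ℝ) v • p v = 0 := by
        rw [Finset.sum_eq_single w]
        · rw [Pi.single_eq_same, one_smul, sub_self]
        · intro v _ hv
          rw [Pi.single_eq_of_ne hv, zero_smul]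
        · intro h
          exact absurd (Finset.mem_univ w) h
      rw [this]
      exact Submodule.zero_mem _
  · intro H hH w hw
    refine hun H hH (p w) _ _ (hc H w hH) ⟨fun v => le_rfl, fun v _ => rfl, ?_, ?_⟩
    · refine hS _ hH _ ?_
      intro v hv
      rcases Finset.mem_union.1 hv with hv | hv
      · exact absurd rfl (Finset.mem_filter.1 hv).2
      · exact hv
    · have : p w - ∑ v, (0 : V → ℝ) v • p v = p w := by simp
      rw [this]
      exact Submodule.subset_span ⟨w, hw, rfl⟩

/-- fans without PSD `2`-stress bend at all faces -/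
theorem bends_of_noPS (h : NoPS S p) (H : Finset V) : Bends S p H := by
  classical
  obtain ⟨G, hG, hr⟩ := exists_pd h
  refine ⟨G, hG.posSemidef, hr, G⁻¹.mulVec (fun v => if v ∈ H then 0 else 1), ?_, ?_⟩
  · intro v hv
    rw [Matrix.mulVec_mulVec, Matrix.mul_nonsing_inv G (Matrix.isUnit_iff_isUnit_det _ |>.1 hG.isUnit),
      Matrix.one_mulVec]
    exact if_pos hv
  · intro v hv _
    rw [Matrix.mulVec_mulVec, Matrix.mul_nonsing_inv G (Matrix.isUnit_iff_isUnit_det _ |>.1 hG.isUnit),
      Matrix.one_mulVec]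
    simp only [if_neg hv]
    exact one_pos

end arr

theorem built {n d : ℕ} {S : Finset (Finset (Fin n))} {p : Fin n → Fin d → ℝ} (h : Built S p) :
    1 ≤ d ∧ Down S ∧ Fan S p ∧ NoPS S p := by
  induction h with
  | arrangement S p hd hS hf hW => exact ⟨hd, hS, hf, arr_noPS hS hf hW⟩
  | noStress S p hd hS hf h => exact ⟨hd, hS, hf, h⟩
  | plane S p hS hf h4 =>
    exact ⟨by norm_num, hS, hf, Pool.Agent.H728.BendZ05.plane_noPS hS hf (li hS hf) (fun H hH x => star_exists hS hf H hH x)
      (fun H hH x c c' h h' => star_unique hS hf H hH x c c' h h') h4⟩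
  | subdivision S p a b α β hab he hα hβ h ih =>
    obtain ⟨h1, h2, h3, h4⟩ := ih
    exact ⟨h1, sub_down h2 a b, sub_fan h2 h3 a b hab he α β hα hβ,
      sub_noPS h2 h4 a b hab he α β hα hβ⟩
  | join S p T q h h' ih ih' =>
    obtain ⟨h1, h2, h3, h4⟩ := ih
    obtain ⟨h1', h2', h3', h4'⟩ := ih'
    obtain ⟨h5, h6⟩ := join_noPS h2 h2' h4 h4'
    exact ⟨by omega, h5, join_fan h3 h3', h6⟩

theorem bent {n d : ℕ} {S : Finset (Finset (Fin n))} {p : Fin n → Fin d → ℝ} (h : Bent S p) :
    Down S ∧ Fan S p ∧ ∀ H ∈ S, Bends S p H := by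
  induction h with
  | built S p h =>
    obtain ⟨-, hS, hf, hn⟩ := Pool.Agent.H128.Bend.built h
    exact ⟨hS, hf, fun H _ => bends_of_noPS hn H⟩
  | bends S p hS hf hb => exact ⟨hS, hf, hb⟩
  | convex S p hS hf G hG hr y hy => exact ⟨hS, hf, fun H hH => bends_of_convex hG hr hy H hH⟩
  | refinement S p hS hf N D T q π hr h ih =>
    refine ⟨hS, hf, fun H hH => ?_⟩
    have hc : ∀ i v, ∃ c : Fin (N i) → ℝ, (∀ w, 0 ≤ c w) ∧
        (Finset.univ.filter fun w => c w ≠ 0) ∈ T i ∧ ∑ w, c w • q i w = π i (p v) :=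
      fun i v => ((ih i).2.1 (π i (p v))).exists
    choose c hc0 hc1 hc2 using hc
    exact refine_bends N D T q π (fun i => (ih i).1) (fun i => (ih i).2.1) (fun i => (ih i).2.2) hr c
      hc0 hc1 hc2 H hH fun v hv hvH => refine_pos hS (li hS hf) (fun H hH x => star_exists hS hf H hH x)
        N D T q π (fun i => (ih i).1) (fun i => (ih i).2.1) hr c hc0 hc1 hc2 H v hv hvH

/-- The fan is in the class `Bent`, or it is a complete simplicial fan in `ℝ^d` which bends at all faces `H` for which
`d - |H|` is odd. -/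
def Admissible {n d : ℕ} (S : Finset (Finset (Fin n))) (p : Fin n → Fin d → ℝ) : Prop :=
  Bent S p ∨ (Down S ∧ Fan S p ∧ ∀ H ∈ S, Odd (d - H.card) → Bends S p H)

theorem admissible {n d : ℕ} {S : Finset (Finset (Fin n))} {p : Fin n → Fin d → ℝ}
    (h : Admissible S p) : Down S ∧ Fan S p ∧ ∀ H ∈ S, Odd (d - H.card) → Bends S p H := by
  rcases h with h | h
  · obtain ⟨h1, h2, h3⟩ := bent h
    exact ⟨h1, h2, fun H hH _ => h3 H hH⟩
  · exact h

end Pool.Agent.H128.Bend

namespace Pool.Agent.H128.Fan

open Pool.Agent.Helper611.ZBase MvPolynomial Pool.Agent.H128.Bend.Lem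

variable {V : Type} [Fintype V] [LinearOrder V] {d : ℕ} {Γ : Cx V} {p : V → (Fin d → ℝ)}

/-- **The Charney-Davis inequality for the links of complete simplicial fans with bendings.** -/
theorem charney_davisB (hf : IsFan Γ p) (hd : 1 ≤ d)
    (hb : ∀ H ∈ Γ.faces, Odd (d - H.card) → Pool.Agent.H128.Bend.Bends Γ.faces p H) (H : Finset V)
    (hH : H ∈ Γ.faces) (m : ℕ) (hm : d = 2 * m + H.card) :
    0 ≤ (-1 : ℚ) ^ m * ∑ σ ∈ lkf Γ H, (-1 / 2 : ℚ) ^ σ.card := by
  obtain ⟨n, M, h1, h2, h3, h4⟩ := exists_clB hb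
  obtain ⟨φ, ξ, τ, h⟩ := exists_data hf hd
  exact h.cdB (M := M) ⟨h1, h2, h3⟩ h4 hH m hm

end Pool.Agent.H128.Fan
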