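import Pool.Agent.H128.Bend.Defs

set_option autoImplicit false
set_option linter.unusedSectionVars false

/-! Complete simplicial fans: quadrangles and common refinements. Definitions. -/

namespace Pool.Agent.H128.Bend

/-- `x` is in the cone spanned by the vectors `q w`, `w ∈ τ`. -/
def InCone {W : Type} [Fintype W] {e : ℕ} (q : W → Fin e → ℝ) (τ : Finset W) (x : Fin e → ℝ) : Prop :=
  ∃ c : W → ℝ, (∀ w, 0 ≤ c w) ∧ (∀ w, w ∉ τ → c w = 0) ∧ ∑ w, c w • q w = x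

/-- The cycle with the four edges `{0, 1}`, `{1, 2}`, `{2, 3}`, `{3, 0}`. -/
def cycle4 : Finset (Finset (Fin 4)) :=
  {∅, {0}, {1}, {2}, {3}, {0, 1}, {1, 2}, {2, 3}, {3, 0}}

/-- The fan `(S, p)` in `ℝ^d` is the common refinement of the preimages of the fans `(T i, q i)` under the linear maps
`π i`: each cone of `S` is mapped into a cone of `T i`, and if for every `i` the images of two cones `σ`, `σ'` of `S` lie
in a common cone of `T i`, then `σ` and `σ'` lie in a common cone of `S`. -/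
def IsCommonRefinement {n d r : ℕ} (S : Finset (Finset (Fin n))) (p : Fin n → Fin d → ℝ) (N D : Fin r → ℕ)
    (T : ∀ i, Finset (Finset (Fin (N i)))) (q : ∀ i, Fin (N i) → Fin (D i) → ℝ)
    (π : ∀ i, (Fin d → ℝ) →ₗ[ℝ] (Fin (D i) → ℝ)) : Prop :=
  (∀ i, ∀ σ ∈ S, ∃ τ ∈ T i, ∀ v ∈ σ, InCone (q i) τ (π i (p v))) ∧
  ∀ σ ∈ S, ∀ σ' ∈ S, (∀ i, ∃ τ ∈ T i, ∀ v ∈ σ ∪ σ', InCone (q i) τ (π i (p v))) → σ ∪ σ' ∈ S

end Pool.Agent.H128.Bend
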