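import Pool.Agent.H128.Bend.Defs

set_option autoImplicit false
set_option linter.unusedSectionVars false

/-! Y01 (`li`) and Y03 (`star_unique`) of the project Bend of helper128. -/

namespace Pool.Agent.H972.BendY01

open Pool.Agent.H128.Bend

section arr
variable {V : Type} [Fintype V] [DecidableEq V] {d : ℕ} {S : Finset (Finset V)} {p : V → Fin d → ℝ}

theorem uniq (hS : Down S) (hf : Fan S p) {F F' : Finset V} (hF : F ∈ S) (hF' : F' ∈ S)
    {c c' : V → ℝ} (hc : ∀ v, 0 ≤ c v) (hc' : ∀ v, 0 ≤ c' v) (h1 : ∀ v, c v ≠ 0 → v ∈ F)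
    (h2 : ∀ v, c' v ≠ 0 → v ∈ F') (h : ∑ v, c v • p v = ∑ v, c' v • p v) : c = c' := by
  refine (hf (∑ v, c' v • p v)).unique ⟨hc, hS F hF _ ?_, h⟩ ⟨hc', hS F' hF' _ ?_, rfl⟩
  · intro v hv
    exact h1 v (Finset.mem_filter.1 hv).2
  · intro v hv
    exact h2 v (Finset.mem_filter.1 hv).2

/-- Y01. -/
theorem li (hS : Down S) (hf : Fan S p) : ∀ F ∈ S, LinearIndependent ℝ (fun v : F => p v) := by
  intro F hF
  have key : LinearIndepOn ℝ p (F : Set V) := by
    rw [linearIndepOn_finset_iff]
    intro f h0 v hv
    have h := uniq hS hf hF hF (c := fun v => if v ∈ F then max (f v) 0 else 0)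
      (c' := fun v => if v ∈ F then max (-f v) 0 else 0)
      (fun v => by by_cases h : v ∈ F <;> simp [h])
      (fun v => by by_cases h : v ∈ F <;> simp [h])
      (fun v hv => by by_contra h; simp [h] at hv)
      (fun v hv => by by_contra h; simp [h] at hv) (by
        simp only [ite_smul, zero_smul, Finset.sum_ite_mem, Finset.univ_inter]
        rw [← sub_eq_zero, ← Finset.sum_sub_distrib, ← h0]
        refine Finset.sum_congr rfl fun v _ => ?_
        rw [← sub_smul]
        congr 1
        rcases le_total (f v) 0 with h | h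
        · rw [max_eq_right h, max_eq_left (by linarith)]
          ring
        · rw [max_eq_left h, max_eq_right (by linarith)]
          ring)
    have h2 := congrFun h v
    simp only [hv, if_true] at h2
    rcases le_total (f v) 0 with h | h
    · rw [max_eq_right h, max_eq_left (by linarith)] at h2
      linarith
    · rw [max_eq_left h, max_eq_right (by linarith)] at h2
      linarith
  exact key

theorem span_coef {H : Finset V} {y : Fin d → ℝ} (h : y ∈ Submodule.span ℝ (p '' (H : Set V))) :
    ∃ b : V → ℝ, ∑ v ∈ H, b v • p v = y := by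
  rw [Submodule.mem_span_image_finset_iff_exists_fun] at h
  obtain ⟨a, ha⟩ := h
  refine ⟨fun v => if hv : v ∈ H then a ⟨v, hv⟩ else 0, ?_⟩
  rw [← ha, ← Finset.sum_coe_sort H]
  refine Finset.sum_congr rfl fun i _ => ?_
  simp only [i.2, dif_pos]

/-- Y03. -/
theorem star_unique (hS : Down S) (hf : Fan S p) (H : Finset V) (hH : H ∈ S) (x : Fin d → ℝ)
    (c c' : V → ℝ) (h : IsStar S p H x c) (h' : IsStar S p H x c') : c = c' := by
  obtain ⟨h1, h2, h3, h4⟩ := h
  obtain ⟨h1', h2', h3', h4'⟩ := h'
  obtain ⟨a, ha⟩ := span_coef h4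
  obtain ⟨a', ha'⟩ := span_coef h4'
  obtain ⟨t, ht⟩ : ∃ t : ℝ, t = ∑ v, (|a v| + |a' v|) := ⟨_, rfl⟩
  have hle : ∀ v, |a v| + |a' v| ≤ t := by
    intro v
    rw [ht]
    exact Finset.single_le_sum (f := fun v => |a v| + |a' v|) (fun v _ => by positivity)
      (Finset.mem_univ v)
  have hsum : ∀ (c a : V → ℝ), (∀ v ∈ H, c v = 0) →
      ∑ v ∈ H, a v • p v = x - ∑ v, c v • p v →
      ∑ v, (if v ∈ H then a v + t else c v) • p v = x + t • ∑ v ∈ H, p v := by
    intro c a hc ha
    have e1 : ∀ v, (if v ∈ H then a v + t else c v) • p v =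
        c v • p v + if v ∈ H then (a v • p v + t • p v) else 0 := by
      intro v
      by_cases hv : v ∈ H
      · simp [hv, hc v hv, add_smul]
      · simp [hv]
    simp only [e1]
    rw [Finset.sum_add_distrib, Finset.sum_ite_mem, Finset.univ_inter, Finset.sum_add_distrib, ha,
      Finset.smul_sum]
    abel
  have key := uniq hS hf h3 h3' (c := fun v => if v ∈ H then a v + t else c v)
    (c' := fun v => if v ∈ H then a' v + t else c' v)
    (fun v => by
      by_cases hv : v ∈ H
      · simp only [hv, if_true]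
        linarith [hle v, neg_abs_le (a v), abs_nonneg (a' v)]
      · simp only [hv, if_false]
        exact h1 v)
    (fun v => by
      by_cases hv : v ∈ H
      · simp only [hv, if_true]
        linarith [hle v, neg_abs_le (a' v), abs_nonneg (a v)]
      · simp only [hv, if_false]
        exact h1' v)
    (fun v hv => by
      by_cases hvH : v ∈ H
      · exact Finset.mem_union_right _ hvH
      · simp only [hvH, if_false] at hv
        exact Finset.mem_union_left _ (Finset.mem_filter.2 ⟨Finset.mem_univ v, hv⟩))
    (fun v hv => by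
      by_cases hvH : v ∈ H
      · exact Finset.mem_union_right _ hvH
      · simp only [hvH, if_false] at hv
        exact Finset.mem_union_left _ (Finset.mem_filter.2 ⟨Finset.mem_univ v, hv⟩))
    ((hsum c a h2 ha).trans (hsum c' a' h2' ha').symm)
  funext v
  by_cases hv : v ∈ H
  · rw [h2 v hv, h2' v hv]
  · have h5 := congrFun key v
    simp only [hv, if_false] at h5
    exact h5

end arr

end Pool.Agent.H972.BendY01
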