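import Pool.Agent.H128.Bend.Defs

set_option autoImplicit false
set_option linter.unusedSectionVars false

/-! Y02: coordinates in the link fan exist. -/

namespace Pool.Agent.H20.Bend

open Pool.Agent.H128.Bend

variable {V : Type} [Fintype V] [DecidableEq V] {d : ℕ} {S : Finset (Finset V)} {p : V → Fin d → ℝ}

/-- two nonnegative representations supported in faces agree -/
theorem fan_unique (hf : Fan S p) (a b : V → ℝ) (ha : ∀ v, 0 ≤ a v) (hb : ∀ v, 0 ≤ b v)
    (hsa : (Finset.univ.filter fun v => a v ≠ 0) ∈ S)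
    (hsb : (Finset.univ.filter fun v => b v ≠ 0) ∈ S)
    (h : ∑ v, a v • p v = ∑ v, b v • p v) : a = b :=
  (hf (∑ v, b v • p v)).unique ⟨ha, hsa, h⟩ ⟨hb, hsb, rfl⟩

/-- the vectors of a face are linearly independent -/
theorem zero_of_sum (hS : Down S) (hf : Fan S p) (G : Finset V) (hG : G ∈ S) (a : V → ℝ)
    (ha : ∀ v, v ∉ G → a v = 0) (h : ∑ v, a v • p v = 0) : ∀ v, a v = 0 := by
  have key : (fun v => max (a v) 0) = (fun v => max (-a v) 0) := by
    apply fan_unique hf
    · intro v; exact le_max_right _ _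
    · intro v; exact le_max_right _ _
    · apply hS G hG
      intro v hv
      rw [Finset.mem_filter] at hv
      by_contra hvG
      apply hv.2
      simp only [ha v hvG, max_self]
    · apply hS G hG
      intro v hv
      rw [Finset.mem_filter] at hv
      by_contra hvG
      apply hv.2
      simp only [ha v hvG, neg_zero, max_self]
    · rw [← sub_eq_zero, ← Finset.sum_sub_distrib, ← h]
      apply Finset.sum_congr rfl
      intro v _
      rw [← sub_smul]
      congr 1
      rcases le_total (a v) 0 with h0 | h0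
      · rw [max_eq_right h0, max_eq_left (by linarith)]; ring
      · rw [max_eq_left h0, max_eq_right (by linarith)]; ring
  intro v
  have h1 : max (a v) 0 = max (-a v) 0 := congrFun key v
  rcases le_total (a v) 0 with h0 | h0
  · rw [max_eq_right h0, max_eq_left (by linarith)] at h1; linarith
  · rw [max_eq_left h0, max_eq_right (by linarith)] at h1; linarith

/-- Y02. -/
theorem star_exists (hS : Down S) (hf : Fan S p) (H : Finset V) (hH : H ∈ S) (x : Fin d → ℝ) :
    ∃ c, IsStar S p H x c := by
  set s : Fin d → ℝ := ∑ v ∈ H, p v with hs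
  have hex : ∀ t : ℕ, ∃ c : V → ℝ, (∀ v, 0 ≤ c v) ∧
      (Finset.univ.filter fun v => c v ≠ 0) ∈ S ∧ ∑ v, c v • p v = x + (t : ℝ) • s :=
    fun t => (hf (x + (t : ℝ) • s)).exists
  choose c hc0 hcS hcx using hex
  -- pigeonhole
  obtain ⟨G, hG⟩ := Finite.exists_infinite_fiber
    (fun t : ℕ => (⟨Finset.univ.filter fun v => c t v ≠ 0, hcS t⟩ : {F // F ∈ S}))
  rw [Set.infinite_coe_iff] at hG
  obtain ⟨G, hGS⟩ := G
  have hfib : ∀ t : ℕ, t ∈ (fun t : ℕ =>
      (⟨Finset.univ.filter fun v => c t v ≠ 0, hcS t⟩ : {F // F ∈ S})) ⁻¹' {⟨G, hGS⟩} →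
      ∀ v, v ∉ G → c t v = 0 := by
    intro t ht v hv
    rw [Set.mem_preimage, Set.mem_singleton_iff, Subtype.mk.injEq] at ht
    by_contra h0
    apply hv
    rw [← ht, Finset.mem_filter]
    exact ⟨Finset.mem_univ _, h0⟩
  set I := (fun t : ℕ =>
      (⟨Finset.univ.filter fun v => c t v ≠ 0, hcS t⟩ : {F // F ∈ S})) ⁻¹' {⟨G, hGS⟩} with hI
  obtain ⟨t1, ht1⟩ := hG.nonempty
  obtain ⟨t2, ht2, h12⟩ := hG.exists_gt t1
  have h12' : (0 : ℝ) < (t2 : ℝ) - t1 := by
    have : (t1 : ℝ) < t2 := by exact_mod_cast h12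
    linarith
  set sv : V → ℝ := fun v => (c t2 v - c t1 v) / ((t2 : ℝ) - t1) with hsv
  have hsv0 : ∀ v, v ∉ G → sv v = 0 := by
    intro v hv
    simp only [hsv, hfib t1 ht1 v hv, hfib t2 ht2 v hv, sub_self, zero_div]
  have hssum : ∑ v, sv v • p v = s := by
    have e1 : ∑ v, sv v • p v = ((t2 : ℝ) - t1)⁻¹ • (∑ v, c t2 v • p v - ∑ v, c t1 v • p v) := by
      rw [← Finset.sum_sub_distrib, Finset.smul_sum]
      apply Finset.sum_congr rfl
      intro v _
      rw [← sub_smul, smul_smul]
      congr 1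
      simp only [hsv]
      rw [div_eq_inv_mul]
    rw [e1, hcx t2, hcx t1]
    have e2 : x + (t2 : ℝ) • s - (x + (t1 : ℝ) • s) = ((t2 : ℝ) - t1) • s := by
      rw [sub_smul]; abel
    rw [e2, smul_smul, inv_mul_cancel₀ h12'.ne', one_smul]
  -- the coordinates are affine functions of `t`
  have haff : ∀ t ∈ I, ∀ v, c t v = c t1 v + ((t : ℝ) - t1) * sv v := by
    intro t ht v
    have h0 : ∀ v, c t v - c t1 v - ((t : ℝ) - t1) * sv v = 0 := by
      apply zero_of_sum hS hf G hGS
      · intro w hw
        rw [hfib t ht w hw, hfib t1 ht1 w hw, hsv0 w hw]; ring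
      · have e3 : ∑ v, (c t v - c t1 v - ((t : ℝ) - t1) * sv v) • p v =
            ∑ v, c t v • p v - ∑ v, c t1 v • p v - ((t : ℝ) - t1) • ∑ v, sv v • p v := by
          rw [Finset.smul_sum, ← Finset.sum_sub_distrib, ← Finset.sum_sub_distrib]
          apply Finset.sum_congr rfl
          intro w _
          rw [sub_smul, sub_smul, smul_smul]
        rw [e3, hcx t, hcx t1, hssum, sub_smul]; abel
    have := h0 v
    linarith
  have hsvnn : ∀ v, 0 ≤ sv v := by
    intro v
    by_contra hneg
    push Not at hneg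
    obtain ⟨N, hN⟩ := exists_nat_gt ((t1 : ℝ) + c t1 v / (-sv v))
    obtain ⟨t, ht, hNt⟩ := hG.exists_gt N
    have h1 := haff t ht v
    have h2 := hc0 t v
    have h3 : (N : ℝ) < t := by exact_mod_cast hNt
    have h4 : c t1 v / (-sv v) < (t : ℝ) - t1 := by linarith
    rw [div_lt_iff₀ (by linarith)] at h4
    nlinarith
  have hone : sv = fun v => if v ∈ H then (1 : ℝ) else 0 := by
    apply fan_unique hf _ _ hsvnn
    · intro v; split_ifs <;> norm_num
    · apply hS G hGS
      intro v hv
      rw [Finset.mem_filter] at hv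
      by_contra hvG
      exact hv.2 (hsv0 v hvG)
    · apply hS H hH
      intro v hv
      rw [Finset.mem_filter] at hv
      by_contra hvH
      apply hv.2
      simp only [if_neg hvH]
    · rw [hssum, hs]
      simp only [ite_smul, one_smul, zero_smul, Finset.sum_ite_mem, Finset.univ_inter]
  have hHG : H ⊆ G := by
    intro v hv
    by_contra hvG
    have h1 := hsv0 v hvG
    rw [hone] at h1
    simp only [if_pos hv] at h1
    exact one_ne_zero h1
  refine ⟨fun v => if v ∈ H then 0 else c t1 v, ?_, ?_, ?_, ?_⟩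
  · intro v
    show 0 ≤ (if v ∈ H then 0 else c t1 v)
    split_ifs
    · exact le_rfl
    · exact hc0 t1 v
  · intro v hv
    simp only [if_pos hv]
  · apply hS G hGS
    intro v hv
    rw [Finset.mem_union, Finset.mem_filter] at hv
    rcases hv with hv | hv
    · by_contra hvG
      apply hv.2
      show (if v ∈ H then 0 else c t1 v) = 0
      rw [hfib t1 ht1 v hvG]
      simp only [ite_self]
    · exact hHG hv
  · have e4 : x - ∑ v, (if v ∈ H then 0 else c t1 v) • p v = ∑ v ∈ H, (c t1 v - t1) • p v := by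
      have e5 : x = ∑ v, c t1 v • p v - (t1 : ℝ) • s := by rw [hcx t1]; abel
      have e6 : ∑ v ∈ H, (c t1 v - t1) • p v =
          ∑ v, (if v ∈ H then c t1 v else 0) • p v - (t1 : ℝ) • s := by
        simp only [ite_smul, zero_smul, Finset.sum_ite_mem, Finset.univ_inter]
        rw [hs, Finset.smul_sum, ← Finset.sum_sub_distrib]
        apply Finset.sum_congr rfl
        intro v _
        rw [sub_smul]
      rw [e6]
      have e7 : ∑ v, (if v ∈ H then c t1 v else 0) • p v =
          ∑ v, c t1 v • p v - ∑ v, (if v ∈ H then 0 else c t1 v) • p v := by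
        rw [← Finset.sum_sub_distrib]
        apply Finset.sum_congr rfl
        intro v _
        rw [← sub_smul]
        congr 1
        split_ifs <;> ring
      rw [e7]
      nth_rewrite 1 [e5]
      abel
    rw [e4]
    apply Submodule.sum_mem
    intro v hv
    apply Submodule.smul_mem
    apply Submodule.subset_span
    exact ⟨v, hv, rfl⟩

end Pool.Agent.H20.Bend
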