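import Pool.Agent.H128.Bend.Defs

set_option autoImplicit false
set_option linter.unusedSectionVars false

/-! Y04 (carried) of project Bend (helper128), by helper722 -/

namespace Pool.Agent.H722.Bend

open Pool.Agent.H128.Bend

section arr
variable {V : Type} [Fintype V] [DecidableEq V] {d : ℕ} {S : Finset (Finset V)} {p : V → Fin d → ℝ}

theorem coords (K : Finset V) (hli : LinearIndependent ℝ (fun v : K => p v))
    (hsp : ∀ x : Fin d → ℝ, x ∈ Submodule.span ℝ (p '' (K : Set V))) :
    ∃ h : V → (Fin d → ℝ) →ₗ[ℝ] ℝ,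
      (∀ v ∈ K, ∀ u ∈ K, h v (p u) = if u = v then 1 else 0) ∧
      (∀ x, x = ∑ v ∈ K, h v x • p v) ∧ K.card = d := by
  classical
  have hr : Set.range (fun v : K => p v) = p '' (K : Set V) := by
    ext y
    simp only [Set.mem_range, Set.mem_image, Finset.mem_coe]
    constructor
    · rintro ⟨v, rfl⟩
      exact ⟨v, v.2, rfl⟩
    · rintro ⟨v, hv, rfl⟩
      exact ⟨⟨v, hv⟩, rfl⟩
  let b : Module.Basis K ℝ (Fin d → ℝ) := Module.Basis.mk hli (by
    rw [hr]
    exact fun x _ => hsp x)
  have hb : ∀ v : K, b v = p v := fun v => Module.Basis.mk_apply hli _ v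
  refine ⟨fun v => if hv : v ∈ K then b.coord ⟨v, hv⟩ else 0, ?_, ?_, ?_⟩
  · intro v hv u hu
    simp only [dif_pos hv]
    rw [← hb ⟨u, hu⟩, Module.Basis.coord_apply, Module.Basis.repr_self, Finsupp.single_apply]
    simp only [Subtype.mk.injEq]
  · intro x
    have h1 := b.sum_repr x
    have h2 : ∑ v ∈ K, ((if hv : v ∈ K then b.coord ⟨v, hv⟩ else 0 : (Fin d → ℝ) →ₗ[ℝ] ℝ) x) • p v =
        ∑ i : K, b.repr x i • b i := by
      rw [← Finset.sum_coe_sort K (fun v =>
        ((if hv : v ∈ K then b.coord ⟨v, hv⟩ else 0 : (Fin d → ℝ) →ₗ[ℝ] ℝ) x) • p v)]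
      refine Finset.sum_congr rfl fun i _ => ?_
      rw [dif_pos i.2, hb, Module.Basis.coord_apply]
    rw [h2, h1]
  · have h1 := Module.finrank_eq_card_basis b
    rw [Module.finrank_fin_fun, Fintype.card_coe] at h1
    exact h1.symm

/-- Y04. -/
theorem carried (hS : Down S) (hli : ∀ F ∈ S, LinearIndependent ℝ (fun v : F => p v))
    (hex : ∀ H ∈ S, ∀ x, ∃ c, IsStar S p H x c)
    (hun : ∀ H ∈ S, ∀ x c c', IsStar S p H x c → IsStar S p H x c' → c = c')
    (hW : Walls S p) (H : Finset V) (hH : H ∈ S) (σ : Finset V) (hσ : σ ∈ S) :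
    ∃ G ∈ S, H ⊆ G ∧ ∀ w ∈ σ, ∀ c, IsStar S p H (p w) c → ∀ v, c v ≠ 0 → v ∈ G := by
  classical
  obtain ⟨c0, hc0, hc1, hc2, hc3⟩ := hex H hH (∑ x ∈ σ, p x)
  -- a maximal face
  obtain ⟨K, hGK, hK⟩ := Finset.exists_le_maximal S hc2
  have hKS : K ∈ S := hK.prop
  have hmax : ∀ F ∈ S, K ⊆ F → F ⊆ K := fun F hF h => hK.le_of_ge hF h
  have hsp : ∀ x : Fin d → ℝ, x ∈ Submodule.span ℝ (p '' (K : Set V)) := by
    intro x
    obtain ⟨c, _, h2, h3, h4⟩ := hex K hKS x
    have h5 : ∀ v, c v = 0 := by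
      intro v
      by_contra hne
      have h6 : v ∈ K := hmax _ h3 Finset.subset_union_right
        (Finset.mem_union_left _ (Finset.mem_filter.2 ⟨Finset.mem_univ _, hne⟩))
      exact hne (h2 v h6)
    have h6 : ∑ v, c v • p v = 0 := Finset.sum_eq_zero fun v _ => by rw [h5, zero_smul]
    rwa [h6, sub_zero] at h4
  obtain ⟨h, hF1, hF2, hcard⟩ := coords K (hli K hKS) hsp
  have hHK : H ⊆ K := Finset.subset_union_right.trans hGK
  have hsupp : ∀ v, c0 v ≠ 0 → v ∈ K := fun v hv =>
    hGK (Finset.mem_union_left _ (Finset.mem_filter.2 ⟨Finset.mem_univ _, hv⟩))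
  -- vanishing on the span of `H`
  have hvan : ∀ v ∈ K, v ∉ H → ∀ y ∈ Submodule.span ℝ (p '' (H : Set V)), h v y = 0 := by
    intro v hv hvH y hy
    have h1 : Submodule.span ℝ (p '' (H : Set V)) ≤ LinearMap.ker (h v) := by
      rw [Submodule.span_le]
      rintro _ ⟨u, hu, rfl⟩
      have hu' : u ∈ H := hu
      rw [SetLike.mem_coe, LinearMap.mem_ker, hF1 v hv u (hHK hu'), if_neg]
      intro he
      rw [he] at hu'
      exact hvH hu'
    exact LinearMap.mem_ker.1 (h1 hy)
  -- the coordinates of the sum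
  have hxi : ∀ v ∈ K, v ∉ H → h v (∑ x ∈ σ, p x) = c0 v := by
    intro v hv hvH
    have h1 := hvan v hv hvH _ hc3
    rw [map_sub, sub_eq_zero] at h1
    rw [h1, map_sum, Finset.sum_eq_single v]
    · rw [map_smul, hF1 v hv v hv, if_pos rfl, smul_eq_mul, mul_one]
    · intro u _ hne
      rw [map_smul]
      by_cases hu : c0 u = 0
      · rw [hu, zero_smul]
      · rw [hF1 v hv u (hsupp u hu), if_neg hne, smul_zero]
    · intro hv'
      exact absurd (Finset.mem_univ _) hv'
  -- the coordinates are nonnegative on `σ`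
  have hnn : ∀ v ∈ K, v ∉ H → ∀ w ∈ σ, 0 ≤ h v (p w) := by
    intro v hv hvH w hw
    have hW1 := hW (K.erase v) (hS K hKS _ (Finset.erase_subset _ _))
      (by rw [Finset.card_erase_add_one hv, hcard]) (h v)
      (fun u hu => by
        rw [hF1 v hv u (Finset.mem_of_mem_erase hu), if_neg (Finset.ne_of_mem_erase hu)]) σ hσ
    rcases hW1 with h1 | h1
    · exact h1 w hw
    · have h2 : 0 ≤ ∑ x ∈ σ, h v (p x) := by
        rw [← map_sum, hxi v hv hvH]
        exact hc0 v
      have h3 : ∑ x ∈ σ, h v (p x) = 0 := le_antisymm (Finset.sum_nonpos h1) h2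
      have h4 := (Finset.sum_eq_zero_iff_of_nonpos h1).1 h3 w hw
      rw [h4]
  refine ⟨K, hKS, hHK, fun w hw c hc v hv => ?_⟩
  -- the star coordinates of `p w`
  have hc' : IsStar S p H (p w) (fun v => if v ∈ K \ H then h v (p w) else 0) := by
    refine ⟨?_, ?_, ?_, ?_⟩
    · intro u
      show 0 ≤ (if u ∈ K \ H then h u (p w) else 0)
      split_ifs with hu
      · rw [Finset.mem_sdiff] at hu
        exact hnn u hu.1 hu.2 w hw
      · exact le_rfl
    · intro u hu
      show (if u ∈ K \ H then h u (p w) else 0) = 0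
      rw [if_neg]
      intro hu'
      exact (Finset.mem_sdiff.1 hu').2 hu
    · apply hS K hKS
      apply Finset.union_subset _ hHK
      intro u hu
      rw [Finset.mem_filter] at hu
      by_contra hne
      apply hu.2
      show (if u ∈ K \ H then h u (p w) else 0) = 0
      rw [if_neg]
      intro hu'
      exact hne (Finset.mem_sdiff.1 hu').1
    · have h1 : ∑ u, (if u ∈ K \ H then h u (p w) else 0) • p u = ∑ u ∈ K \ H, h u (p w) • p u := by
        have h2 : ∀ u, (if u ∈ K \ H then h u (p w) else 0) • p u =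
            if u ∈ K \ H then h u (p w) • p u else 0 := by
          intro u
          split_ifs
          · rfl
          · rw [zero_smul]
        simp_rw [h2]
        rw [Finset.sum_ite_mem, Finset.univ_inter]
      have h3 : p w = ∑ u ∈ K \ H, h u (p w) • p u + ∑ u ∈ H, h u (p w) • p u := by
        rw [Finset.sum_sdiff hHK]
        exact hF2 (p w)
      show p w - ∑ u, (if u ∈ K \ H then h u (p w) else 0) • p u ∈ _
      rw [h1]
      have h4 : p w - ∑ u ∈ K \ H, h u (p w) • p u = ∑ u ∈ H, h u (p w) • p u := by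
        rw [sub_eq_iff_eq_add, add_comm]
        exact h3
      rw [h4]
      exact Submodule.sum_mem _ fun u hu =>
        Submodule.smul_mem _ _ (Submodule.subset_span ⟨u, hu, rfl⟩)
  have heq := hun H hH _ _ _ hc hc'
  by_contra hne
  apply hv
  rw [heq]
  show (if v ∈ K \ H then h v (p w) else 0) = 0
  rw [if_neg]
  intro hv'
  exact hne (Finset.mem_sdiff.1 hv').1

end arr

end Pool.Agent.H722.Bend
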