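import Pool.Agent.H128.Bend.Defs

set_option autoImplicit false
set_option linter.unusedSectionVars false

/-! Y05 (helper976): downward induction over the faces with positive semidefinite matrices. -/

namespace Pool.Agent.H976.Bend

open Pool.Agent.H128.Bend

section arr
variable {V : Type} [Fintype V] [DecidableEq V] {d : ℕ} {S : Finset (Finset V)} {p : V → Fin d → ℝ}

theorem not_span (hli : ∀ F ∈ S, LinearIndependent ℝ (fun v : F => p v)) (F : Finset V) (u : V)
    (hu : u ∉ F) (hS : insert u F ∈ S) : p u ∉ Submodule.span ℝ (p '' (F : Set V)) := by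
  have h1 := hli _ hS
  have h2 : (⟨u, Finset.mem_insert_self u F⟩ : ↥(insert u F)) ∉
      ({x | (x : V) ∈ F} : Set ↥(insert u F)) := hu
  have h3 := h1.notMem_span_image h2
  have h4 : (fun v : ↥(insert u F) => p v) '' {x | (x : V) ∈ F} = p '' (F : Set V) := by
    ext y
    constructor
    · rintro ⟨x, hx, rfl⟩
      exact ⟨x, hx, rfl⟩
    · rintro ⟨x, hx, rfl⟩
      exact ⟨⟨x, Finset.mem_insert_of_mem hx⟩, hx, rfl⟩
  rw [h4] at h3
  exact h3

theorem entry (A C : Matrix V V ℝ) (a b : V) :
    (C.conjTranspose * A * C) a b = ∑ w', (∑ w, C w a * A w w') * C w' b := by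
  rw [Matrix.mul_apply]
  refine Finset.sum_congr rfl fun w' _ => ?_
  rw [Matrix.mul_apply]
  congr 1

theorem key (hS : Down S) (hli : ∀ F ∈ S, LinearIndependent ℝ (fun v : F => p v))
    (c : Finset V → V → V → ℝ)
    (h1 : ∀ H ∈ S, ∀ w, p w - ∑ v, c H w v • p v ∈ Submodule.span ℝ (p '' (H : Set V)))
    (h2 : ∀ H ∈ S, ∀ w, ∀ v ∈ H, c H w v = 0)
    (h3 : ∀ H ∈ S, ∀ σ ∈ S, ∀ w ∈ σ, ∀ w' ∈ σ, ∀ v v', c H w v ≠ 0 → c H w' v' ≠ 0 →
      insert v (insert v' H) ∈ S)
    (h4 : ∀ H ∈ S, ∀ w, w ∉ H → insert w H ∈ S → c H w = Pi.single w 1)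
    (h5 : ∀ H ∈ S, ∀ w ∈ H, c H w = 0) : ∀ (k : ℕ) (F : Finset V), F ∈ S →
    Fintype.card V ≤ F.card + k → ∀ A : Matrix V V ℝ, A.PosSemidef →
    (∀ u v, A u v ≠ 0 → u ∉ F ∧ v ∉ F ∧ insert u (insert v F) ∈ S) →
    (∀ u, ∑ v, A u v • p v ∈ Submodule.span ℝ (p '' (F : Set V))) → A = 0 := by
  intro k
  induction k with
  | zero =>
    intro F _ hcard A _ hi _
    have hF : F = Finset.univ := by
      rw [← Finset.card_eq_iff_eq_univ]
      have := Finset.card_le_univ F
      omega
    ext u v
    by_contra hne
    exact (hi u v hne).1 (hF ▸ Finset.mem_univ u)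
  | succ k ih =>
    intro F hF hcard A hA hi hii
    -- the rows
    have row : ∀ u, u ∉ F → insert u F ∈ S → ∀ a, ∑ w, A u w * c (insert u F) w a = 0 := by
      intro u hu hH a
      obtain ⟨H, hHdef⟩ : ∃ H : Finset V, H = insert u F := ⟨_, rfl⟩
      rw [← hHdef] at hH ⊢
      have hFH : F ⊆ H := by rw [hHdef]; exact Finset.subset_insert _ _
      have hcH : Fintype.card V ≤ H.card + k := by
        rw [hHdef, Finset.card_insert_of_notMem hu]
        omega
      obtain ⟨C, hC⟩ : ∃ C : Matrix V V ℝ, C = Matrix.of fun w a => c H w a := ⟨_, rfl⟩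
      have hCe : ∀ w a, C w a = c H w a := fun w a => by rw [hC]; rfl
      have hB : (C.conjTranspose * A * C).PosSemidef := hA.conjTranspose_mul_mul_same C
      have hB0 : C.conjTranspose * A * C = 0 := by
        refine ih H hH hcH _ hB ?_ ?_
        · intro a b hab
          rw [entry] at hab
          obtain ⟨w', -, hw'⟩ := Finset.exists_ne_zero_of_sum_ne_zero hab
          have e1 : C w' b ≠ 0 := right_ne_zero_of_mul hw'
          obtain ⟨w, -, hw⟩ := Finset.exists_ne_zero_of_sum_ne_zero (left_ne_zero_of_mul hw')
          have e2 : C w a ≠ 0 := left_ne_zero_of_mul hw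
          have e3 : A w w' ≠ 0 := right_ne_zero_of_mul hw
          rw [hCe] at e1 e2
          obtain ⟨-, -, hσ⟩ := hi w w' e3
          refine ⟨fun h => e2 (h2 H hH w a h), fun h => e1 (h2 H hH w' b h), ?_⟩
          exact h3 H hH _ hσ w (Finset.mem_insert_self _ _) w'
            (Finset.mem_insert_of_mem (Finset.mem_insert_self _ _)) a b e2 e1
        · intro a
          have e1 : ∑ b, (C.conjTranspose * A * C) a b • p b =
              ∑ w', (∑ w, C w a * A w w') • ∑ b, C w' b • p b := by
            calc ∑ b, (C.conjTranspose * A * C) a b • p b =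
                ∑ b, ∑ w', (∑ w, C w a * A w w') • C w' b • p b := by
                  refine Finset.sum_congr rfl fun b _ => ?_
                  rw [entry, Finset.sum_smul]
                  exact Finset.sum_congr rfl fun w' _ => by rw [mul_smul]
              _ = ∑ w', ∑ b, (∑ w, C w a * A w w') • C w' b • p b := Finset.sum_comm
              _ = _ := Finset.sum_congr rfl fun w' _ => by rw [Finset.smul_sum]
          have e2 : ∑ w', (∑ w, C w a * A w w') • ∑ b, C w' b • p b =
              ∑ w, C w a • ∑ w', A w w' • p w' -
                ∑ w', (∑ w, C w a * A w w') • (p w' - ∑ b, C w' b • p b) := by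
            have e3 : ∑ w, C w a • ∑ w', A w w' • p w' =
                ∑ w', (∑ w, C w a * A w w') • p w' := by
              calc ∑ w, C w a • ∑ w', A w w' • p w' =
                  ∑ w, ∑ w', (C w a * A w w') • p w' := by
                    refine Finset.sum_congr rfl fun w _ => ?_
                    rw [Finset.smul_sum]
                    exact Finset.sum_congr rfl fun w' _ => by rw [mul_smul]
                _ = ∑ w', ∑ w, (C w a * A w w') • p w' := Finset.sum_comm
                _ = _ := Finset.sum_congr rfl fun w' _ => by rw [Finset.sum_smul]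
            rw [e3, ← Finset.sum_sub_distrib]
            refine Finset.sum_congr rfl fun w' _ => ?_
            rw [smul_sub]
            abel
          rw [e1, e2]
          apply Submodule.sub_mem
          · apply Submodule.sum_mem
            intro w _
            apply Submodule.smul_mem
            exact Submodule.span_mono (Set.image_mono (Finset.coe_subset.2 hFH)) (hii w)
          · apply Submodule.sum_mem
            intro w' _
            apply Submodule.smul_mem
            have := h1 H hH w'
            simp only [hCe]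
            exact this
      have hcol : A.mulVec (fun w => C w a) = 0 := by
        rw [← hA.dotProduct_mulVec_zero_iff]
        have e1 : (C.conjTranspose * A * C) a a = 0 := by rw [hB0]; rfl
        rw [entry] at e1
        rw [← e1]
        unfold dotProduct Matrix.mulVec dotProduct
        calc ∑ i, (star fun w => C w a) i * ∑ j, A i j * C j a =
            ∑ i, ∑ j, C i a * A i j * C j a := by
              refine Finset.sum_congr rfl fun i _ => ?_
              rw [Finset.mul_sum]
              refine Finset.sum_congr rfl fun j _ => ?_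
              rw [← mul_assoc]
              rfl
          _ = ∑ j, ∑ i, C i a * A i j * C j a := Finset.sum_comm
          _ = _ := Finset.sum_congr rfl fun j _ => by rw [Finset.sum_mul]
      have := congrFun hcol u
      unfold Matrix.mulVec dotProduct at this
      simp only [hCe] at this
      exact this
    -- the matrix is diagonal
    have offd : ∀ u a, u ≠ a → A u a = 0 := by
      intro u a hua
      by_contra hne
      obtain ⟨hu, ha, hσ⟩ := hi u a hne
      have hH : insert u F ∈ S := hS _ hσ _ (Finset.insert_subset_insert _ (Finset.subset_insert _ _))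
      have hr := row u hu hH a
      have e : ∀ w, A u w * c (insert u F) w a = if w = a then A u a else 0 := by
        intro w
        by_cases hw : A u w = 0
        · rw [hw, zero_mul]
          split_ifs with h
          · rw [← h, hw]
          · rfl
        · obtain ⟨-, hwF, hσw⟩ := hi u w hw
          by_cases hwu : w = u
          · rw [hwu, h5 _ hH u (Finset.mem_insert_self _ _)]
            rw [if_neg hua]
            simp
          · have hwH : w ∉ insert u F := by
              rw [Finset.mem_insert]
              push Not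
              exact ⟨hwu, hwF⟩
            have hwS : insert w (insert u F) ∈ S := by
              rw [Finset.insert_comm]
              exact hσw
            rw [h4 _ hH w hwH hwS]
            by_cases hwa : w = a
            · rw [if_pos hwa, hwa, Pi.single_eq_same, mul_one]
            · rw [if_neg hwa, Pi.single_eq_of_ne (Ne.symm hwa), mul_zero]
      rw [Finset.sum_congr rfl fun w _ => e w, Finset.sum_ite_eq'] at hr
      simp only [Finset.mem_univ, if_true] at hr
      exact hne hr
    ext u v
    by_cases huv : u = v
    · subst huv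
      by_contra hne
      have hne' : A u u ≠ 0 := hne
      obtain ⟨hu, -, hσ⟩ := hi u u hne'
      rw [Finset.insert_idem] at hσ
      have e : ∑ v, A u v • p v = A u u • p u := by
        apply Finset.sum_eq_single u
        · intro b _ hb
          rw [offd u b (Ne.symm hb), zero_smul]
        · intro h
          exact absurd (Finset.mem_univ u) h
      have h6 := hii u
      rw [e] at h6
      have h7 := Submodule.smul_mem _ (A u u)⁻¹ h6
      rw [smul_smul, inv_mul_cancel₀ hne', one_smul] at h7
      exact not_span hli F u hu hσ h7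
    · exact offd u v huv

/-- Y05. -/
theorem noPS_of_maps (hS : Down S) (h0 : ∅ ∈ S)
    (hli : ∀ F ∈ S, LinearIndependent ℝ (fun v : F => p v))
    (c : Finset V → V → V → ℝ)
    (h1 : ∀ H ∈ S, ∀ w, p w - ∑ v, c H w v • p v ∈ Submodule.span ℝ (p '' (H : Set V)))
    (h2 : ∀ H ∈ S, ∀ w, ∀ v ∈ H, c H w v = 0)
    (h3 : ∀ H ∈ S, ∀ σ ∈ S, ∀ w ∈ σ, ∀ w' ∈ σ, ∀ v v', c H w v ≠ 0 → c H w' v' ≠ 0 →
      insert v (insert v' H) ∈ S)
    (h4 : ∀ H ∈ S, ∀ w, w ∉ H → insert w H ∈ S → c H w = Pi.single w 1)
    (h5 : ∀ H ∈ S, ∀ w ∈ H, c H w = 0) : NoPS S p := by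
  intro A hA hz hst
  refine key hS hli c h1 h2 h3 h4 h5 (Fintype.card V) ∅ h0 (by simp) A hA ?_ ?_
  · intro u v huv
    refine ⟨Finset.notMem_empty _, Finset.notMem_empty _, ?_⟩
    by_contra hne
    exact huv (hz u v hne)
  · intro u
    rw [hst u]
    exact Submodule.zero_mem _

end arr

end Pool.Agent.H976.Bend
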