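import Pool.Agent.H128.Bend.Defs

set_option autoImplicit false
set_option linter.unusedSectionVars false

/-! Separation of the positive definite cone from the quadratic relations of a fan. -/

namespace Pool.Agent.H642.Y06

open Pool.Agent.H128.Bend

variable {V : Type} [Fintype V] [DecidableEq V] {d : ℕ} {S : Finset (Finset V)}
  {p : V → Fin d → ℝ}

/-- positive semidefinite symmetric arrays of trace one -/
def T (V : Type) [Fintype V] : Set (V → V → ℝ) :=
  {A | (∀ u v, A u v = A v u) ∧ (∀ x : V → ℝ, 0 ≤ ∑ u, ∑ v, x u * x v * A u v) ∧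
    ∑ v, A v v = 1}

lemma T_convex : Convex ℝ (T V) := by
  intro A hA B hB a b ha hb hab
  refine ⟨fun u v => ?_, fun x => ?_, ?_⟩
  · show a * A u v + b * B u v = a * A v u + b * B v u
    rw [hA.1 u v, hB.1 u v]
  · have h : ∑ u, ∑ v, x u * x v * (a • A + b • B) u v =
        a * (∑ u, ∑ v, x u * x v * A u v) + b * (∑ u, ∑ v, x u * x v * B u v) := by
      rw [Finset.mul_sum, Finset.mul_sum, ← Finset.sum_add_distrib]
      refine Finset.sum_congr rfl fun u _ => ?_
      rw [Finset.mul_sum, Finset.mul_sum, ← Finset.sum_add_distrib]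
      refine Finset.sum_congr rfl fun v _ => ?_
      show x u * x v * (a * A u v + b * B u v) = _
      ring
    rw [h]
    exact add_nonneg (mul_nonneg ha (hA.2.1 x)) (mul_nonneg hb (hB.2.1 x))
  · have h : ∑ v, (a • A + b • B) v v = a * (∑ v, A v v) + b * (∑ v, B v v) := by
      rw [Finset.mul_sum, Finset.mul_sum, ← Finset.sum_add_distrib]
      refine Finset.sum_congr rfl fun v _ => ?_
      rfl
    rw [h, hA.2.2, hB.2.2]
    linarith

lemma T_closed : IsClosed (T V) := by
  have h1 : T V = (⋂ u : V, ⋂ v : V, {A : V → V → ℝ | A u v = A v u}) ∩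
      ((⋂ x : V → ℝ, {A : V → V → ℝ | 0 ≤ ∑ u, ∑ v, x u * x v * A u v}) ∩
        {A : V → V → ℝ | ∑ v, A v v = 1}) := by
    ext A
    simp only [T, Set.mem_ofPred_eq, Set.mem_inter_iff, Set.mem_iInter]
  rw [h1]
  refine IsClosed.inter ?_ (IsClosed.inter ?_ ?_)
  · refine isClosed_iInter fun u => isClosed_iInter fun v => ?_
    exact isClosed_eq (by fun_prop) (by fun_prop)
  · refine isClosed_iInter fun x => ?_
    exact isClosed_le continuous_const (by fun_prop)
  · exact isClosed_eq (by fun_prop) continuous_const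

lemma T_diag {A : V → V → ℝ} (hA : A ∈ T V) (v : V) : 0 ≤ A v v ∧ A v v ≤ 1 := by
  have h0 : ∀ w, 0 ≤ A w w := by
    intro w
    have h := hA.2.1 (Pi.single w 1)
    have h2 : ∑ u, ∑ v, (Pi.single w 1 : V → ℝ) u * (Pi.single w 1 : V → ℝ) v * A u v = A w w := by
      rw [Finset.sum_eq_single w]
      · rw [Finset.sum_eq_single w]
        · simp
        · intro b _ hb
          simp [hb]
        · simp
      · intro b _ hb
        refine Finset.sum_eq_zero fun v _ => ?_
        simp [hb]
      · simp
    rwa [h2] at h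
  refine ⟨h0 v, ?_⟩
  rw [← hA.2.2]
  exact Finset.single_le_sum (f := fun w => A w w) (fun w _ => h0 w) (Finset.mem_univ v)

lemma quad_two (A : V → V → ℝ) (hs : ∀ u v, A u v = A v u) (a b : V) (hab : a ≠ b) (s : ℝ) :
    ∑ u, ∑ v, (Pi.single a 1 + Pi.single b s : V → ℝ) u * (Pi.single a 1 + Pi.single b s : V → ℝ) v
      * A u v = A a a + 2 * s * A a b + s ^ 2 * A b b := by
  have h1 : ∀ (c : V → ℝ), ∑ v, (Pi.single a 1 + Pi.single b s : V → ℝ) v * c v =
      c a + s * c b := by
    intro c
    have : ∀ v, (Pi.single a 1 + Pi.single b s : V → ℝ) v * c v =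
        (if v = a then c v else 0) + (if v = b then s * c v else 0) := by
      intro v
      rw [Pi.add_apply, Pi.single_apply, Pi.single_apply]
      split_ifs <;> ring
    rw [Finset.sum_congr rfl fun v _ => this v, Finset.sum_add_distrib]
    simp
  have h2 : ∀ u, ∑ v, (Pi.single a 1 + Pi.single b s : V → ℝ) u *
      (Pi.single a 1 + Pi.single b s : V → ℝ) v * A u v =
      (Pi.single a 1 + Pi.single b s : V → ℝ) u * (A u a + s * A u b) := by
    intro u
    rw [← h1 (A u), Finset.mul_sum]
    refine Finset.sum_congr rfl fun v _ => ?_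
    ring
  rw [Finset.sum_congr rfl fun u _ => h2 u, h1, hs b a]
  ring

lemma T_entry {A : V → V → ℝ} (hA : A ∈ T V) (u v : V) : -1 ≤ A u v ∧ A u v ≤ 1 := by
  by_cases huv : u = v
  · subst huv
    have := T_diag hA u
    exact ⟨by linarith [this.1], this.2⟩
  · have h1 := hA.2.1 (Pi.single u 1 + Pi.single v 1)
    have h2 := hA.2.1 (Pi.single u 1 + Pi.single v (-1))
    rw [quad_two A hA.1 u v huv] at h1 h2
    have h3 := T_diag hA u
    have h4 := T_diag hA v
    constructor <;> nlinarith

lemma T_compact : IsCompact (T V) := by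
  have h1 : IsCompact (Set.pi Set.univ fun _ : V => Set.pi Set.univ fun _ : V =>
      Set.Icc (-1 : ℝ) 1) :=
    isCompact_univ_pi fun _ => isCompact_univ_pi fun _ => isCompact_Icc
  refine h1.of_isClosed_subset T_closed ?_
  intro A hA u _ v _
  exact T_entry hA u v

/-- the obstruction map -/
def Φ (S : Finset (Finset V)) (p : V → Fin d → ℝ) :
    (V → V → ℝ) →ₗ[ℝ] (V → V → ℝ) × (V → Fin d → ℝ) where
  toFun A := (fun u v => if ({u, v} : Finset V) ∈ S then 0 else A u v, fun u => ∑ v, A u v • p v)
  map_add' A B := by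
    refine Prod.ext ?_ ?_
    · funext u v
      show (if ({u, v} : Finset V) ∈ S then (0 : ℝ) else A u v + B u v) =
        (if ({u, v} : Finset V) ∈ S then 0 else A u v) +
          (if ({u, v} : Finset V) ∈ S then 0 else B u v)
      split_ifs <;> simp
    · funext u
      show ∑ v, (A u v + B u v) • p v = ∑ v, A u v • p v + ∑ v, B u v • p v
      rw [← Finset.sum_add_distrib]
      exact Finset.sum_congr rfl fun v _ => add_smul _ _ _
  map_smul' r A := by
    refine Prod.ext ?_ ?_
    · funext u v
      show (if ({u, v} : Finset V) ∈ S then (0 : ℝ) else r * A u v) =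
        r * (if ({u, v} : Finset V) ∈ S then 0 else A u v)
      split_ifs <;> simp
    · funext u
      show ∑ v, (r * A u v) • p v = r • ∑ v, A u v • p v
      rw [Finset.smul_sum]
      exact Finset.sum_congr rfl fun v _ => mul_smul _ _ _

lemma functional_form {W : Type} [Fintype W] [DecidableEq W]
    (g : (V → W → ℝ) →ₗ[ℝ] ℝ) (B : V → W → ℝ) :
    g B = ∑ u, ∑ v, B u v * g (Pi.single u (Pi.single v 1)) := by
  have h1 : B = ∑ u, ∑ v, B u v • (Pi.single u (Pi.single v 1) : V → W → ℝ) := by
    funext a b
    rw [Finset.sum_apply, Finset.sum_apply]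
    rw [Finset.sum_eq_single a]
    · rw [Finset.sum_apply, Finset.sum_apply, Finset.sum_eq_single b]
      · simp
      · intro c _ hc
        rw [Pi.smul_apply, Pi.smul_apply, Pi.single_eq_same, Pi.single_eq_of_ne (Ne.symm hc),
          smul_zero]
      · intro h
        exact absurd (Finset.mem_univ b) h
    · intro c _ hc
      rw [Finset.sum_apply, Finset.sum_apply]
      refine Finset.sum_eq_zero fun v _ => ?_
      rw [Pi.smul_apply, Pi.smul_apply, Pi.single_eq_of_ne (Ne.symm hc), Pi.zero_apply, smul_zero]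
    · intro h
      exact absurd (Finset.mem_univ a) h
  conv_lhs => rw [h1]
  rw [map_sum]
  refine Finset.sum_congr rfl fun u _ => ?_
  rw [map_sum]
  refine Finset.sum_congr rfl fun v _ => ?_
  rw [map_smul, smul_eq_mul]

theorem exists_pd (h : NoPS S p) : ∃ G : Matrix V V ℝ, G.PosDef ∧ Rel S p G := by
  classical
  have hconv : Convex ℝ (Φ S p '' T V) := T_convex.linear_image (Φ S p)
  have hcont : Continuous (Φ S p) := LinearMap.continuous_of_finiteDimensional _
  have hcomp : IsCompact (Φ S p '' T V) := T_compact.image hcont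
  have h0 : (0 : (V → V → ℝ) × (V → Fin d → ℝ)) ∉ Φ S p '' T V := by
    rintro ⟨A, hA, h1⟩
    have h2 : ∀ u v, (if ({u, v} : Finset V) ∈ S then (0 : ℝ) else A u v) = 0 := by
      intro u v
      exact congrFun (congrFun (congrArg Prod.fst h1) u) v
    have h3 : ∀ u, ∑ v, A u v • p v = 0 := fun u => congrFun (congrArg Prod.snd h1) u
    have h4 : (Matrix.of A) = 0 := by
      refine h (Matrix.of A) ?_ ?_ ?_
      · refine Matrix.PosSemidef.of_dotProduct_mulVec_nonneg ?_ ?_
        · refine Matrix.IsHermitian.ext fun u v => ?_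
          simp only [Matrix.of_apply, star_trivial]
          exact hA.1 v u
        · intro x
          have h5 : star x ⬝ᵥ ((Matrix.of A).mulVec x) = ∑ u, ∑ v, x u * x v * A u v := by
            simp only [dotProduct, Matrix.mulVec, Matrix.of_apply, Pi.star_apply, star_trivial]
            refine Finset.sum_congr rfl fun u _ => ?_
            rw [Finset.mul_sum]
            refine Finset.sum_congr rfl fun v _ => ?_
            ring
          rw [h5]
          exact hA.2.1 x
      · intro u v huv
        have := h2 u v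
        rwa [if_neg huv] at this
      · intro u
        exact h3 u
    have h5 : ∀ v, A v v = 0 := fun v => congrFun (congrFun h4 v) v
    have h6 := hA.2.2
    rw [Finset.sum_congr rfl fun v _ => h5 v] at h6
    simp at h6
  obtain ⟨f, t, hf0, hf⟩ := geometric_hahn_banach_point_closed hconv hcomp.isClosed h0
  rw [map_zero] at hf0
  have hpos : ∀ A ∈ T V, 0 < f (Φ S p A) := fun A hA =>
    hf0.trans (hf _ ⟨A, hA, rfl⟩)
  let g1 : (V → V → ℝ) →ₗ[ℝ] ℝ := (f : (V → V → ℝ) × (V → Fin d → ℝ) →ₗ[ℝ] ℝ).comp
    (LinearMap.inl ℝ (V → V → ℝ) (V → Fin d → ℝ))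
  let g2 : (V → Fin d → ℝ) →ₗ[ℝ] ℝ := (f : (V → V → ℝ) × (V → Fin d → ℝ) →ₗ[ℝ] ℝ).comp
    (LinearMap.inr ℝ (V → V → ℝ) (V → Fin d → ℝ))
  have hsplit : ∀ B L, f (B, L) = g1 B + g2 L := by
    intro B L
    show f (B, L) = f (B, 0) + f (0, L)
    rw [← map_add]
    simp
  let c : V → V → ℝ := fun u v => g1 (Pi.single u (Pi.single v 1))
  let lam : V → Fin d → ℝ := fun u i => g2 (Pi.single u (Pi.single i 1))
  let M : V → V → ℝ := fun u v => (if ({u, v} : Finset V) ∈ S then 0 else c u v) +
    ∑ i, lam u i * p v i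
  have hform : ∀ A : V → V → ℝ, f (Φ S p A) = ∑ u, ∑ v, A u v * M u v := by
    intro A
    have h1 : f (Φ S p A) = g1 (fun u v => if ({u, v} : Finset V) ∈ S then 0 else A u v) +
      g2 (fun u => ∑ v, A u v • p v) := hsplit _ _
    rw [h1, functional_form g1, functional_form g2, ← Finset.sum_add_distrib]
    refine Finset.sum_congr rfl fun u _ => ?_
    have h2 : ∑ i, (∑ v, A u v • p v) i * g2 (Pi.single u (Pi.single i 1)) =
        ∑ v, A u v * ∑ i, lam u i * p v i := by
      have h3 : ∀ i, (∑ v, A u v • p v) i * g2 (Pi.single u (Pi.single i 1)) =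
          ∑ v, A u v * (lam u i * p v i) := by
        intro i
        rw [Finset.sum_apply, Finset.sum_mul]
        refine Finset.sum_congr rfl fun v _ => ?_
        show A u v * p v i * lam u i = _
        ring
      rw [Finset.sum_congr rfl fun i _ => h3 i, Finset.sum_comm]
      refine Finset.sum_congr rfl fun v _ => ?_
      rw [Finset.mul_sum]
    rw [h2, ← Finset.sum_add_distrib]
    refine Finset.sum_congr rfl fun v _ => ?_
    show (if ({u, v} : Finset V) ∈ S then 0 else A u v) * c u v + A u v * ∑ i, lam u i * p v i =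
      A u v * ((if ({u, v} : Finset V) ∈ S then 0 else c u v) + ∑ i, lam u i * p v i)
    split_ifs <;> ring
  refine ⟨Matrix.of fun u v => (M u v + M v u) / 2, ?_, lam, ?_⟩
  · refine Matrix.PosDef.of_dotProduct_mulVec_pos ?_ ?_
    · refine Matrix.IsHermitian.ext fun u v => ?_
      simp only [Matrix.of_apply, star_trivial]
      ring
    · intro x hx
      have hq : star x ⬝ᵥ ((Matrix.of fun u v => (M u v + M v u) / 2).mulVec x) =
          ∑ u, ∑ v, x u * x v * M u v := by
        have h1 : star x ⬝ᵥ ((Matrix.of fun u v => (M u v + M v u) / 2).mulVec x) =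
            ∑ u, ∑ v, (x u * x v * M u v / 2 + x u * x v * M v u / 2) := by
          simp only [dotProduct, Matrix.mulVec, Matrix.of_apply, Pi.star_apply, star_trivial]
          refine Finset.sum_congr rfl fun u _ => ?_
          rw [Finset.mul_sum]
          refine Finset.sum_congr rfl fun v _ => ?_
          ring
        rw [h1]
        have h2 : ∑ u, ∑ v, (x u * x v * M u v / 2 + x u * x v * M v u / 2) =
            ∑ u, ∑ v, x u * x v * M u v / 2 + ∑ u, ∑ v, x u * x v * M v u / 2 := by
          rw [← Finset.sum_add_distrib]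
          exact Finset.sum_congr rfl fun u _ => Finset.sum_add_distrib
        have h3 : ∑ u, ∑ v, x u * x v * M v u / 2 = ∑ u, ∑ v, x u * x v * M u v / 2 := by
          rw [Finset.sum_comm]
          refine Finset.sum_congr rfl fun u _ => Finset.sum_congr rfl fun v _ => ?_
          ring
        rw [h2, h3, ← Finset.sum_add_distrib]
        refine Finset.sum_congr rfl fun u _ => ?_
        rw [← Finset.sum_add_distrib]
        refine Finset.sum_congr rfl fun v _ => ?_
        ring
      rw [hq]
      have hr : 0 < ∑ v, x v * x v := by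
        obtain ⟨w, hw⟩ : ∃ w, x w ≠ 0 := by
          by_contra hcon
          push Not at hcon
          exact hx (funext hcon)
        refine Finset.sum_pos' (fun v _ => mul_self_nonneg _) ⟨w, Finset.mem_univ w, ?_⟩
        exact mul_self_pos.2 hw
      have hmem : (fun u v => (∑ w, x w * x w)⁻¹ * (x u * x v)) ∈ T V := by
        refine ⟨fun u v => ?_, fun y => ?_, ?_⟩
        · ring
        · have h1 : ∑ u, ∑ v, y u * y v * ((∑ w, x w * x w)⁻¹ * (x u * x v)) =
              (∑ w, x w * x w)⁻¹ * ((∑ u, y u * x u) * (∑ v, y v * x v)) := by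
            rw [Finset.sum_mul_sum, Finset.mul_sum]
            refine Finset.sum_congr rfl fun u _ => ?_
            rw [Finset.mul_sum]
            refine Finset.sum_congr rfl fun v _ => ?_
            ring
          rw [h1]
          exact mul_nonneg (inv_nonneg.2 hr.le) (mul_self_nonneg _)
        · show ∑ v, (∑ w, x w * x w)⁻¹ * (x v * x v) = 1
          rw [← Finset.mul_sum]
          exact inv_mul_cancel₀ hr.ne'
      have h1 := hpos _ hmem
      rw [hform] at h1
      have h2 : ∑ u, ∑ v, (∑ w, x w * x w)⁻¹ * (x u * x v) * M u v =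
          (∑ w, x w * x w)⁻¹ * ∑ u, ∑ v, x u * x v * M u v := by
        rw [Finset.mul_sum]
        refine Finset.sum_congr rfl fun u _ => ?_
        rw [Finset.mul_sum]
        refine Finset.sum_congr rfl fun v _ => ?_
        ring
      rw [h2] at h1
      exact (pos_iff_pos_of_mul_pos h1).1 (inv_pos.2 hr)
  · intro u v huv
    have huv' : ({v, u} : Finset V) ∈ S := by
      rw [Finset.pair_comm]
      exact huv
    show 2 * ((M u v + M v u) / 2) = _
    have h1 : M u v = ∑ i, lam u i * p v i := by
      show (if ({u, v} : Finset V) ∈ S then 0 else c u v) + ∑ i, lam u i * p v i = _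
      rw [if_pos huv, zero_add]
    have h2 : M v u = ∑ i, lam v i * p u i := by
      show (if ({v, u} : Finset V) ∈ S then 0 else c v u) + ∑ i, lam v i * p u i = _
      rw [if_pos huv', zero_add]
    rw [h1, h2, Finset.sum_add_distrib]
    have h3 : ∑ i, lam v i * p u i = ∑ i, p u i * lam v i :=
      Finset.sum_congr rfl fun i _ => mul_comm _ _
    have h4 : ∑ i, lam u i * p v i = ∑ i, p v i * lam u i :=
      Finset.sum_congr rfl fun i _ => mul_comm _ _
    rw [h3, h4]
    ring

end Pool.Agent.H642.Y06
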