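import Pool.Agent.H128.Bend.Defs

/-! Y07 (subtask of helper128, proved by helper340): an edge subdivision of a complete fan is a
complete fan. -/

set_option autoImplicit false
set_option linter.unusedSectionVars false

namespace Pool.Agent.H340.Bend

open Pool.Agent.H128.Bend

variable {n m d e : ℕ}

/-- the old vertices of a face of the subdivision -/
def old (F' : Finset (Fin (n + 1))) : Finset (Fin n) :=
  Finset.univ.filter fun v : Fin n => v.castSucc ∈ F'

lemma mem_old {F' : Finset (Fin (n + 1))} {v : Fin n} : v ∈ old F' ↔ v.castSucc ∈ F' := by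
  simp [old]

lemma last_notMem_map (σ : Finset (Fin n)) : Fin.last n ∉ σ.map Fin.castSuccEmb := by
  intro h
  rw [Finset.mem_map] at h
  obtain ⟨v, _, hv⟩ := h
  exact (Fin.castSucc_lt_last v).ne hv

lemma castSucc_mem_map {σ : Finset (Fin n)} {v : Fin n} :
    v.castSucc ∈ σ.map Fin.castSuccEmb ↔ v ∈ σ := by
  rw [Finset.mem_map]
  constructor
  · rintro ⟨u, hu, huv⟩
    have : u = v := Fin.castSucc_injective n huv
    rwa [← this]
  · exact fun h => ⟨v, h, rfl⟩

lemma old_map (σ : Finset (Fin n)) : old (σ.map Fin.castSuccEmb) = σ := by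
  ext v
  rw [mem_old, castSucc_mem_map]

lemma old_insert (σ : Finset (Fin n)) :
    old (insert (Fin.last n) (σ.map Fin.castSuccEmb)) = σ := by
  ext v
  rw [mem_old, Finset.mem_insert, castSucc_mem_map]
  constructor
  · rintro (h | h)
    · exact absurd h (Fin.castSucc_lt_last v).ne
    · exact h
  · exact fun h => Or.inr h

lemma eq_map {F' : Finset (Fin (n + 1))} (h : Fin.last n ∉ F') :
    (old F').map Fin.castSuccEmb = F' := by
  ext w
  refine Fin.lastCases ?_ (fun v => ?_) w
  · exact ⟨fun h' => absurd h' (last_notMem_map _), fun h' => absurd h' h⟩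
  · rw [castSucc_mem_map, mem_old]

lemma eq_insert {F' : Finset (Fin (n + 1))} (h : Fin.last n ∈ F') :
    insert (Fin.last n) ((old F').map Fin.castSuccEmb) = F' := by
  ext w
  refine Fin.lastCases ?_ (fun v => ?_) w
  · exact ⟨fun _ => h, fun _ => Finset.mem_insert_self _ _⟩
  · rw [Finset.mem_insert, castSucc_mem_map, mem_old]
    constructor
    · rintro (h' | h')
      · exact absurd h' (Fin.castSucc_lt_last v).ne
      · exact h'
    · exact fun h' => Or.inr h'

lemma mem_subdiv {S : Finset (Finset (Fin n))} {a b : Fin n} (F' : Finset (Fin (n+1))) :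
    F' ∈ subdiv S a b ↔ old F' ∈ S ∧ ¬ (a ∈ old F' ∧ b ∈ old F') ∧
      (Fin.last n ∈ F' → insert a (insert b (old F')) ∈ S) := by
  unfold subdiv
  rw [Finset.mem_union, Finset.mem_image, Finset.mem_image]
  constructor
  · rintro (⟨σ, hσ, rfl⟩ | ⟨σ, hσ, rfl⟩)
    · rw [Finset.mem_filter] at hσ
      rw [old_map]
      exact ⟨hσ.1, hσ.2, fun h => absurd h (last_notMem_map σ)⟩
    · rw [Finset.mem_filter] at hσ
      rw [old_insert]
      exact ⟨hσ.1, hσ.2.1, fun _ => hσ.2.2⟩
  · rintro ⟨h1, h2, h3⟩
    by_cases h : Fin.last n ∈ F'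
    · exact Or.inr ⟨old F', Finset.mem_filter.2 ⟨h1, h2, h3 h⟩, eq_insert h⟩
    · exact Or.inl ⟨old F', Finset.mem_filter.2 ⟨h1, h2⟩, eq_map h⟩

/-- the coordinates with respect to the old vectors -/
noncomputable def fold (a b : Fin n) (α β : ℝ) (c' : Fin (n + 1) → ℝ) (v : Fin n) : ℝ :=
  c' v.castSucc + c' (Fin.last n) * ((if v = a then α else 0) + (if v = b then β else 0))

lemma fold_sum (p : Fin n → Fin d → ℝ) (a b : Fin n) (α β : ℝ) (c' : Fin (n + 1) → ℝ) :
    ∑ w, c' w • subVec p a b α β w = ∑ v, fold a b α β c' v • p v := by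
  rw [Fin.sum_univ_castSucc]
  have h1 : ∀ v : Fin n, subVec p a b α β v.castSucc = p v := by
    intro v
    unfold subVec
    exact Fin.snoc_castSucc _ _ _
  have h2 : subVec p a b α β (Fin.last n) = α • p a + β • p b := by
    unfold subVec
    exact Fin.snoc_last _ _
  have h3 : ∑ v, fold a b α β c' v • p v = ∑ v, c' v.castSucc • p v +
      c' (Fin.last n) • ∑ v, ((if v = a then α else 0) + (if v = b then β else 0)) • p v := by
    rw [Finset.smul_sum, ← Finset.sum_add_distrib]
    refine Finset.sum_congr rfl fun v _ => ?_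
    unfold fold
    rw [add_smul, mul_smul]
  have h4 : ∑ v, ((if v = a then α else 0) + (if v = b then β else 0)) • p v =
      α • p a + β • p b := by
    have h5 : ∀ v, ((if v = a then α else 0) + (if v = b then β else 0)) • p v =
        (if v = a then α • p v else 0) + (if v = b then β • p v else 0) := by
      intro v
      rw [add_smul]
      congr 1 <;> split_ifs <;> simp
    rw [Finset.sum_congr rfl fun v _ => h5 v, Finset.sum_add_distrib, Finset.sum_ite_eq' ,
      Finset.sum_ite_eq']
    simp
  rw [h3, h4, h2]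
  congr 1
  exact Finset.sum_congr rfl fun v _ => by rw [h1]

/-- the support of nonnegative coordinates -/
noncomputable def supp {k : ℕ} (c : Fin k → ℝ) : Finset (Fin k) := Finset.univ.filter fun v => c v ≠ 0

lemma mem_supp {k : ℕ} {c : Fin k → ℝ} {v : Fin k} : v ∈ supp c ↔ c v ≠ 0 := by simp [supp]

/-- valid coordinates for the subdivision -/
lemma fold_valid {S : Finset (Finset (Fin n))} {a b : Fin n} (hab : a ≠ b) {α β : ℝ}
    (hα : 0 < α) (hβ : 0 < β) {c' : Fin (n + 1) → ℝ} (h0 : ∀ w, 0 ≤ c' w)
    (hs : supp c' ∈ subdiv S a b) :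
    (∀ v, 0 ≤ fold a b α β c' v) ∧ supp (fold a b α β c') ∈ S ∧
      c' (Fin.last n) = min (fold a b α β c' a / α) (fold a b α β c' b / β) := by
  rw [mem_subdiv] at hs
  obtain ⟨h1, h2, h3⟩ := hs
  have ho : ∀ v, v ∈ old (supp c') ↔ c' v.castSucc ≠ 0 := by
    intro v
    rw [mem_old, mem_supp]
  have hfa : fold a b α β c' a = c' a.castSucc + c' (Fin.last n) * α := by
    unfold fold
    rw [if_pos rfl, if_neg hab, add_zero]
  have hfb : fold a b α β c' b = c' b.castSucc + c' (Fin.last n) * β := by
    unfold fold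
    rw [if_pos rfl, if_neg (Ne.symm hab), zero_add]
  have hfo : ∀ v, v ≠ a → v ≠ b → fold a b α β c' v = c' v.castSucc := by
    intro v hva hvb
    unfold fold
    rw [if_neg hva, if_neg hvb, add_zero, mul_zero, add_zero]
  have ht := h0 (Fin.last n)
  refine ⟨?_, ?_, ?_⟩
  · intro v
    unfold fold
    have := h0 v.castSucc
    have h4 : (0:ℝ) ≤ (if v = a then α else 0) + (if v = b then β else 0) := by
      split_ifs <;> linarith
    positivity
  · by_cases ht0 : c' (Fin.last n) = 0
    · have : supp (fold a b α β c') = old (supp c') := by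
        ext v
        rw [mem_supp, ho]
        unfold fold
        rw [ht0, zero_mul, add_zero]
      rw [this]
      exact h1
    · have : supp (fold a b α β c') = insert a (insert b (old (supp c'))) := by
        have htp : 0 < c' (Fin.last n) := lt_of_le_of_ne ht (Ne.symm ht0)
        ext v
        rw [mem_supp, Finset.mem_insert, Finset.mem_insert, ho]
        by_cases hva : v = a
        · rw [hva, hfa]
          have := h0 a.castSucc
          have h5 : 0 < c' a.castSucc + c' (Fin.last n) * α := by positivity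
          exact ⟨fun _ => Or.inl rfl, fun _ => h5.ne'⟩
        · by_cases hvb : v = b
          · rw [hvb, hfb]
            have := h0 b.castSucc
            have h5 : 0 < c' b.castSucc + c' (Fin.last n) * β := by positivity
            exact ⟨fun _ => Or.inr (Or.inl rfl), fun _ => h5.ne'⟩
          · rw [hfo v hva hvb]
            constructor
            · exact fun h => Or.inr (Or.inr h)
            · rintro (h | h | h)
              · exact absurd h hva
              · exact absurd h hvb
              · exact h
      rw [this]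
      exact h3 (mem_supp.2 ht0)
  · rw [hfa, hfb]
    have e1 : (c' a.castSucc + c' (Fin.last n) * α) / α = c' a.castSucc / α + c' (Fin.last n) := by
      field_simp
    have e2 : (c' b.castSucc + c' (Fin.last n) * β) / β = c' b.castSucc / β + c' (Fin.last n) := by
      field_simp
    rw [e1, e2, ho, ho] at *
    have ga : 0 ≤ c' a.castSucc / α := div_nonneg (h0 _) hα.le
    have gb : 0 ≤ c' b.castSucc / β := div_nonneg (h0 _) hβ.le
    by_cases hz : c' a.castSucc = 0
    · rw [hz, zero_div, zero_add, min_eq_left]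
      linarith
    · have hz2 : c' b.castSucc = 0 := by
        by_contra h
        exact h2 ⟨hz, h⟩
      rw [hz2, zero_div, zero_add, min_eq_right]
      linarith

/-- Y07. -/
theorem sub_fan {S : Finset (Finset (Fin n))} {p : Fin n → Fin d → ℝ} (hS : Down S) (hf : Fan S p)
    (a b : Fin n) (hab : a ≠ b) (he : {a, b} ∈ S) (α β : ℝ) (hα : 0 < α) (hβ : 0 < β) :
    Fan (subdiv S a b) (subVec p a b α β) := by
  intro x
  obtain ⟨c, ⟨hc0, hcS, hcx⟩, hcu⟩ := hf x
  have hcS' : supp c ∈ S := hcS
  obtain ⟨t, ht⟩ : ∃ t : ℝ, t = min (c a / α) (c b / β) := ⟨_, rfl⟩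
  have hta : t * α ≤ c a := by
    have : t ≤ c a / α := by rw [ht]; exact min_le_left _ _
    rwa [le_div_iff₀ hα] at this
  have htb : t * β ≤ c b := by
    have : t ≤ c b / β := by rw [ht]; exact min_le_right _ _
    rwa [le_div_iff₀ hβ] at this
  have ht0 : 0 ≤ t := by
    rw [ht]
    exact le_min (div_nonneg (hc0 a) hα.le) (div_nonneg (hc0 b) hβ.le)
  obtain ⟨c0, hc0d⟩ : ∃ c0 : Fin n → ℝ, c0 = fun v =>
    c v - t * ((if v = a then α else 0) + (if v = b then β else 0)) := ⟨_, rfl⟩
  have c0a : c0 a = c a - t * α := by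
    rw [hc0d]
    simp only [if_true, if_neg hab, add_zero]
  have c0b : c0 b = c b - t * β := by
    rw [hc0d]
    simp only [if_true, if_neg (Ne.symm hab), zero_add]
  have c0o : ∀ v, v ≠ a → v ≠ b → c0 v = c v := by
    intro v hva hvb
    rw [hc0d]
    simp only [if_neg hva, if_neg hvb, add_zero, mul_zero, sub_zero]
  have c0n : ∀ v, 0 ≤ c0 v := by
    intro v
    by_cases hva : v = a
    · rw [hva, c0a]
      linarith
    · by_cases hvb : v = b
      · rw [hvb, c0b]
        linarith
      · rw [c0o v hva hvb]
        exact hc0 v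
  have c0le : ∀ v, c0 v ≤ c v := by
    intro v
    by_cases hva : v = a
    · rw [hva, c0a]
      have : 0 ≤ t * α := by positivity
      linarith
    · by_cases hvb : v = b
      · rw [hvb, c0b]
        have : 0 ≤ t * β := by positivity
        linarith
      · exact (c0o v hva hvb).le
  have c0z : c0 a = 0 ∨ c0 b = 0 := by
    rcases min_choice (c a / α) (c b / β) with h | h
    · left
      rw [c0a, ht, h]
      field_simp
      ring
    · right
      rw [c0b, ht, h]
      field_simp
      ring
  have hsub : ∀ v, c0 v ≠ 0 → c v ≠ 0 := by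
    intro v h h'
    apply h
    exact le_antisymm ((c0le v).trans h'.le) (c0n v)
  obtain ⟨c', hc'⟩ : ∃ c' : Fin (n + 1) → ℝ, c' = Fin.snoc (α := fun _ => ℝ) c0 t := ⟨_, rfl⟩
  have c'1 : ∀ v : Fin n, c' v.castSucc = c0 v := by
    intro v
    rw [hc']
    exact Fin.snoc_castSucc _ _ _
  have c'2 : c' (Fin.last n) = t := by
    rw [hc']
    exact Fin.snoc_last _ _
  have hfold : fold a b α β c' = c := by
    funext v
    unfold fold
    rw [c'1, c'2, hc0d]
    ring
  have hold : old (supp c') = supp c0 := by
    ext v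
    rw [mem_old, mem_supp, mem_supp, c'1]
  refine ⟨c', ⟨?_, ?_, ?_⟩, ?_⟩
  · intro w
    refine Fin.lastCases ?_ (fun v => ?_) w
    · rw [c'2]
      exact ht0
    · rw [c'1]
      exact c0n v
  · change supp c' ∈ subdiv S a b
    rw [mem_subdiv, hold]
    refine ⟨?_, ?_, ?_⟩
    · refine hS _ hcS' _ ?_
      intro v hv
      rw [mem_supp] at hv ⊢
      exact hsub v hv
    · rw [mem_supp, mem_supp]
      rintro ⟨h1, h2⟩
      rcases c0z with h | h
      · exact h1 h
      · exact h2 h
    · intro h
      rw [mem_supp, c'2] at h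
      have htp : 0 < t := lt_of_le_of_ne ht0 (Ne.symm h)
      refine hS _ hcS' _ ?_
      intro v hv
      rw [Finset.mem_insert, Finset.mem_insert] at hv
      rw [mem_supp]
      rcases hv with rfl | rfl | hv
      · have : 0 < t * α := by positivity
        exact (lt_of_lt_of_le this hta).ne'
      · have : 0 < t * β := by positivity
        exact (lt_of_lt_of_le this htb).ne'
      · rw [mem_supp] at hv
        exact hsub v hv
  · rw [fold_sum, hfold]
    exact hcx
  · rintro g ⟨hg0, hgS, hgx⟩
    obtain ⟨k1, k2, k3⟩ := fold_valid hab hα hβ hg0 hgS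
    rw [fold_sum] at hgx
    have hgc : fold a b α β g = c := hcu _ ⟨k1, k2, hgx⟩
    rw [hgc, ← ht] at k3
    funext w
    refine Fin.lastCases ?_ (fun v => ?_) w
    · rw [k3, c'2]
    · rw [c'1, hc0d]
      have h5 : fold a b α β g v = c v := by rw [hgc]
      unfold fold at h5
      rw [k3] at h5
      show g v.castSucc = c v - t * ((if v = a then α else 0) + (if v = b then β else 0))
      linarith

end Pool.Agent.H340.Bend
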