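import Pool.Agent.H128.Bend.Defs

/-!
# Bend Y09: edge subdivision and positive semidefinite stresses
-/

set_option autoImplicit false

namespace Pool.Agent.H803.BEND

open Pool.Agent.H128.Bend

variable {n d : ℕ}

/-- the weight of the new vertex -/
def lw (a b : Fin n) (α β : ℝ) (v : Fin n) : ℝ := (if v = a then α else 0) + if v = b then β else 0

/-- the matrix of the subdivision -/
def LL (a b : Fin n) (α β : ℝ) : Matrix (Fin n) (Fin (n + 1)) ℝ :=
  fun v => Fin.snoc (α := fun _ => ℝ) (fun w => if v = w then (1 : ℝ) else 0) (lw a b α β v)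

lemma LL_sum (a b : Fin n) (α β : ℝ) (v : Fin n) (f : Fin (n + 1) → ℝ) :
    ∑ w, LL a b α β v w * f w = f v.castSucc + lw a b α β v * f (Fin.last n) := by
  rw [Fin.sum_univ_castSucc]
  unfold LL
  simp only [Fin.snoc_castSucc, Fin.snoc_last]
  congr 1
  rw [Finset.sum_eq_single v]
  · simp
  · intro w _ hw
    rw [if_neg (fun h => hw h.symm), zero_mul]
  · intro h
    exact absurd (Finset.mem_univ _) h

lemma edge_old {S : Finset (Finset (Fin n))} {a b u v : Fin n}
    (h : ({u.castSucc, v.castSucc} : Finset (Fin (n + 1))) ∈ subdiv S a b) :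
    ({u, v} : Finset (Fin n)) ∈ S ∧
      ¬ (a ∈ ({u, v} : Finset (Fin n)) ∧ b ∈ ({u, v} : Finset (Fin n))) := by
  unfold subdiv at h
  rcases Finset.mem_union.1 h with h | h
  · obtain ⟨σ, hσ, he⟩ := Finset.mem_image.1 h
    have h1 : σ = {u, v} := by
      apply Finset.map_injective Fin.castSuccEmb
      rw [he]
      simp
    rw [← h1]
    exact Finset.mem_filter.1 hσ
  · obtain ⟨σ, hσ, he⟩ := Finset.mem_image.1 h
    exfalso
    have h1 : Fin.last n ∈ ({u.castSucc, v.castSucc} : Finset (Fin (n + 1))) := by
      rw [← he]
      exact Finset.mem_insert_self _ _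
    rcases Finset.mem_insert.1 h1 with h2 | h2
    · exact (Fin.castSucc_lt_last u).ne h2.symm
    · exact (Fin.castSucc_lt_last v).ne (Finset.mem_singleton.1 h2).symm

lemma edge_new {S : Finset (Finset (Fin n))} (hS : Down S) {a b v : Fin n}
    (h : ({Fin.last n, v.castSucc} : Finset (Fin (n + 1))) ∈ subdiv S a b) :
    (insert a (insert b {v}) : Finset (Fin n)) ∈ S := by
  unfold subdiv at h
  rcases Finset.mem_union.1 h with h | h
  · obtain ⟨σ, hσ, he⟩ := Finset.mem_image.1 h
    exfalso
    have h1 : Fin.last n ∈ σ.map Fin.castSuccEmb := by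
      rw [he]
      exact Finset.mem_insert_self _ _
    obtain ⟨w, _, hw⟩ := Finset.mem_map.1 h1
    exact (Fin.castSucc_lt_last w).ne hw
  · obtain ⟨σ, hσ, he⟩ := Finset.mem_image.1 h
    have h1 : v.castSucc ∈ insert (Fin.last n) (σ.map Fin.castSuccEmb) := by
      rw [he]
      exact Finset.mem_insert_of_mem (Finset.mem_singleton_self _)
    have h2 : v ∈ σ := by
      rcases Finset.mem_insert.1 h1 with h3 | h3
      · exact absurd h3 (Fin.castSucc_lt_last v).ne
      · obtain ⟨w, hw, hw'⟩ := Finset.mem_map.1 h3
        have : w = v := Fin.castSucc_injective n hw'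
        rw [← this]
        exact hw
    refine hS _ (Finset.mem_filter.1 hσ).2.2 _ ?_
    refine Finset.insert_subset_insert _ (Finset.insert_subset_insert _ ?_)
    exact Finset.singleton_subset_iff.2 h2

/-- Y09. -/
theorem sub_noPS {S : Finset (Finset (Fin n))} {p : Fin n → Fin d → ℝ} (hS : Down S)
    (hn : NoPS S p) (a b : Fin n) (hab : a ≠ b) (he : {a, b} ∈ S) (α β : ℝ) (hα : 0 < α)
    (hβ : 0 < β) : NoPS (subdiv S a b) (subVec p a b α β) := by
  intro A' hA hvan hst
  have hsym : ∀ i j, A' i j = A' j i := by
    intro i j
    have h := hA.isHermitian.apply i j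
    simpa using h.symm
  set l := lw a b α β with hl
  have hl0 : ∀ u, l u ≠ 0 → u = a ∨ u = b := by
    intro u hu
    by_contra h
    rw [not_or] at h
    apply hu
    rw [hl]
    unfold lw
    rw [if_neg h.1, if_neg h.2, add_zero]
  -- membership facts
  have hne : ∀ v, A' (Fin.last n) v.castSucc ≠ 0 → (insert a (insert b {v}) : Finset (Fin n)) ∈ S := by
    intro v hv
    by_contra h
    exact hv (hvan _ _ fun h' => h (edge_new hS h'))
  have hsub : ∀ u v : Fin n, (u = a ∨ u = b) → A' (Fin.last n) v.castSucc ≠ 0 →
      ({u, v} : Finset (Fin n)) ∈ S := by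
    intro u v hu hv
    refine hS _ (hne v hv) _ ?_
    intro w hw
    rcases Finset.mem_insert.1 hw with h | h
    · subst h
      rcases hu with h | h <;> subst h <;> simp
    · rw [Finset.mem_singleton.1 h]
      simp
  set M := LL a b α β with hM
  have hentry : ∀ u v, (M * A' * M.conjTranspose) u v =
      A' u.castSucc v.castSucc + l u * A' (Fin.last n) v.castSucc +
        l v * (A' u.castSucc (Fin.last n) + l u * A' (Fin.last n) (Fin.last n)) := by
    intro u v
    rw [Matrix.mul_apply]
    have h1 : ∀ w, (M * A') u w = A' u.castSucc w + l u * A' (Fin.last n) w := by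
      intro w
      rw [Matrix.mul_apply]
      exact LL_sum a b α β u (fun j => A' j w)
    have h2 : ∀ w, (M * A') u w * M.conjTranspose w v =
        M v w * (A' u.castSucc w + l u * A' (Fin.last n) w) := by
      intro w
      rw [h1, Matrix.conjTranspose_apply, star_trivial, mul_comm]
    rw [Finset.sum_congr rfl fun w _ => h2 w]
    exact LL_sum a b α β v (fun w => A' u.castSucc w + l u * A' (Fin.last n) w)
  have hpsd : (M * A' * M.conjTranspose).PosSemidef := hA.mul_mul_conjTranspose_same M
  have hzero : M * A' * M.conjTranspose = 0 := by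
    apply hn _ hpsd
    · intro u v huv
      rw [hentry]
      have h1 : A' u.castSucc v.castSucc = 0 := hvan _ _ fun h => huv (edge_old h).1
      have h2 : l u * A' (Fin.last n) v.castSucc = 0 := by
        by_contra h
        have h' := mul_ne_zero_iff.1 h
        exact huv (hsub u v (hl0 u h'.1) h'.2)
      have h3 : l v * A' u.castSucc (Fin.last n) = 0 := by
        by_contra h
        have h' := mul_ne_zero_iff.1 h
        rw [hsym] at h'
        have h4 := hsub v u (hl0 v h'.1) h'.2
        rw [Finset.pair_comm] at h4
        exact huv h4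
      have h5 : l v * (l u * A' (Fin.last n) (Fin.last n)) = 0 := by
        by_contra h
        have h' := mul_ne_zero_iff.1 h
        have h'' := mul_ne_zero_iff.1 h'.2
        apply huv
        refine hS _ he _ ?_
        intro w hw
        rcases Finset.mem_insert.1 hw with h6 | h6
        · rw [h6]
          rcases hl0 u h''.1 with h7 | h7 <;> rw [h7] <;> simp
        · rw [Finset.mem_singleton.1 h6]
          rcases hl0 v h'.1 with h7 | h7 <;> rw [h7] <;> simp
      rw [h1, h2, mul_add, h3, h5]
      ring
    · intro u
      have hlp : ∑ v, l v • p v = α • p a + β • p b := by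
        have h1 : ∀ v, l v • p v = (if v = a then α • p v else 0) + if v = b then β • p v else 0 := by
          intro v
          rw [hl]
          unfold lw
          rw [add_smul]
          congr 1
          · split_ifs
            · rfl
            · rw [zero_smul]
          · split_ifs
            · rfl
            · rw [zero_smul]
        rw [Finset.sum_congr rfl fun v _ => h1 v, Finset.sum_add_distrib]
        simp
      have hrow : ∀ i, ∑ v : Fin n, A' i v.castSucc • p v + A' i (Fin.last n) • (α • p a + β • p b) = 0 := by
        intro i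
        have h1 := hst i
        rw [Fin.sum_univ_castSucc] at h1
        unfold subVec at h1
        simp only [Fin.snoc_castSucc, Fin.snoc_last] at h1
        exact h1
      have h2 : ∀ v, (M * A' * M.conjTranspose) u v • p v =
          A' u.castSucc v.castSucc • p v + l u • (A' (Fin.last n) v.castSucc • p v) +
            (A' u.castSucc (Fin.last n) + l u * A' (Fin.last n) (Fin.last n)) • (l v • p v) := by
        intro v
        rw [hentry]
        module
      rw [Finset.sum_congr rfl fun v _ => h2 v, Finset.sum_add_distrib, Finset.sum_add_distrib,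
        ← Finset.smul_sum, ← Finset.smul_sum, hlp]
      have h3 := hrow u.castSucc
      have h4 := hrow (Fin.last n)
      have h5 : ∑ v : Fin n, A' u.castSucc v.castSucc • p v =
          -(A' u.castSucc (Fin.last n) • (α • p a + β • p b)) := eq_neg_of_add_eq_zero_left h3
      have h6 : ∑ v : Fin n, A' (Fin.last n) v.castSucc • p v =
          -(A' (Fin.last n) (Fin.last n) • (α • p a + β • p b)) := eq_neg_of_add_eq_zero_left h4
      rw [h5, h6]
      module
  -- columns
  have hcol : ∀ (u : Fin n) (w : Fin (n + 1)), A' w u.castSucc + l u * A' w (Fin.last n) = 0 := by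
    intro u w
    have h1 : star (M u) ⬝ᵥ A'.mulVec (M u) = 0 := by
      have h2 : (M * A' * M.conjTranspose) u u = 0 := by rw [hzero]; rfl
      rw [← h2, hentry]
      have h3 : ∀ i, A'.mulVec (M u) i = A' i u.castSucc + l u * A' i (Fin.last n) := by
        intro i
        have h4 : A'.mulVec (M u) i = ∑ j, M u j * A' i j := by
          unfold Matrix.mulVec dotProduct
          exact Finset.sum_congr rfl fun j _ => mul_comm _ _
        rw [h4]
        exact LL_sum a b α β u (fun j => A' i j)
      have h5 : star (M u) ⬝ᵥ A'.mulVec (M u) =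
          ∑ i, M u i * (A' i u.castSucc + l u * A' i (Fin.last n)) := by
        unfold dotProduct
        refine Finset.sum_congr rfl fun i _ => ?_
        rw [h3, Pi.star_apply, star_trivial]
      rw [h5, LL_sum a b α β u (fun i => A' i u.castSucc + l u * A' i (Fin.last n))]
      rw [← hl]
      ring
    have h6 := (hA.dotProduct_mulVec_zero_iff (M u)).1 h1
    have h7 : A'.mulVec (M u) w = 0 := by rw [h6]; rfl
    have h4 : A'.mulVec (M u) w = ∑ j, M u j * A' w j := by
      unfold Matrix.mulVec dotProduct
      exact Finset.sum_congr rfl fun j _ => mul_comm _ _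
    rw [h4, LL_sum a b α β u (fun j => A' w j)] at h7
    exact h7
  have hla : l a = α := by
    rw [hl]
    unfold lw
    rw [if_pos rfl, if_neg hab, add_zero]
  have hlb : l b = β := by
    rw [hl]
    unfold lw
    rw [if_pos rfl, if_neg (fun h => hab h.symm), zero_add]
  have h1 : A' b.castSucc a.castSucc = 0 := by
    apply hvan
    intro h
    apply (edge_old h).2
    simp
  have h2 : A' b.castSucc (Fin.last n) = 0 := by
    have h := hcol a b.castSucc
    rw [h1, hla, zero_add] at h
    exact (mul_eq_zero.1 h).resolve_left hα.ne'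
  have h3 : A' (Fin.last n) (Fin.last n) = 0 := by
    have h := hcol b (Fin.last n)
    rw [hsym (Fin.last n) b.castSucc, h2, hlb, zero_add] at h
    exact (mul_eq_zero.1 h).resolve_left hβ.ne'
  have h4 : ∀ w, A' w (Fin.last n) = 0 := by
    intro w
    have h5 : star (Pi.single (Fin.last n) (1 : ℝ) : Fin (n + 1) → ℝ) ⬝ᵥ
        A'.mulVec (Pi.single (Fin.last n) (1 : ℝ)) = 0 := by
      rw [Matrix.mulVec_single_one]
      rw [star_trivial, single_one_dotProduct]
      exact h3
    have h6 := (hA.dotProduct_mulVec_zero_iff _).1 h5
    rw [Matrix.mulVec_single_one] at h6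
    exact congrFun h6 w
  ext w z
  refine Fin.lastCases ?_ (fun u => ?_) z
  · exact h4 w
  · have h5 := hcol u w
    rw [h4, mul_zero, add_zero] at h5
    exact h5

end Pool.Agent.H803.BEND
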