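import Pool.Agent.H128.Bend.Defs

set_option autoImplicit false
set_option linter.unusedSectionVars false

/-! The join of two complete fans is a complete fan. -/

namespace Pool.Agent.H46.Sub.BendY10

open Pool.Agent.H128.Bend

variable {n m d e : ℕ}

theorem sum_join (p : Fin n → Fin d → ℝ) (q : Fin m → Fin e → ℝ) (c : Fin (n + m) → ℝ) :
    ∑ v, c v • joinVec p q v = Fin.append (∑ v, c (Fin.castAdd m v) • p v)
      (∑ w, c (Fin.natAdd n w) • q w) := by
  rw [Fin.sum_univ_add]
  funext i
  refine Fin.addCases (fun i => ?_) (fun i => ?_) i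
  · simp [joinVec, Finset.sum_apply]
  · simp [joinVec, Finset.sum_apply]

theorem castAdd_mem (F : Finset (Fin n)) (G : Finset (Fin m)) (v : Fin n) :
    Fin.castAdd m v ∈ F.map (Fin.castAddEmb m) ∪ G.map (Fin.natAddEmb n) ↔ v ∈ F := by
  rw [Finset.mem_union, Finset.mem_map, Finset.mem_map]
  constructor
  · rintro (⟨w, hw, h⟩ | ⟨w, hw, h⟩)
    · have h1 : Fin.castAdd m w = Fin.castAdd m v := h
      have h2 : w = v := by
        have := congrArg Fin.val h1
        simp only [Fin.val_castAdd] at this
        exact Fin.ext this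
      rwa [← h2]
    · exfalso
      have h1 : Fin.natAdd n w = Fin.castAdd m v := h
      have := congrArg Fin.val h1
      simp only [Fin.val_castAdd, Fin.val_natAdd] at this
      have := v.isLt
      omega
  · intro h
    exact Or.inl ⟨v, h, rfl⟩

theorem natAdd_mem (F : Finset (Fin n)) (G : Finset (Fin m)) (w : Fin m) :
    Fin.natAdd n w ∈ F.map (Fin.castAddEmb m) ∪ G.map (Fin.natAddEmb n) ↔ w ∈ G := by
  rw [Finset.mem_union, Finset.mem_map, Finset.mem_map]
  constructor
  · rintro (⟨v, hv, h⟩ | ⟨v, hv, h⟩)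
    · exfalso
      have h1 : Fin.castAdd m v = Fin.natAdd n w := h
      have := congrArg Fin.val h1
      simp only [Fin.val_castAdd, Fin.val_natAdd] at this
      have := v.isLt
      omega
    · have h1 : Fin.natAdd n v = Fin.natAdd n w := h
      have h2 : v = w := by
        have := congrArg Fin.val h1
        simp only [Fin.val_natAdd] at this
        exact Fin.ext (by omega)
      rwa [← h2]
  · intro h
    exact Or.inr ⟨w, h, rfl⟩

theorem supp_join (S : Finset (Finset (Fin n))) (T : Finset (Finset (Fin m)))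
    (c : Fin (n + m) → ℝ) : (Finset.univ.filter fun v => c v ≠ 0) ∈ join S T ↔
      (Finset.univ.filter fun v => c (Fin.castAdd m v) ≠ 0) ∈ S ∧
      (Finset.univ.filter fun w => c (Fin.natAdd n w) ≠ 0) ∈ T := by
  unfold join
  rw [Finset.mem_image]
  constructor
  · rintro ⟨⟨F, G⟩, hFG, h⟩
    rw [Finset.mem_product] at hFG
    have hF : (Finset.univ.filter fun v => c (Fin.castAdd m v) ≠ 0) = F := by
      ext v
      rw [← castAdd_mem F G v]
      simp only at h
      rw [h]
      simp
    have hG : (Finset.univ.filter fun w => c (Fin.natAdd n w) ≠ 0) = G := by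
      ext w
      rw [← natAdd_mem F G w]
      simp only at h
      rw [h]
      simp
    rw [hF, hG]
    exact hFG
  · rintro ⟨h1, h2⟩
    refine ⟨(_, _), Finset.mem_product.2 ⟨h1, h2⟩, ?_⟩
    ext z
    refine Fin.addCases (fun v => ?_) (fun w => ?_) z
    · rw [castAdd_mem]
      simp
    · rw [natAdd_mem]
      simp

/-- Y10. -/
theorem join_fan {S : Finset (Finset (Fin n))} {T : Finset (Finset (Fin m))}
    {p : Fin n → Fin d → ℝ} {q : Fin m → Fin e → ℝ} (hf : Fan S p) (hg : Fan T q) :
    Fan (join S T) (joinVec p q) := by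
  intro x
  obtain ⟨c1, ⟨h1, h2, h3⟩, hu1⟩ := hf (fun i => x (Fin.castAdd e i))
  obtain ⟨c2, ⟨k1, k2, k3⟩, hu2⟩ := hg (fun i => x (Fin.natAdd d i))
  refine ⟨Fin.append c1 c2, ⟨?_, ?_, ?_⟩, ?_⟩
  · intro v
    refine Fin.addCases (fun v => ?_) (fun v => ?_) v
    · rw [Fin.append_left]
      exact h1 v
    · rw [Fin.append_right]
      exact k1 v
  · rw [supp_join]
    simp only [Fin.append_left, Fin.append_right]
    exact ⟨h2, k2⟩
  · rw [sum_join]
    simp only [Fin.append_left, Fin.append_right]
    rw [h3, k3]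
    funext i
    refine Fin.addCases (fun i => ?_) (fun i => ?_) i
    · rw [Fin.append_left]
    · rw [Fin.append_right]
  · rintro c ⟨e1, e2, e3⟩
    rw [supp_join] at e2
    rw [sum_join] at e3
    have f1 : (fun v => c (Fin.castAdd m v)) = c1 := by
      refine hu1 _ ⟨fun v => e1 _, e2.1, ?_⟩
      funext i
      have := congrFun e3 (Fin.castAdd e i)
      rwa [Fin.append_left] at this
    have f2 : (fun v => c (Fin.natAdd n v)) = c2 := by
      refine hu2 _ ⟨fun v => e1 _, e2.2, ?_⟩
      funext i
      have := congrFun e3 (Fin.natAdd d i)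
      rwa [Fin.append_right] at this
    funext z
    refine Fin.addCases (fun v => ?_) (fun w => ?_) z
    · rw [Fin.append_left]
      exact congrFun f1 v
    · rw [Fin.append_right]
      exact congrFun f2 w

end Pool.Agent.H46.Sub.BendY10
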