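import Pool.Agent.H128.Bend.Defs
import Pool.Agent.H128.Fan.Defs
import Pool.Agent.H128.Clif

set_option autoImplicit false
set_option linter.unusedSectionVars false

/-! Y12 (helper539): the Clifford matrix from the bendings. -/

namespace Pool.Agent.H539.Bend.Y12

open Pool.Agent.H128.Bend
open Pool.Agent.Helper611.ZBase Pool.Agent.H128.SRing Pool.Agent.H128.Fan MvPolynomial

variable {V : Type} [Fintype V] [LinearOrder V] {d : ℕ} {Γ : Cx V} {p : V → (Fin d → ℝ)}

open scoped MatrixOrder in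
theorem psd_fac {V : Type} [Fintype V] [DecidableEq V] {G : Matrix V V ℝ} (hG : G.PosSemidef) :
    ∃ W : Matrix V V ℝ, G = W.transpose * W := by
  obtain ⟨B, hB⟩ := CStarAlgebra.nonneg_iff_eq_star_mul_self.mp hG.nonneg
  refine ⟨B, ?_⟩
  rw [hB, Matrix.star_eq_conjTranspose, Matrix.conjTranspose_eq_transpose_of_trivial]

/-- linear forms -/
noncomputable def lf (c : V → ℝ) : MvPolynomial V ℝ := ∑ v, C (c v) * X v

lemma lf_hom (c : V → ℝ) : (lf c).IsHomogeneous 1 :=
  IsHomogeneous.sum _ _ _ fun v _ => isHomogeneous_C_mul_X (c v) v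

lemma lf_mul (a b : V → ℝ) : lf a * lf b = ∑ u, ∑ v, C (a u * b v) * (X u * X v) := by
  unfold lf
  rw [Finset.sum_mul_sum]
  refine Finset.sum_congr rfl fun u _ => Finset.sum_congr rfl fun v _ => ?_
  rw [C_mul]
  ring

lemma nonface_mem {u v : V} (h : ({u, v} : Finset V) ∉ Γ.faces) :
    (X u * X v : MvPolynomial V ℝ) ∈ JJ Γ p := by
  have h3 := JJ_nonface (S := Γ) (p := p) h
  by_cases hne : u = v
  · subst hne
    rw [Finset.pair_eq_singleton, Finset.prod_singleton] at h3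
    exact Ideal.mul_mem_left _ _ h3
  · rwa [Finset.prod_pair hne] at h3

lemma th_mem (i : Fin d) : lf (fun v => p v i) ∈ JJ Γ p := Ideal.subset_span (Or.inr ⟨i, rfl⟩)

lemma sum_sq (W : Matrix V V ℝ) :
    ∑ j, (lf (W j)) ^ 2 = ∑ u, ∑ v, C ((W.transpose * W) u v) * (X u * X v) := by
  have h1 : ∀ j ∈ (Finset.univ : Finset V), (lf (W j)) ^ 2 =
      ∑ u, ∑ v, C (W j u * W j v) * (X u * X v) := fun j _ => by rw [sq, lf_mul]
  rw [Finset.sum_congr rfl h1, Finset.sum_comm]
  refine Finset.sum_congr rfl fun u _ => ?_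
  rw [Finset.sum_comm]
  refine Finset.sum_congr rfl fun v _ => ?_
  rw [Matrix.mul_apply, map_sum, Finset.sum_mul]
  rfl

lemma quad_mem (G : Matrix V V ℝ) (h : Rel Γ.faces p G) :
    (∑ u, ∑ v, C (G u v) * (X u * X v) : MvPolynomial V ℝ) ∈ JJ Γ p := by
  obtain ⟨lam, hlam⟩ := h
  have h1 : (C 2 * ∑ u, ∑ v, C (G u v) * (X u * X v) : MvPolynomial V ℝ) =
      (∑ u, ∑ v, C (2 * G u v - ∑ i, (p u i * lam v i + p v i * lam u i)) * (X u * X v)) +
      ∑ i, (lf (fun v => p v i) * lf (fun v => lam v i) +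
        lf (fun v => lam v i) * lf (fun v => p v i)) := by
    have h2 : ∑ i, (lf (fun v => p v i) * lf (fun v => lam v i) +
        lf (fun v => lam v i) * lf (fun v => p v i)) =
        ∑ u, ∑ v, C (∑ i, (p u i * lam v i + p v i * lam u i)) * (X u * X v) := by
      have h3 : ∀ i ∈ (Finset.univ : Finset (Fin d)),
          lf (fun v => p v i) * lf (fun v => lam v i) +
          lf (fun v => lam v i) * lf (fun v => p v i) =
          ∑ u, ∑ v, C (p u i * lam v i + p v i * lam u i) * (X u * X v) := by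
        intro i _
        rw [lf_mul, lf_mul, ← Finset.sum_add_distrib]
        refine Finset.sum_congr rfl fun u _ => ?_
        rw [← Finset.sum_add_distrib]
        refine Finset.sum_congr rfl fun v _ => ?_
        rw [← add_mul, ← C_add, mul_comm (lam u i)]
      rw [Finset.sum_congr rfl h3, Finset.sum_comm]
      refine Finset.sum_congr rfl fun u _ => ?_
      rw [Finset.sum_comm]
      refine Finset.sum_congr rfl fun v _ => ?_
      rw [map_sum, Finset.sum_mul]
    rw [h2, ← Finset.sum_add_distrib, Finset.mul_sum]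
    refine Finset.sum_congr rfl fun u _ => ?_
    rw [← Finset.sum_add_distrib, Finset.mul_sum]
    refine Finset.sum_congr rfl fun v _ => ?_
    rw [← add_mul, ← C_add, sub_add_cancel, ← mul_assoc, ← C_mul]
  have h4 : (C 2 * ∑ u, ∑ v, C (G u v) * (X u * X v) : MvPolynomial V ℝ) ∈ JJ Γ p := by
    rw [h1]
    refine Ideal.add_mem _ ?_ ?_
    · refine Ideal.sum_mem _ fun u _ => Ideal.sum_mem _ fun v _ => ?_
      by_cases huv : ({u, v} : Finset V) ∈ Γ.faces
      · rw [hlam u v huv, sub_self, C_0, zero_mul]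
        exact Ideal.zero_mem _
      · exact Ideal.mul_mem_left _ _ (nonface_mem huv)
    · refine Ideal.sum_mem _ fun i _ => Ideal.add_mem _ ?_ ?_
      · exact Ideal.mul_mem_right _ _ (th_mem i)
      · exact Ideal.mul_mem_left _ _ (th_mem i)
  have h5 : (∑ u, ∑ v, C (G u v) * (X u * X v) : MvPolynomial V ℝ) =
      C (1 / 2) * (C 2 * ∑ u, ∑ v, C (G u v) * (X u * X v)) := by
    rw [← mul_assoc, ← C_mul]
    norm_num
  rw [h5]
  exact Ideal.mul_mem_left _ _ h4

/-- Y12. -/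
theorem exists_clB (hb : ∀ H ∈ Γ.faces, Odd (d - H.card) → Bends Γ.faces p H) :
    ∃ (n : ℕ) (M : Matrix (Fin (n + 1)) (Fin (n + 1)) (MvPolynomial V ℝ)),
      M.transpose = M ∧ (∀ i j, (M i j).IsHomogeneous 1) ∧
      (∃ q ∈ JJ Γ p, q.IsHomogeneous 2 ∧
        M * M = q • (1 : Matrix (Fin (n + 1)) (Fin (n + 1)) (MvPolynomial V ℝ))) ∧
      ∀ H ∈ Γ.faces, Odd (d - H.card) → ∃ (s : V → ℝ) (u : Matrix (Fin (n + 1)) (Fin (n + 1)) ℝ),
        (∀ v ∈ H, s v = 0) ∧ (∀ v, v ∉ H → insert v H ∈ Γ.faces → 0 < s v) ∧ u.transpose = u ∧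
        M * u.map C + u.map C * M = (2 * ∑ v, C (s v) * X v : MvPolynomial V ℝ) •
          (1 : Matrix (Fin (n + 1)) (Fin (n + 1)) (MvPolynomial V ℝ)) := by
  classical
  obtain ⟨Hs, hHs⟩ : ∃ Hs : Finset (Finset V), ∀ H, H ∈ Hs ↔ H ∈ Γ.faces ∧ Odd (d - H.card) :=
    ⟨Γ.faces.filter fun H => Odd (d - H.card), fun H => Finset.mem_filter⟩
  have hch : ∀ H : Hs, ∃ (W : Matrix V V ℝ) (y : V → ℝ), Rel Γ.faces p (W.transpose * W) ∧
      (∀ v ∈ H.1, (W.transpose * W).mulVec y v = 0) ∧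
      ∀ v, v ∉ H.1 → insert v H.1 ∈ Γ.faces → 0 < (W.transpose * W).mulVec y v := by
    intro H
    obtain ⟨G, hG, hrel, y, hy1, hy2⟩ := hb H.1 ((hHs _).1 H.2).1 ((hHs _).1 H.2).2
    obtain ⟨W, hW⟩ := psd_fac hG
    refine ⟨W, y, ?_, ?_, ?_⟩
    · rw [← hW]
      exact hrel
    · rw [← hW]
      exact hy1
    · rw [← hW]
      exact hy2
  choose W y hrel hy1 hy2 using hch
  obtain ⟨e, -⟩ : ∃ e : (Hs × V) ≃ Fin (Fintype.card (Hs × V)), e = e :=
    ⟨Fintype.equivFin _, rfl⟩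
  obtain ⟨ℓ, hℓ⟩ : ∃ ℓ : Fin (Fintype.card (Hs × V)) → MvPolynomial V ℝ,
      ∀ x : Hs × V, ℓ (e x) = lf (W x.1 x.2) :=
    ⟨fun i => lf (W (e.symm i).1 (e.symm i).2), fun x => by
      show lf (W (e.symm (e x)).1 (e.symm (e x)).2) = _
      rw [Equiv.symm_apply_apply]⟩
  obtain ⟨n, M, u, hM1, hM2, hM3, hu1, hu2, hu3⟩ := Pool.Agent.H128.Clif.exists_matrix _ ℓ
  have hhom : ∀ j, (ℓ j).IsHomogeneous 1 := by
    intro j
    obtain ⟨x, rfl⟩ := e.surjective j
    rw [hℓ]
    exact lf_hom _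
  refine ⟨n, M, hM1, ?_, ⟨_, ?_, ?_, hM2⟩, ?_⟩
  · intro i a
    have h1 : Submodule.span ℝ (Set.range ℓ) ≤ homogeneousSubmodule V ℝ 1 := by
      rw [Submodule.span_le]
      rintro _ ⟨j, rfl⟩
      exact hhom j
    exact h1 (hM3 i a)
  · rw [← Equiv.sum_comp e (fun j => ℓ j ^ 2), Fintype.sum_prod_type]
    refine Ideal.sum_mem _ fun H _ => ?_
    simp only [hℓ]
    rw [sum_sq]
    exact quad_mem _ (hrel H)
  · refine IsHomogeneous.sum _ _ _ fun j _ => ?_
    have h2 := (hhom j).pow 2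
    rwa [one_mul] at h2
  · intro H hH hodd
    obtain ⟨H', hH'⟩ : ∃ H' : Hs, H'.1 = H := ⟨⟨H, (hHs H).2 ⟨hH, hodd⟩⟩, rfl⟩
    choose c hc using hu3
    have hcM : ∀ j, (Matrix.map (Matrix.of fun i a => c j i a) C :
        Matrix (Fin (n + 1)) (Fin (n + 1)) (MvPolynomial V ℝ)) = u j := by
      intro j
      ext1 i a
      rw [Matrix.map_apply, hc]
      rfl
    have hcT : ∀ j, (Matrix.of fun i a => c j i a).transpose = Matrix.of fun i a => c j i a := by
      intro j
      ext i a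
      have h2 := congrFun (congrFun (hu1 j) i) a
      rw [Matrix.transpose_apply, hc, hc] at h2
      rw [Matrix.transpose_apply, Matrix.of_apply, Matrix.of_apply]
      exact C_injective V ℝ h2
    obtain ⟨z, hz⟩ : ∃ z : V → ℝ, z = (W H').mulVec (y H') := ⟨_, rfl⟩
    refine ⟨((W H').transpose * W H').mulVec (y H'),
      ∑ j, z j • Matrix.of (fun i a => c (e (H', j)) i a), ?_, ?_, ?_, ?_⟩
    · rw [← hH']
      exact hy1 H'
    · rw [← hH']
      exact hy2 H'
    · rw [Matrix.transpose_sum]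
      refine Finset.sum_congr rfl fun j _ => ?_
      rw [Matrix.transpose_smul, hcT]
    · have h1 : (Matrix.map (∑ j, z j • Matrix.of (fun i a => c (e (H', j)) i a)) C :
          Matrix (Fin (n + 1)) (Fin (n + 1)) (MvPolynomial V ℝ)) =
          ∑ j, (C (z j) : MvPolynomial V ℝ) • u (e (H', j)) := by
        ext1 i a
        rw [Matrix.map_apply, Matrix.sum_apply, Matrix.sum_apply, map_sum]
        refine Finset.sum_congr rfl fun j _ => ?_
        rw [Matrix.smul_apply, Matrix.smul_apply, smul_eq_mul, smul_eq_mul, C_mul, ← hcM]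
        rfl
      rw [h1, Finset.mul_sum, Finset.sum_mul, ← Finset.sum_add_distrib]
      have h2 : ∀ j ∈ (Finset.univ : Finset V),
          M * ((C (z j) : MvPolynomial V ℝ) • u (e (H', j))) +
          ((C (z j) : MvPolynomial V ℝ) • u (e (H', j))) * M = (C (z j) * (2 * lf (W H' j))) •
          (1 : Matrix (Fin (n + 1)) (Fin (n + 1)) (MvPolynomial V ℝ)) := by
        intro j _
        rw [Matrix.mul_smul, Matrix.smul_mul, ← smul_add, hu2, hℓ, smul_smul]
      rw [Finset.sum_congr rfl h2, ← Finset.sum_smul]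
      congr 1
      have h3 : ∀ v, ((W H').transpose * W H').mulVec (y H') v = ∑ j, z j * W H' j v := by
        intro v
        rw [← Matrix.mulVec_mulVec, ← hz, Matrix.mulVec, dotProduct]
        refine Finset.sum_congr rfl fun j _ => ?_
        rw [Matrix.transpose_apply, mul_comm]
      simp only [h3, map_sum, Finset.sum_mul]
      rw [Finset.sum_comm, Finset.mul_sum]
      refine Finset.sum_congr rfl fun j _ => ?_
      rw [lf, Finset.mul_sum, Finset.mul_sum, Finset.mul_sum]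
      refine Finset.sum_congr rfl fun v _ => ?_
      rw [C_mul]
      ring

end Pool.Agent.H539.Bend.Y12
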