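import Pool.Agent.H128.Bend.Defs
import Pool.Agent.H128.Bend.Y01
import Pool.Agent.H128.Bend.Y02
import Pool.Agent.H128.Bend.Y04
import Pool.Agent.H128.Bend.Y05
import Pool.Agent.H128.Bend.Y06
import Pool.Agent.H128.Bend.Y07
import Pool.Agent.H128.Bend.Y08
import Pool.Agent.H128.Bend.Y09
import Pool.Agent.H128.Bend.Y10
import Pool.Agent.H128.Bend.Y12
import Pool.Agent.H128.Fan.Lem

set_option autoImplicit false
set_option linter.unusedSectionVars false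

/-! The lemmas proved in the modules `Y01`–`Y12`, collected. -/

namespace Pool.Agent.H128.Bend.Lem

open Pool.Agent.H128.Bend

section arr
variable {V : Type} [Fintype V] [DecidableEq V] {d : ℕ} {S : Finset (Finset V)} {p : V → Fin d → ℝ}

/-- Y01. -/
theorem li (hS : Down S) (hf : Fan S p) : ∀ F ∈ S, LinearIndependent ℝ (fun v : F => p v) :=
  Pool.Agent.H972.BendY01.li hS hf

/-- Y02. -/
theorem star_exists (hS : Down S) (hf : Fan S p) (H : Finset V) (hH : H ∈ S) (x : Fin d → ℝ) :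
    ∃ c, IsStar S p H x c :=
  Pool.Agent.H20.Bend.star_exists hS hf H hH x

/-- Y03. -/
theorem star_unique (hS : Down S) (hf : Fan S p) (H : Finset V) (hH : H ∈ S) (x : Fin d → ℝ)
    (c c' : V → ℝ) (h : IsStar S p H x c) (h' : IsStar S p H x c') : c = c' :=
  Pool.Agent.H972.BendY01.star_unique hS hf H hH x c c' h h'

/-- Y04. -/
theorem carried (hS : Down S) (hli : ∀ F ∈ S, LinearIndependent ℝ (fun v : F => p v))
    (hex : ∀ H ∈ S, ∀ x, ∃ c, IsStar S p H x c)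
    (hun : ∀ H ∈ S, ∀ x c c', IsStar S p H x c → IsStar S p H x c' → c = c')
    (hW : Walls S p) (H : Finset V) (hH : H ∈ S) (σ : Finset V) (hσ : σ ∈ S) :
    ∃ G ∈ S, H ⊆ G ∧ ∀ w ∈ σ, ∀ c, IsStar S p H (p w) c → ∀ v, c v ≠ 0 → v ∈ G :=
  Pool.Agent.H722.Bend.carried hS hli hex hun hW H hH σ hσ

/-- Y05. -/
theorem noPS_of_maps (hS : Down S) (h0 : ∅ ∈ S)
    (hli : ∀ F ∈ S, LinearIndependent ℝ (fun v : F => p v))
    (c : Finset V → V → V → ℝ)
    (h1 : ∀ H ∈ S, ∀ w, p w - ∑ v, c H w v • p v ∈ Submodule.span ℝ (p '' (H : Set V)))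
    (h2 : ∀ H ∈ S, ∀ w, ∀ v ∈ H, c H w v = 0)
    (h3 : ∀ H ∈ S, ∀ σ ∈ S, ∀ w ∈ σ, ∀ w' ∈ σ, ∀ v v', c H w v ≠ 0 → c H w' v' ≠ 0 →
      insert v (insert v' H) ∈ S)
    (h4 : ∀ H ∈ S, ∀ w, w ∉ H → insert w H ∈ S → c H w = Pi.single w 1)
    (h5 : ∀ H ∈ S, ∀ w ∈ H, c H w = 0) : NoPS S p :=
  Pool.Agent.H976.Bend.noPS_of_maps hS h0 hli c h1 h2 h3 h4 h5

/-- Y06. -/
theorem exists_pd (h : NoPS S p) : ∃ G : Matrix V V ℝ, G.PosDef ∧ Rel S p G :=
  Pool.Agent.H642.Y06.exists_pd h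

end arr

section sub
variable {n m d e : ℕ}

/-- Y07. -/
theorem sub_fan {S : Finset (Finset (Fin n))} {p : Fin n → Fin d → ℝ} (hS : Down S) (hf : Fan S p)
    (a b : Fin n) (hab : a ≠ b) (he : {a, b} ∈ S) (α β : ℝ) (hα : 0 < α) (hβ : 0 < β) :
    Fan (subdiv S a b) (subVec p a b α β) :=
  Pool.Agent.H340.Bend.sub_fan hS hf a b hab he α β hα hβ

/-- Y08. -/
theorem sub_down {S : Finset (Finset (Fin n))} (hS : Down S) (a b : Fin n) :
    Down (subdiv S a b) :=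
  Pool.Agent.H124.BendY.sub_down hS a b

/-- Y09. -/
theorem sub_noPS {S : Finset (Finset (Fin n))} {p : Fin n → Fin d → ℝ} (hS : Down S)
    (hn : NoPS S p) (a b : Fin n) (hab : a ≠ b) (he : {a, b} ∈ S) (α β : ℝ) (hα : 0 < α)
    (hβ : 0 < β) : NoPS (subdiv S a b) (subVec p a b α β) :=
  Pool.Agent.H803.BEND.sub_noPS hS hn a b hab he α β hα hβ

/-- Y10. -/
theorem join_fan {S : Finset (Finset (Fin n))} {T : Finset (Finset (Fin m))}
    {p : Fin n → Fin d → ℝ} {q : Fin m → Fin e → ℝ} (hf : Fan S p) (hg : Fan T q) :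
    Fan (join S T) (joinVec p q) :=
  Pool.Agent.H46.Sub.BendY10.join_fan hf hg

/-- Y11. -/
theorem join_noPS {S : Finset (Finset (Fin n))} {T : Finset (Finset (Fin m))}
    {p : Fin n → Fin d → ℝ} {q : Fin m → Fin e → ℝ} (hS : Down S) (hT : Down T)
    (hf : NoPS S p) (hg : NoPS T q) : Down (join S T) ∧ NoPS (join S T) (joinVec p q) :=
  Pool.Agent.H124.BendY.join_noPS hS hT hf hg

end sub

section cl
open Pool.Agent.Helper611.ZBase Pool.Agent.H128.SRing Pool.Agent.H128.Fan MvPolynomial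

variable {V : Type} [Fintype V] [LinearOrder V] {d : ℕ} {Γ : Cx V} {p : V → (Fin d → ℝ)}

/-- Y12. -/
theorem exists_clB (hb : ∀ H ∈ Γ.faces, Odd (d - H.card) → Bends Γ.faces p H) :
    ∃ (n : ℕ) (M : Matrix (Fin (n + 1)) (Fin (n + 1)) (MvPolynomial V ℝ)),
      M.transpose = M ∧ (∀ i j, (M i j).IsHomogeneous 1) ∧
      (∃ q ∈ JJ Γ p, q.IsHomogeneous 2 ∧
        M * M = q • (1 : Matrix (Fin (n + 1)) (Fin (n + 1)) (MvPolynomial V ℝ))) ∧
      ∀ H ∈ Γ.faces, Odd (d - H.card) → ∃ (s : V → ℝ) (u : Matrix (Fin (n + 1)) (Fin (n + 1)) ℝ),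
        (∀ v ∈ H, s v = 0) ∧ (∀ v, v ∉ H → insert v H ∈ Γ.faces → 0 < s v) ∧ u.transpose = u ∧
        M * u.map C + u.map C * M = (2 * ∑ v, C (s v) * X v : MvPolynomial V ℝ) •
          (1 : Matrix (Fin (n + 1)) (Fin (n + 1)) (MvPolynomial V ℝ)) :=
  Pool.Agent.H539.Bend.Y12.exists_clB hb

end cl

end Pool.Agent.H128.Bend.Lem
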